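import Mathlib
import Pool.Agent.Lib.MP_bae66e_nt.Mg.G034

set_option autoImplicit false

namespace Pool.Agent.MG

open Pool.Agent.GM

private lemma T1a_wk_le (c : ℝ) (hc : 0 < c) (k n : ℕ) : wk k n ≤ (c⁻¹) ^ k * (n : ℝ) ^ (c - 2) := by
  have hc' : 0 < c⁻¹ := inv_pos.mpr hc
  rcases Nat.eq_zero_or_pos n with h | h
  · subst h
    have h1 : wk k 0 = 0 := by unfold wk; simp
    rw [h1]
    positivity
  · have hn : (0 : ℝ) < n := by exact_mod_cast h
    have hn1 : (1 : ℝ) ≤ n := by exact_mod_cast h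
    have hlog : 0 ≤ Real.log n := Real.log_nonneg hn1
    have h1 := Real.pow_div_factorial_le_exp (c * Real.log n) (by positivity) k
    have h2 : Real.exp (c * Real.log n) = (n : ℝ) ^ c := by
      rw [Real.rpow_def_of_pos hn, mul_comm]
    rw [h2, mul_pow] at h1
    have h3 : wk k n = (c⁻¹) ^ k * (c ^ k * Real.log n ^ k / k.factorial) / (n : ℝ) ^ 2 := by
      unfold wk
      rw [inv_pow]
      field_simp
    have h4 : (n : ℝ) ^ (c - 2) = (n : ℝ) ^ c / (n : ℝ) ^ 2 := by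
      rw [Real.rpow_sub hn]
      norm_num
    rw [h3, h4, mul_div_assoc]
    exact mul_le_mul_of_nonneg_left (div_le_div_of_nonneg_right h1 (by positivity)) (by positivity)

/-- T1a. PROOF. `log n * (log n)^k / (k! n^2)`: a power of `log n` is `O(n^(1/2))`
(`isLittleO_log_rpow_rpow_atTop` or `Real.isLittleO_pow_log_id_atTop`), compare with `n^(-3/2)`. -/
lemma summable_log_wk (k : ℕ) : Summable (fun n : ℕ => Real.log n * wk k n) := by
  have hs : Summable (fun n : ℕ => (4 : ℝ) ^ (k + 1) * (n : ℝ) ^ (-(3/2) : ℝ)) :=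
    (Real.summable_nat_rpow.mpr (by norm_num)).mul_left _
  refine Summable.of_nonneg_of_le ?_ ?_ hs
  · intro n
    have h1 : 0 ≤ Real.log n := Real.log_natCast_nonneg n
    have h2 : 0 ≤ wk k n := by unfold wk; positivity
    exact mul_nonneg h1 h2
  · intro n
    rcases Nat.eq_zero_or_pos n with h | h
    · subst h
      simp only [Nat.cast_zero, Real.log_zero, zero_mul]
      positivity
    · have hn : (0 : ℝ) < n := by exact_mod_cast h
      have h1 : 0 ≤ Real.log n := Real.log_natCast_nonneg n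
      have h2 := T1a_wk_le (1/4) (by norm_num) k n
      have h3 := Real.log_le_rpow_div hn.le (show (0:ℝ) < 1/4 by norm_num)
      have h4 : 0 ≤ wk k n := by unfold wk; positivity
      calc Real.log n * wk k n ≤ ((n : ℝ) ^ (1/4 : ℝ) / (1/4)) * (((1/4 : ℝ)⁻¹) ^ k * (n : ℝ) ^ ((1/4 : ℝ) - 2)) := by
            gcongr
        _ = (4 : ℝ) ^ (k + 1) * ((n : ℝ) ^ (1/4 : ℝ) * (n : ℝ) ^ ((1/4 : ℝ) - 2)) := by
            have : ((1/4 : ℝ)⁻¹) = 4 := by norm_num
            rw [this, pow_succ]; ring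
        _ = (4 : ℝ) ^ (k + 1) * (n : ℝ) ^ (-(3/2) : ℝ) := by
            rw [← Real.rpow_add hn]; norm_num

/-- T1b. The basic bound. PROOF. `(c log n)^k / k! ≤ exp (c log n)` (`Real.pow_div_factorial_le_exp`),
so `(log n)^k / k! ≤ c^(-k) n^c`. For `n = 0` both sides are `0` (`0^(-2+c)` is irrelevant: it is
`≥ 0`, and `wk k 0 = 0`). -/
lemma wk_le (c : ℝ) (hc : 0 < c) (k n : ℕ) : wk k n ≤ (c⁻¹) ^ k * (n : ℝ) ^ (c - 2) :=
  T1a_wk_le c hc k n

end Pool.Agent.MG
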