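import Mathlib
import Pool.Agent.Lib.MP_bae66e_nt.MG.T1a

set_option autoImplicit false

namespace Pool.Agent.MG

open Pool.Agent.GM

/-- T1c. Upper tail. PROOF. Let `c = 1/(1+θ) < 1`. By `wk_le`,
`log n * wk k n ≤ (1+θ)^k n^(c-2) log n ≤ C_η (1+θ)^k n^(-1-η) n^(c-1+2η)`
(`log n ≤ C_η n^η`, `Real.log_le_rpow_div`). For small `η > 0` the exponent `c - 1 + 2η` is negative,
so for `log n > (1+θ) k` the last factor is `≤ exp ((c - 1 + 2η)(1+θ) k) = exp ((-θ + 2η(1+θ)) k)`.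
Summing `n^(-1-η)` the sum is at most `C exp (k (log (1+θ) - θ + 2η(1+θ)))`, and
`log (1+θ) < θ`; take `η` small and `c` = a quarter of `θ - log (1+θ)`, say. -/
lemma upper_tail (θ : ℝ) (h0 : 0 < θ) (h1 : θ < 1) : ∃ c : ℝ, 0 < c ∧ ∃ k₀ : ℕ, ∀ k : ℕ, k₀ ≤ k →
    ∑' n : ℕ, (if (1 + θ) * k < Real.log n then Real.log n * wk k n else 0)
      ≤ Real.exp (-(c * k)) := by
  have hθ1 : (0 : ℝ) < 1 + θ := by linarith
  set δ : ℝ := θ - Real.log (1 + θ) with hδ
  have hδ0 : 0 < δ := by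
    have := Real.add_one_lt_exp (ne_of_gt h0)
    have h2 : Real.log (1 + θ) < θ := by
      rw [Real.log_lt_iff_lt_exp hθ1]; linarith
    rw [hδ]; linarith
  have hδθ : δ ≤ θ := by
    have : 0 ≤ Real.log (1 + θ) := Real.log_nonneg (by linarith)
    rw [hδ]; linarith
  set η : ℝ := δ / (8 * (1 + θ)) with hη
  have hη0 : 0 < η := by rw [hη]; positivity
  have hη1 : η * (1 + θ) = δ / 8 := by rw [hη]; field_simp
  have hs : Summable (fun n : ℕ => (n : ℝ) ^ (-1 - η)) := Real.summable_nat_rpow.mpr (by linarith)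
  set C : ℝ := η⁻¹ * ∑' n : ℕ, (n : ℝ) ^ (-1 - η) with hC
  refine ⟨δ / 2, by positivity, ⌈4 * C / δ⌉₊, ?_⟩
  intro k hk
  have hk' : C ≤ δ * k / 4 := by
    have h2 : 4 * C / δ ≤ k := (Nat.le_ceil _).trans (by exact_mod_cast hk)
    rw [div_le_iff₀ hδ0] at h2
    linarith
  have hterm : ∀ n : ℕ, (if (1 + θ) * k < Real.log n then Real.log n * wk k n else 0)
      ≤ Real.exp (-(3 * δ / 4 * k)) * (η⁻¹ * (n : ℝ) ^ (-1 - η)) := by
    intro n
    split_ifs with h
    · have hn0 : n ≠ 0 := by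
        rintro rfl
        simp only [Nat.cast_zero, Real.log_zero] at h
        have : (0 : ℝ) ≤ (1 + θ) * k := by positivity
        linarith
      have hn : (0 : ℝ) < n := by exact_mod_cast Nat.pos_of_ne_zero hn0
      have h3 := wk_le (1 + θ)⁻¹ (by positivity) k n
      rw [inv_inv] at h3
      have h4 := Real.log_le_rpow_div hn.le hη0
      have h5 : 0 ≤ wk k n := by
        unfold wk
        have := Real.log_natCast_nonneg n
        positivity
      have h6 : (n : ℝ) ^ ((1 + θ)⁻¹ - 1 + 2 * η) ≤ Real.exp ((-θ + δ / 4) * k) := by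
        rw [Real.rpow_def_of_pos hn]
        apply Real.exp_le_exp.mpr
        have h7 : ((1 + θ)⁻¹ - 1 + 2 * η) * (1 + θ) = -θ + δ / 4 := by
          have : (1 + θ)⁻¹ * (1 + θ) = 1 := inv_mul_cancel₀ hθ1.ne'
          nlinarith
        have h8 : (1 + θ)⁻¹ - 1 + 2 * η ≤ 0 := by
          have : ((1 + θ)⁻¹ - 1 + 2 * η) * (1 + θ) ≤ 0 := by rw [h7]; linarith
          by_contra h9
          push Not at h9
          have := mul_pos h9 hθ1
          linarith
        have h9 : Real.log n * ((1 + θ)⁻¹ - 1 + 2 * η) ≤ ((1 + θ) * k) * ((1 + θ)⁻¹ - 1 + 2 * η) :=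
          mul_le_mul_of_nonpos_right h.le h8
        calc Real.log n * ((1 + θ)⁻¹ - 1 + 2 * η) ≤ ((1 + θ) * k) * ((1 + θ)⁻¹ - 1 + 2 * η) := h9
          _ = (((1 + θ)⁻¹ - 1 + 2 * η) * (1 + θ)) * k := by ring
          _ = (-θ + δ / 4) * k := by rw [h7]
      have h10 : (1 + θ) ^ k = Real.exp (k * Real.log (1 + θ)) := by
        rw [Real.exp_nat_mul, Real.exp_log hθ1]
      calc Real.log n * wk k n ≤ ((n : ℝ) ^ η / η) * ((1 + θ) ^ k * (n : ℝ) ^ ((1 + θ)⁻¹ - 2)) := by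
            gcongr
        _ = (1 + θ) ^ k * (η⁻¹ * ((n : ℝ) ^ η * (n : ℝ) ^ ((1 + θ)⁻¹ - 2))) := by
            field_simp
        _ = (1 + θ) ^ k * (η⁻¹ * ((n : ℝ) ^ (-1 - η) * (n : ℝ) ^ ((1 + θ)⁻¹ - 1 + 2 * η))) := by
            rw [← Real.rpow_add hn, ← Real.rpow_add hn]
            congr 3
            ring
        _ ≤ (1 + θ) ^ k * (η⁻¹ * ((n : ℝ) ^ (-1 - η) * Real.exp ((-θ + δ / 4) * k))) := by
            gcongr
        _ = ((1 + θ) ^ k * Real.exp ((-θ + δ / 4) * k)) * (η⁻¹ * (n : ℝ) ^ (-1 - η)) := by ring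
        _ = Real.exp (-(3 * δ / 4 * k)) * (η⁻¹ * (n : ℝ) ^ (-1 - η)) := by
            rw [h10, ← Real.exp_add]
            congr 2
            rw [hδ]
            ring
    · positivity
  have hs2 : Summable (fun n : ℕ => Real.exp (-(3 * δ / 4 * k)) * (η⁻¹ * (n : ℝ) ^ (-1 - η))) :=
    (hs.mul_left _).mul_left _
  have hnn : ∀ n : ℕ, 0 ≤ (if (1 + θ) * k < Real.log n then Real.log n * wk k n else 0) := by
    intro n
    split_ifs
    · have := Real.log_natCast_nonneg n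
      unfold wk
      positivity
    · exact le_refl _
  have h2 := Summable.tsum_le_tsum hterm (Summable.of_nonneg_of_le hnn hterm hs2) hs2
  rw [tsum_mul_left, tsum_mul_left, ← hC] at h2
  refine h2.trans ?_
  have h3 : C ≤ Real.exp (δ * k / 4) := by
    have := Real.add_one_le_exp (δ * k / 4)
    linarith
  calc Real.exp (-(3 * δ / 4 * k)) * C ≤ Real.exp (-(3 * δ / 4 * k)) * Real.exp (δ * k / 4) := by gcongr
    _ = Real.exp (-(δ / 2 * k)) := by
        rw [← Real.exp_add]; congr 1; ring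

end Pool.Agent.MG
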