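import Mathlib
import Pool.Agent.Lib.MP_bae66e_nt.MG.T1a

set_option autoImplicit false

namespace Pool.Agent.MG

open Pool.Agent.GM

/-- T1d. Lower tail. PROOF. Let `c = 1/(1-θ) > 1`. By `wk_le`
`log n * wk k n ≤ (1-θ)^k n^(c-2) log n`, and for `0 ≤ log n < (1-θ) k`:
`n^(c-2) = n^(-1-η) n^(c-1+η) ≤ n^(-1-η) exp ((c-1+η)(1-θ)k) = n^(-1-η) exp ((θ + η(1-θ)) k)`,
`log n ≤ k`. So the sum is at most `C k exp (k (log (1-θ) + θ + η (1-θ)))`, and
`log (1-θ) < -θ`. The term `n = 0` vanishes (`log 0 = 0`). -/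
lemma lower_tail (θ : ℝ) (h0 : 0 < θ) (h1 : θ < 1) : ∃ c : ℝ, 0 < c ∧ ∃ k₀ : ℕ, ∀ k : ℕ, k₀ ≤ k →
    ∑' n : ℕ, (if Real.log n < (1 - θ) * k then Real.log n * wk k n else 0)
      ≤ Real.exp (-(c * k)) := by
  have hθ1 : (0 : ℝ) < 1 - θ := by linarith
  set δ : ℝ := -θ - Real.log (1 - θ) with hδ
  have hδ0 : 0 < δ := by
    have := Real.add_one_lt_exp (show -θ ≠ 0 by linarith)
    have h2 : Real.log (1 - θ) < -θ := by
      rw [Real.log_lt_iff_lt_exp hθ1]; linarith
    rw [hδ]; linarith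
  set η : ℝ := δ / (4 * (1 - θ)) with hη
  have hη0 : 0 < η := by rw [hη]; positivity
  have hη1 : η * (1 - θ) = δ / 4 := by rw [hη]; field_simp
  have hs : Summable (fun n : ℕ => (n : ℝ) ^ (-1 - η)) := Real.summable_nat_rpow.mpr (by linarith)
  set C : ℝ := ∑' n : ℕ, (n : ℝ) ^ (-1 - η) with hC
  have hC0 : 0 ≤ C := tsum_nonneg (fun n => by positivity)
  have hlim : Filter.Tendsto (fun k : ℕ => (k : ℝ) * C * Real.exp (-(δ / 4 * k))) Filter.atTop (nhds 0) := by
    have h2 := Real.tendsto_pow_mul_exp_neg_atTop_nhds_zero 1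
    have h3 : Filter.Tendsto (fun k : ℕ => δ / 4 * (k : ℝ)) Filter.atTop Filter.atTop :=
      tendsto_natCast_atTop_atTop.const_mul_atTop (by positivity)
    have h4 := (h2.comp h3).const_mul (C * (4 / δ))
    rw [mul_zero] at h4
    refine h4.congr (fun k => ?_)
    simp only [Function.comp_apply, pow_one]
    have : 4 / δ * (δ / 4) = 1 := by field_simp
    calc C * (4 / δ) * (δ / 4 * (k : ℝ) * Real.exp (-(δ / 4 * k))) = C * (4 / δ * (δ / 4)) * k * Real.exp (-(δ / 4 * k)) := by ring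
      _ = k * C * Real.exp (-(δ / 4 * k)) := by rw [this]; ring
  obtain ⟨k₀, hk₀⟩ := Filter.eventually_atTop.mp (hlim.eventually (ge_mem_nhds (show (0:ℝ) < 1 by norm_num)))
  refine ⟨δ / 2, by positivity, k₀, ?_⟩
  intro k hk
  have hk' := hk₀ k hk
  have hterm : ∀ n : ℕ, (if Real.log n < (1 - θ) * k then Real.log n * wk k n else 0)
      ≤ (k * Real.exp (-(3 * δ / 4 * k))) * (n : ℝ) ^ (-1 - η) := by
    intro n
    split_ifs with h
    · rcases Nat.eq_zero_or_pos n with hn0 | hn0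
      · subst hn0
        simp only [Nat.cast_zero, Real.log_zero, zero_mul]
        positivity
      have hn : (0 : ℝ) < n := by exact_mod_cast hn0
      have hlog : 0 ≤ Real.log n := Real.log_natCast_nonneg n
      have h3 := wk_le (1 - θ)⁻¹ (by positivity) k n
      rw [inv_inv] at h3
      have h4 : Real.log n ≤ k := by
        have : (0:ℝ) ≤ k := Nat.cast_nonneg k
        nlinarith
      have h5 : 0 ≤ wk k n := by
        unfold wk
        positivity
      have h6 : (n : ℝ) ^ ((1 - θ)⁻¹ - 1 + η) ≤ Real.exp ((θ + δ / 4) * k) := by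
        rw [Real.rpow_def_of_pos hn]
        apply Real.exp_le_exp.mpr
        have h7 : ((1 - θ)⁻¹ - 1 + η) * (1 - θ) = θ + δ / 4 := by
          have : (1 - θ)⁻¹ * (1 - θ) = 1 := inv_mul_cancel₀ hθ1.ne'
          nlinarith
        have h8 : 0 ≤ (1 - θ)⁻¹ - 1 + η := by
          have : 1 ≤ (1 - θ)⁻¹ := (one_le_inv₀ hθ1).mpr (by linarith)
          linarith
        calc Real.log n * ((1 - θ)⁻¹ - 1 + η) ≤ ((1 - θ) * k) * ((1 - θ)⁻¹ - 1 + η) :=
              mul_le_mul_of_nonneg_right h.le h8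
          _ = (((1 - θ)⁻¹ - 1 + η) * (1 - θ)) * k := by ring
          _ = (θ + δ / 4) * k := by rw [h7]
      have h10 : (1 - θ) ^ k = Real.exp (k * Real.log (1 - θ)) := by
        rw [Real.exp_nat_mul, Real.exp_log hθ1]
      calc Real.log n * wk k n ≤ k * ((1 - θ) ^ k * (n : ℝ) ^ ((1 - θ)⁻¹ - 2)) := by
            gcongr
        _ = k * ((1 - θ) ^ k * ((n : ℝ) ^ (-1 - η) * (n : ℝ) ^ ((1 - θ)⁻¹ - 1 + η))) := by
            rw [← Real.rpow_add hn]
            congr 3
            ring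
        _ ≤ k * ((1 - θ) ^ k * ((n : ℝ) ^ (-1 - η) * Real.exp ((θ + δ / 4) * k))) := by
            gcongr
        _ = (k * ((1 - θ) ^ k * Real.exp ((θ + δ / 4) * k))) * (n : ℝ) ^ (-1 - η) := by ring
        _ = (k * Real.exp (-(3 * δ / 4 * k))) * (n : ℝ) ^ (-1 - η) := by
            rw [h10, ← Real.exp_add]
            congr 3
            rw [hδ]
            ring
    · positivity
  have hs2 : Summable (fun n : ℕ => (k * Real.exp (-(3 * δ / 4 * k))) * (n : ℝ) ^ (-1 - η)) :=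
    hs.mul_left _
  have hnn : ∀ n : ℕ, 0 ≤ (if Real.log n < (1 - θ) * k then Real.log n * wk k n else 0) := by
    intro n
    split_ifs
    · have := Real.log_natCast_nonneg n
      unfold wk
      positivity
    · exact le_refl _
  have h2 := Summable.tsum_le_tsum hterm (Summable.of_nonneg_of_le hnn hterm hs2) hs2
  rw [tsum_mul_left, ← hC] at h2
  refine h2.trans ?_
  calc k * Real.exp (-(3 * δ / 4 * k)) * C = (k * C * Real.exp (-(δ / 4 * k))) * Real.exp (-(δ / 2 * k)) := by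
        rw [mul_assoc (_ * _), ← Real.exp_add]
        have : -(δ / 4 * k) + -(δ / 2 * k) = -(3 * δ / 4 * k) := by ring
        rw [this]; ring
    _ ≤ 1 * Real.exp (-(δ / 2 * k)) := by gcongr
    _ = Real.exp (-(δ / 2 * k)) := one_mul _

end Pool.Agent.MG
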