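import Mathlib
import Pool.Agent.Lib.MP_bae66e_nt.MG.T1c
import Pool.Agent.Lib.MP_bae66e_nt.MG.T1d

set_option autoImplicit false

namespace Pool.Agent.MG

open Pool.Agent.GM

private lemma aux_nonneg (k n : ℕ) : 0 ≤ Real.log n * wk k n := by
  have h : 0 ≤ Real.log (n : ℝ) := Real.log_natCast_nonneg n
  unfold wk
  positivity

/-- T1e. PROOF. Add `upper_tail` and `lower_tail` (`mem_cenSet`); `2 exp (-c k) ≤ exp (-c k/2)` for
large `k`. -/
lemma tail_bound (θ : ℝ) (h0 : 0 < θ) (h1 : θ < 1) : ∃ c : ℝ, 0 < c ∧ ∃ k₀ : ℕ, ∀ k : ℕ, k₀ ≤ k →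
    ∑' n : ℕ, (if n ∈ cenSet θ k then 0 else Real.log n * wk k n) ≤ Real.exp (-(c * k)) := by
  obtain ⟨c₁, hc₁, k₁, h₁⟩ := upper_tail θ h0 h1
  obtain ⟨c₂, hc₂, k₂, h₂⟩ := lower_tail θ h0 h1
  set c := min c₁ c₂ with hc
  have hc0 : 0 < c := lt_min hc₁ hc₂
  obtain ⟨k₃, hk₃⟩ := exists_nat_ge (2 / c)
  refine ⟨c / 2, by positivity, max 1 (max k₃ (max k₁ k₂)), ?_⟩
  intro k hk
  have hk1 : 1 ≤ k := le_trans (le_max_left _ _) hk
  have hk3 : k₃ ≤ k := le_trans (le_trans (le_max_left _ _) (le_max_right _ _)) hk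
  have hk4 : k₁ ≤ k := le_trans (le_trans (le_trans (le_max_left _ _) (le_max_right _ _))
    (le_max_right _ _)) hk
  have hk5 : k₂ ≤ k := le_trans (le_trans (le_trans (le_max_right _ _) (le_max_right _ _))
    (le_max_right _ _)) hk
  have hs := summable_log_wk k
  have s1 : Summable (fun n : ℕ => if (1 + θ) * k < Real.log n then Real.log n * wk k n else 0) := by
    refine Summable.of_nonneg_of_le (fun n => ?_) (fun n => ?_) hs
    · split_ifs
      · exact aux_nonneg k n
      · exact le_rfl
    · split_ifs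
      · exact le_rfl
      · exact aux_nonneg k n
  have s2 : Summable (fun n : ℕ => if Real.log n < (1 - θ) * k then Real.log n * wk k n else 0) := by
    refine Summable.of_nonneg_of_le (fun n => ?_) (fun n => ?_) hs
    · split_ifs
      · exact aux_nonneg k n
      · exact le_rfl
    · split_ifs
      · exact le_rfl
      · exact aux_nonneg k n
  have s3 : Summable (fun n : ℕ => if n ∈ cenSet θ k then 0 else Real.log n * wk k n) := by
    refine Summable.of_nonneg_of_le (fun n => ?_) (fun n => ?_) hs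
    · split_ifs
      · exact le_rfl
      · exact aux_nonneg k n
    · split_ifs
      · exact aux_nonneg k n
      · exact le_rfl
  have h3 : ∑' n : ℕ, (if n ∈ cenSet θ k then 0 else Real.log n * wk k n) ≤
      ∑' n : ℕ, ((if (1 + θ) * k < Real.log n then Real.log n * wk k n else 0) +
        (if Real.log n < (1 - θ) * k then Real.log n * wk k n else 0)) := by
    apply Summable.tsum_le_tsum _ s3 (s1.add s2)
    intro n
    have hn := aux_nonneg k n
    by_cases hm : n ∈ cenSet θ k
    · rw [if_pos hm]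
      apply add_nonneg
      · split_ifs
        · exact hn
        · exact le_rfl
      · split_ifs
        · exact hn
        · exact le_rfl
    · rw [if_neg hm]
      rw [mem_cenSet hk1 h1] at hm
      by_cases ha : (1 + θ) * k < Real.log n
      · rw [if_pos ha]
        split_ifs
        · linarith
        · linarith
      · have hb : Real.log n < (1 - θ) * k := by
          by_contra hcon
          exact hm ⟨not_lt.1 hcon, not_lt.1 ha⟩
        rw [if_neg ha, if_pos hb]
        linarith
  rw [s1.tsum_add s2] at h3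
  have h4 := h₁ k hk4
  have h5 := h₂ k hk5
  have hk0 : (0 : ℝ) ≤ k := Nat.cast_nonneg k
  have h6 : Real.exp (-(c₁ * k)) ≤ Real.exp (-(c * k)) := by
    apply Real.exp_le_exp.2
    have := min_le_left c₁ c₂
    nlinarith
  have h7 : Real.exp (-(c₂ * k)) ≤ Real.exp (-(c * k)) := by
    apply Real.exp_le_exp.2
    have := min_le_right c₁ c₂
    nlinarith
  have h8 : 2 * Real.exp (-(c * k)) ≤ Real.exp (-(c / 2 * k)) := by
    have h9 : 2 ≤ c * k := by
      have h10 : 2 / c ≤ (k : ℝ) := hk₃.trans (by exact_mod_cast hk3)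
      rw [div_le_iff₀ hc0] at h10
      linarith
    have h11 : (2 : ℝ) ≤ Real.exp (c / 2 * k) := by
      have := Real.add_one_le_exp (c / 2 * k)
      linarith
    have h12 : Real.exp (-(c / 2 * k)) = Real.exp (c / 2 * k) * Real.exp (-(c * k)) := by
      rw [← Real.exp_add]
      congr 1
      ring
    rw [h12]
    exact mul_le_mul_of_nonneg_right h11 (Real.exp_pos _).le
  linarith

end Pool.Agent.MG
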