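import Mathlib
import Pool.Agent.Lib.MP_bae66e_nt.Mg.G034

set_option autoImplicit false

namespace Pool.Agent.MG

open Pool.Agent.GM

private noncomputable def T2_g (n : ℕ) : ℝ := if n.Prime then (0 : ℝ) else vM n * (n : ℝ) ^ (-(3/5) : ℝ)

private lemma T2_g_nonneg (n : ℕ) : 0 ≤ T2_g n := by
  unfold T2_g
  split_ifs
  · exact le_refl _
  · exact mul_nonneg ArithmeticFunction.vonMangoldt_nonneg (by positivity)

private lemma T2_log_summable : Summable (fun n : ℕ => Real.log n * (n : ℝ) ^ (-(6/5) : ℝ)) := by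
  have hs : Summable (fun n : ℕ => (10 : ℝ) * (n : ℝ) ^ (-(11/10) : ℝ)) :=
    (Real.summable_nat_rpow.mpr (by norm_num)).mul_left _
  refine Summable.of_nonneg_of_le ?_ ?_ hs
  · intro n
    have h1 : 0 ≤ Real.log n := Real.log_natCast_nonneg n
    positivity
  · intro n
    rcases Nat.eq_zero_or_pos n with h | h
    · subst h
      simp only [Nat.cast_zero, Real.log_zero, zero_mul]
      positivity
    · have hn : (0 : ℝ) < n := by exact_mod_cast h
      have h3 := Real.log_le_rpow_div hn.le (show (0:ℝ) < 1/10 by norm_num)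
      calc Real.log n * (n : ℝ) ^ (-(6/5) : ℝ) ≤ ((n : ℝ) ^ (1/10 : ℝ) / (1/10)) * (n : ℝ) ^ (-(6/5) : ℝ) := by
            gcongr
        _ = 10 * ((n : ℝ) ^ (1/10 : ℝ) * (n : ℝ) ^ (-(6/5) : ℝ)) := by ring
        _ = 10 * (n : ℝ) ^ (-(11/10) : ℝ) := by
            rw [← Real.rpow_add hn]; norm_num

private lemma T2_bound (p k : ℕ) (hp : p.Prime) : T2_g (p ^ (k + 1)) ≤
    (Real.log p * (p : ℝ) ^ (-(6/5) : ℝ)) * (((2 : ℝ) ^ (-(3/5) : ℝ))⁻¹ * ((2 : ℝ) ^ (-(3/5) : ℝ)) ^ k) := by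
  have hp0 : (0 : ℝ) < p := by exact_mod_cast hp.pos
  have hlog : 0 ≤ Real.log p := Real.log_natCast_nonneg p
  have hr : (0 : ℝ) < (2 : ℝ) ^ (-(3/5) : ℝ) := by positivity
  rcases k with _ | j
  · unfold T2_g
    rw [zero_add, pow_one, if_pos hp]
    positivity
  · have h1 : ¬ (p ^ (j + 1 + 1)).Prime := by
      intro h
      have := (Nat.Prime.eq_one_of_pow (n := j + 1 + 1) h)
      omega
    unfold T2_g
    rw [if_neg h1]
    have h2 : vM (p ^ (j + 1 + 1)) = Real.log p := by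
      show ArithmeticFunction.vonMangoldt _ = _
      rw [ArithmeticFunction.vonMangoldt_apply_pow (by omega), ArithmeticFunction.vonMangoldt_apply_prime hp]
    rw [h2]
    have h3 : ((p ^ (j + 1 + 1) : ℕ) : ℝ) ^ (-(3/5) : ℝ) = (p : ℝ) ^ (-(6/5) : ℝ) * ((p : ℝ) ^ (-(3/5) : ℝ)) ^ j := by
      push_cast
      rw [← Real.rpow_natCast, ← Real.rpow_natCast, ← Real.rpow_mul hp0.le, ← Real.rpow_mul hp0.le, ← Real.rpow_add hp0]
      congr 1
      push_cast
      ring
    have h4 : (p : ℝ) ^ (-(3/5) : ℝ) ≤ (2 : ℝ) ^ (-(3/5) : ℝ) := by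
      apply Real.rpow_le_rpow_of_nonpos (by norm_num) (by exact_mod_cast hp.two_le) (by norm_num)
    rw [h3, pow_succ ((2 : ℝ) ^ (-(3/5) : ℝ)) j]
    have h5 : ((2 : ℝ) ^ (-(3/5) : ℝ))⁻¹ * (((2 : ℝ) ^ (-(3/5) : ℝ)) ^ j * (2 : ℝ) ^ (-(3/5) : ℝ)) = ((2 : ℝ) ^ (-(3/5) : ℝ)) ^ j := by
      field_simp
    rw [h5, ← mul_assoc]
    gcongr

private lemma T2_summable : Summable T2_g := by
  have hr0 : (0 : ℝ) ≤ (2 : ℝ) ^ (-(3/5) : ℝ) := by positivity
  have hr1 : (2 : ℝ) ^ (-(3/5) : ℝ) < 1 := Real.rpow_lt_one_of_one_lt_of_neg (by norm_num) (by norm_num)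
  have h1 : Summable (fun p : Nat.Primes => Real.log (p : ℕ) * ((p : ℕ) : ℝ) ^ (-(6/5) : ℝ)) :=
    T2_log_summable.comp_injective Nat.Primes.coe_nat_injective
  have h2 : Summable (fun k : ℕ => ((2 : ℝ) ^ (-(3/5) : ℝ))⁻¹ * ((2 : ℝ) ^ (-(3/5) : ℝ)) ^ k) :=
    (summable_geometric_of_lt_one hr0 hr1).mul_left _
  have h3 := h1.mul_of_nonneg h2 (fun p => by
      have := Real.log_natCast_nonneg (p : ℕ)
      show (0:ℝ) ≤ _
      positivity) (fun k => by show (0:ℝ) ≤ _; positivity)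
  have h4 : Summable (fun pk : Nat.Primes × ℕ => T2_g ((pk.1 : ℕ) ^ (pk.2 + 1))) :=
    Summable.of_nonneg_of_le (fun pk => T2_g_nonneg _) (fun pk => T2_bound pk.1 pk.2 pk.1.2) h3
  have h5 : Summable (T2_g ∘ (Subtype.val : {n : ℕ // IsPrimePow n} → ℕ)) := by
    rw [← Nat.Primes.prodNatEquiv.summable_iff]
    exact h4
  rw [← Function.Injective.summable_iff (g := (Subtype.val : {n : ℕ // IsPrimePow n} → ℕ)) Subtype.val_injective]
  · exact h5
  · intro n hn
    have hn' : ¬ IsPrimePow n := fun h => hn ⟨⟨n, h⟩, rfl⟩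
    unfold T2_g
    split_ifs
    · rfl
    · have : vM n = 0 := ArithmeticFunction.vonMangoldt_eq_zero_iff.mpr hn'
      rw [this, zero_mul]

/-- T2. Prime powers are negligible. PROOF. As in T1b, with `c = 7/5`:
`wk k n ≤ (5/7)^k n^(-3/5)` (from `Real.pow_div_factorial_le_exp`). If `n` is not prime and
`Λ(n) ≠ 0` then `n = p^j` with `p` prime, `j ≥ 2`, `Λ(n) = log p`
(`ArithmeticFunction.vonMangoldt_apply_pow`, `isPrimePow_nat_iff`), and
`∑_{p, j ≥ 2} log p * p^(-3j/5) < ∞` (compare `p^(-6/5) log p`; geometric series in `j`).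
So the sum is at most `C (5/7)^k`, and `log (7/5) > 1/4`. Nonnegative terms, so the sum over `n` is
at most the sum over the pairs `(p, j)` (the map `(p, j) ↦ p^j` is injective on these pairs). -/
lemma prime_powers : ∃ k₀ : ℕ, ∀ k : ℕ, k₀ ≤ k →
    (Summable fun n : ℕ => if n.Prime then (0 : ℝ) else vM n * wk k n) ∧
    ∑' n : ℕ, (if n.Prime then (0 : ℝ) else vM n * wk k n) ≤ Real.exp (-((k : ℝ) / 4)) := by
  have hwk : ∀ k n : ℕ, wk k n ≤ (5/7 : ℝ) ^ k * (n : ℝ) ^ (-(3/5) : ℝ) := by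
    intro k n
    rcases Nat.eq_zero_or_pos n with h | h
    · subst h
      have h1 : wk k 0 = 0 := by unfold wk; simp
      rw [h1]
      positivity
    · have hn : (0 : ℝ) < n := by exact_mod_cast h
      have hn1 : (1 : ℝ) ≤ n := by exact_mod_cast h
      have hlog : 0 ≤ Real.log n := Real.log_nonneg hn1
      have h1 := Real.pow_div_factorial_le_exp ((7/5) * Real.log n) (by positivity) k
      have h2 : Real.exp ((7/5) * Real.log n) = (n : ℝ) ^ (7/5 : ℝ) := by
        rw [Real.rpow_def_of_pos hn, mul_comm]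
      rw [h2, mul_pow] at h1
      have h3 : wk k n = (5/7 : ℝ) ^ k * (((7/5 : ℝ) ^ k * Real.log n ^ k / k.factorial) / (n : ℝ) ^ 2) := by
        have h5 : (5/7 : ℝ) ^ k * (7/5 : ℝ) ^ k = 1 := by
          rw [← mul_pow]; norm_num
        unfold wk
        calc Real.log n ^ k / (k.factorial * (n : ℝ) ^ 2) = ((5/7 : ℝ) ^ k * (7/5 : ℝ) ^ k) * (Real.log n ^ k / (k.factorial * (n : ℝ) ^ 2)) := by
              rw [h5, one_mul]
          _ = _ := by field_simp
      have h4 : (n : ℝ) ^ (-(3/5) : ℝ) = (n : ℝ) ^ (7/5 : ℝ) / (n : ℝ) ^ 2 := by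
        rw [← Real.rpow_natCast, ← Real.rpow_sub hn]
        norm_num
      rw [h3, h4]
      exact mul_le_mul_of_nonneg_left (div_le_div_of_nonneg_right h1 (by positivity)) (by positivity)
  have hterm : ∀ k n : ℕ, (if n.Prime then (0 : ℝ) else vM n * wk k n) ≤ (5/7 : ℝ) ^ k * T2_g n := by
    intro k n
    unfold T2_g
    split_ifs
    · simp
    · have h1 : 0 ≤ vM n := ArithmeticFunction.vonMangoldt_nonneg
      have h2 := mul_le_mul_of_nonneg_left (hwk k n) h1
      linarith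
  have hnn : ∀ k n : ℕ, 0 ≤ (if n.Prime then (0 : ℝ) else vM n * wk k n) := by
    intro k n
    split_ifs
    · exact le_refl _
    · refine mul_nonneg ArithmeticFunction.vonMangoldt_nonneg ?_
      have := Real.log_natCast_nonneg n
      unfold wk
      positivity
  have hsum : ∀ k : ℕ, Summable fun n : ℕ => if n.Prime then (0 : ℝ) else vM n * wk k n := fun k =>
    Summable.of_nonneg_of_le (hnn k) (hterm k) (T2_summable.mul_left _)
  set C : ℝ := ∑' n : ℕ, T2_g n with hC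
  have hq : Real.exp (1/4) * (5/7) < 1 := by
    have h1 : Real.exp (1/4) < 7/5 := by
      have h2 : Real.exp (1/4) ^ 4 < (7/5 : ℝ) ^ 4 := by
        rw [← Real.exp_nat_mul]
        have h3 := Real.exp_one_lt_d9
        norm_num
        norm_num at h3
        linarith
      exact lt_of_pow_lt_pow_left₀ 4 (by norm_num) h2
    linarith
  have hlim : Filter.Tendsto (fun k : ℕ => (Real.exp (1/4) * (5/7)) ^ k * C) Filter.atTop (nhds 0) := by
    have := (tendsto_pow_atTop_nhds_zero_of_lt_one (by positivity) hq).mul_const C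
    rwa [zero_mul] at this
  obtain ⟨k₀, hk₀⟩ := Filter.eventually_atTop.mp (hlim.eventually (ge_mem_nhds (show (0:ℝ) < 1 by norm_num)))
  refine ⟨k₀, fun k hk => ⟨hsum k, ?_⟩⟩
  have h1 := Summable.tsum_le_tsum (hterm k) (hsum k) (T2_summable.mul_left _)
  rw [tsum_mul_left, ← hC] at h1
  refine h1.trans ?_
  have h2 := hk₀ k hk
  have h3 : Real.exp (-((k : ℝ) / 4)) * Real.exp (1/4) ^ k = 1 := by
    rw [← Real.exp_nat_mul, ← Real.exp_add]
    have : -((k : ℝ) / 4) + k * (1/4) = 0 := by ring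
    rw [this, Real.exp_zero]
  calc (5/7 : ℝ) ^ k * C = (Real.exp (-((k : ℝ) / 4)) * Real.exp (1/4) ^ k) * ((5/7 : ℝ) ^ k * C) := by rw [h3, one_mul]
    _ = Real.exp (-((k : ℝ) / 4)) * ((Real.exp (1/4) * (5/7)) ^ k * C) := by rw [mul_pow]; ring
    _ ≤ Real.exp (-((k : ℝ) / 4)) * 1 := by gcongr
    _ = Real.exp (-((k : ℝ) / 4)) := mul_one _

end Pool.Agent.MG
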