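import Mathlib
import Pool.Agent.Lib.MP_bae66e_nt.Mg.G034

set_option autoImplicit false

namespace Pool.Agent.MG

open Pool.Agent.GM

/-- T4b. PROOF. `(log m)^k/k! ≤ ((1+θ)k)^k/k! ≤ (1+θ)^k e^k ≤ e^((1+θ)k)`... precisely
`((1+θ) k)^k / k! ≤ exp ((1+θ) k)` (`Real.pow_div_factorial_le_exp`) and
`m^(-2) ≤ exp (-2(1-θ)k)`; the product is `exp (-(1-3θ)k)`. -/
lemma wk_central_le (θ : ℝ) (h0 : 0 < θ) (h1 : θ < 1) (k m : ℕ) (hk : 1 ≤ k)
    (hm : m ∈ cenSet θ k) : wk k m ≤ Real.exp (-((1 - 3 * θ) * k)) := by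
  obtain ⟨h2, h3⟩ := (mem_cenSet hk h1).mp hm
  have hk' : (1 : ℝ) ≤ k := by exact_mod_cast hk
  have hθ : 0 < 1 - θ := by linarith
  have hlog : 0 < Real.log m := lt_of_lt_of_le (by positivity) h2
  have hm0 : m ≠ 0 := by
    rintro rfl
    simp at hlog
  have hm1 : (0 : ℝ) < m := by exact_mod_cast Nat.pos_of_ne_zero hm0
  have h4 := Real.pow_div_factorial_le_exp (Real.log m) hlog.le k
  have h5 : Real.log m ^ k / k.factorial ≤ Real.exp ((1 + θ) * k) :=
    h4.trans (Real.exp_le_exp.mpr h3)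
  have h6 : ((m : ℝ) ^ 2)⁻¹ ≤ Real.exp (-(2 * ((1 - θ) * k))) := by
    rw [Real.exp_neg]
    apply inv_anti₀ (Real.exp_pos _)
    have h7 : Real.exp ((1 - θ) * k) ≤ m := (Real.le_log_iff_exp_le hm1).mp h2
    have h8 : Real.exp (2 * ((1 - θ) * k)) = Real.exp ((1 - θ) * k) ^ 2 := by
      rw [← Real.exp_nat_mul]; norm_num
    rw [h8]
    gcongr
  have h9 : wk k m = (Real.log m ^ k / k.factorial) * ((m : ℝ) ^ 2)⁻¹ := by
    unfold wk; field_simp
  rw [h9]
  calc (Real.log m ^ k / k.factorial) * ((m : ℝ) ^ 2)⁻¹ ≤ Real.exp ((1 + θ) * k) * Real.exp (-(2 * ((1 - θ) * k))) := by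
        gcongr
    _ = Real.exp (-((1 - 3 * θ) * k)) := by
        rw [← Real.exp_add]; congr 1; ring

/-- T4c. Shifts. PROOF. `log (n+p) ≤ log n + p/n`, so
`1 ≤ (log (n+p)/log n)^(k+1) ≤ exp ((k+1) p/(n log n)) ≤ exp ((k+1) e^(-k/4))` and
`1 ≥ (n/(n+p))^2 ≥ 1 - 2p/n ≥ 1 - 2 e^(-k/4)`. -/
lemma shift (η : ℝ) (hη : 0 < η) : ∃ k₀ : ℕ, ∀ k : ℕ, k₀ ≤ k → ∀ n p : ℕ,
    Real.exp ((k : ℝ) / 2) ≤ n → (p : ℝ) ≤ Real.exp ((k : ℝ) / 4) →
      |wk k (n + p) * Real.log ((n + p : ℕ) : ℝ) - wk k n * Real.log n|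
        ≤ η * (wk k n * Real.log n) := by
  have hlim : Filter.Tendsto (fun k : ℕ => ((k : ℝ) + 1) * Real.exp (-((k : ℝ) / 4))) Filter.atTop (nhds 0) := by
    have h2 := Real.tendsto_pow_mul_exp_neg_atTop_nhds_zero 1
    have h2' := Real.tendsto_pow_mul_exp_neg_atTop_nhds_zero 0
    have h3 : Filter.Tendsto (fun k : ℕ => (1 / 4 : ℝ) * (k : ℝ)) Filter.atTop Filter.atTop :=
      tendsto_natCast_atTop_atTop.const_mul_atTop (by positivity)
    have h4 := ((h2.comp h3).const_mul (4 : ℝ)).add (h2'.comp h3)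
    rw [mul_zero, zero_add] at h4
    refine h4.congr (fun k => ?_)
    simp only [Function.comp_apply, pow_one, pow_zero, one_mul]
    have : (1 / 4 : ℝ) * k = (k : ℝ) / 4 := by ring
    rw [this]
    ring
  have hmin : (0 : ℝ) < min 1 (η / 2) := lt_min one_pos (by positivity)
  obtain ⟨k₁, hk₁⟩ := Filter.eventually_atTop.mp (hlim.eventually (ge_mem_nhds hmin))
  refine ⟨max k₁ 2, fun k hk n p hn hp => ?_⟩
  have hε := hk₁ k ((le_max_left _ _).trans hk)
  have hk2 : 2 ≤ k := (le_max_right _ _).trans hk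
  have hk2' : (2 : ℝ) ≤ k := by exact_mod_cast hk2
  set ε : ℝ := ((k : ℝ) + 1) * Real.exp (-((k : ℝ) / 4)) with hεd
  have hε0 : 0 ≤ ε := by rw [hεd]; positivity
  have hε1 : ε ≤ 1 := hε.trans (min_le_left _ _)
  have hε2 : ε ≤ η / 2 := hε.trans (min_le_right _ _)
  have hn0 : (0 : ℝ) < n := lt_of_lt_of_le (Real.exp_pos _) hn
  have hp0 : (0 : ℝ) ≤ p := Nat.cast_nonneg p
  have hlogn : 1 ≤ Real.log n := by
    have := (Real.le_log_iff_exp_le hn0).mpr hn
    linarith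
  have hx : (p : ℝ) / n ≤ Real.exp (-((k : ℝ) / 4)) := by
    rw [div_le_iff₀ hn0]
    calc (p : ℝ) ≤ Real.exp ((k : ℝ) / 4) := hp
      _ = Real.exp (-((k : ℝ) / 4)) * Real.exp ((k : ℝ) / 2) := by
          rw [← Real.exp_add]; congr 1; ring
      _ ≤ Real.exp (-((k : ℝ) / 4)) * n := by gcongr
  set x : ℝ := (p : ℝ) / n with hxd
  have hx0 : 0 ≤ x := by rw [hxd]; positivity
  have hnp : ((n + p : ℕ) : ℝ) = n * (1 + x) := by
    rw [hxd]; push_cast; field_simp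
  have hx1 : 0 < 1 + x := by linarith
  set A : ℝ := Real.log n with hA
  set L : ℝ := Real.log ((n + p : ℕ) : ℝ) with hL
  have hLA : L = A + Real.log (1 + x) := by
    rw [hL, hnp, Real.log_mul hn0.ne' hx1.ne']
  have hl1 : 0 ≤ Real.log (1 + x) := Real.log_nonneg (by linarith)
  have hl2 : Real.log (1 + x) ≤ x := by
    have := Real.log_le_sub_one_of_pos hx1
    linarith
  have hAL : A ≤ L := by linarith
  have hLA2 : L ≤ A * (1 + x) := by nlinarith
  -- powers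
  have hpow : L ^ (k + 1) ≤ A ^ (k + 1) * Real.exp ε := by
    calc L ^ (k + 1) ≤ (A * (1 + x)) ^ (k + 1) := by gcongr
      _ = A ^ (k + 1) * (1 + x) ^ (k + 1) := mul_pow _ _ _
      _ ≤ A ^ (k + 1) * Real.exp x ^ (k + 1) := by
          have : 1 + x ≤ Real.exp x := by linarith [Real.add_one_le_exp x]
          have hA0 : 0 ≤ A := by linarith
          gcongr
      _ = A ^ (k + 1) * Real.exp (((k + 1 : ℕ) : ℝ) * x) := by rw [Real.exp_nat_mul]
      _ ≤ A ^ (k + 1) * Real.exp ε := by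
          have hA0 : 0 ≤ A := by linarith
          have : ((k + 1 : ℕ) : ℝ) * x ≤ ε := by
            rw [hεd]; push_cast; gcongr
          gcongr
  have hpow2 : A ^ (k + 1) ≤ L ^ (k + 1) := by
    have hA0 : 0 ≤ A := by linarith
    gcongr
  have hexp : Real.exp ε ≤ 1 + η := by
    have := Real.abs_exp_sub_one_le (x := ε) (by rw [abs_of_nonneg hε0]; exact hε1)
    rw [abs_of_nonneg hε0] at this
    have h2 := le_abs_self (Real.exp ε - 1)
    linarith
  have hW : wk k n * A = A ^ (k + 1) / (k.factorial * (n : ℝ) ^ 2) := by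
    unfold wk
    rw [← hA]
    ring
  have hW2 : wk k (n + p) * L = L ^ (k + 1) / (k.factorial * (n : ℝ) ^ 2) * ((1 + x) ^ 2)⁻¹ := by
    unfold wk
    rw [← hL, hnp]
    field_simp
    ring
  have hD : (0 : ℝ) < k.factorial * (n : ℝ) ^ 2 := by positivity
  have hW0 : 0 ≤ wk k n * A := by
    rw [hW]
    have hA0 : 0 ≤ A := by linarith
    positivity
  have hinv1 : ((1 + x) ^ 2)⁻¹ ≤ 1 := by
    apply inv_le_one_of_one_le₀
    nlinarith
  have hinv2 : 1 - 2 * x ≤ ((1 + x) ^ 2)⁻¹ := by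
    rw [← one_div, le_div_iff₀ (by positivity)]
    nlinarith [pow_nonneg hx0 2, pow_nonneg hx0 3]
  have hL0 : 0 ≤ L := by linarith
  have hup : wk k (n + p) * L ≤ (1 + η) * (wk k n * A) := by
    rw [hW2, hW]
    calc L ^ (k + 1) / (k.factorial * (n : ℝ) ^ 2) * ((1 + x) ^ 2)⁻¹ ≤ L ^ (k + 1) / (k.factorial * (n : ℝ) ^ 2) * 1 := by
          gcongr
      _ ≤ (A ^ (k + 1) * Real.exp ε) / (k.factorial * (n : ℝ) ^ 2) := by
          rw [mul_one]; gcongr
      _ ≤ (A ^ (k + 1) * (1 + η)) / (k.factorial * (n : ℝ) ^ 2) := by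
          have hA0 : 0 ≤ A := by linarith
          gcongr
      _ = (1 + η) * (A ^ (k + 1) / (k.factorial * (n : ℝ) ^ 2)) := by ring
  have hlow : (1 - η) * (wk k n * A) ≤ wk k (n + p) * L := by
    have hxe : x ≤ ε := by
      refine hx.trans ?_
      rw [hεd]
      have : 0 < Real.exp (-((k : ℝ) / 4)) := Real.exp_pos _
      nlinarith
    have h1 : (1 - η) * (wk k n * A) ≤ (1 - 2 * x) * (wk k n * A) := by
      apply mul_le_mul_of_nonneg_right _ hW0
      linarith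
    refine h1.trans ?_
    have h2 : (1 - 2 * x) * (wk k n * A) ≤ ((1 + x) ^ 2)⁻¹ * (wk k n * A) :=
      mul_le_mul_of_nonneg_right hinv2 hW0
    refine h2.trans ?_
    rw [hW2, hW, mul_comm]
    gcongr
  rw [abs_le]
  constructor <;> linarith

end Pool.Agent.MG
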