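import Mathlib
import Pool.Agent.Lib.MP_bae66e_nt.MG.T2
import Pool.Agent.Lib.MP_bae66e_nt.MG.T4b
import Pool.Agent.Lib.MP_bae66e_nt.MG.T1e

set_option autoImplicit false

namespace Pool.Agent.MG

open Pool.Agent.GM

/-- the weighted number of central `m ≡ a` mod `M` with `m - p` prime -/
noncomputable def UU (θ : ℝ) (k M a p : ℕ) : ℝ :=
  ∑ m ∈ (cenSet θ k).filter (fun m => m ≡ a [MOD M]),
    if (m - p).Prime then wk k m * Real.log m else 0

private lemma A1a_wk_nonneg (k n : ℕ) : 0 ≤ wk k n := by
  unfold wk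
  have := Real.log_natCast_nonneg n
  positivity

private lemma A1a_ev {c A ε : ℝ} (hc : 0 < c) (hε : 0 < ε) :
    ∃ k₀ : ℕ, ∀ k : ℕ, k₀ ≤ k → A * Real.exp (-(c * k)) ≤ ε := by
  have h1 : Filter.Tendsto (fun k : ℕ => A * Real.exp (-(c * k))) Filter.atTop (nhds 0) := by
    have h2 : Filter.Tendsto (fun k : ℕ => c * (k : ℝ)) Filter.atTop Filter.atTop :=
      Filter.Tendsto.const_mul_atTop hc tendsto_natCast_atTop_atTop
    have h3 := (Real.tendsto_exp_neg_atTop_nhds_zero.comp h2).const_mul A
    simpa [Function.comp_def] using h3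
  obtain ⟨k₀, hk⟩ := Filter.eventually_atTop.mp (h1.eventually (gt_mem_nhds hε))
  exact ⟨k₀, fun k h => (hk k h).le⟩

/-- basic sizes -/
private lemma A1a_size (θ e₀ : ℝ) (h0 : 0 < θ) (h1 : θ < 1 / 4) : ∃ k₀ : ℕ, ∀ k : ℕ, k₀ ≤ k →
    1 ≤ k ∧ Real.exp ((k : ℝ) / 2) + Real.exp ((k : ℝ) / 8) ≤ Real.exp ((1 - θ) * k) ∧
      e₀ * k < Real.exp ((k : ℝ) / 2) ∧ 2 / θ ≤ k := by
  obtain ⟨k₁, hk1⟩ := A1a_ev (c := 1 / 4) (A := 2) (ε := 1) (by norm_num) one_pos
  have h2 : Filter.Tendsto (fun k : ℕ => (k : ℝ) ^ 1 * Real.exp (-((1 / 2 : ℝ) * (k : ℝ))))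
      Filter.atTop (nhds 0) := by
    have h3 := (Real.tendsto_pow_mul_exp_neg_atTop_nhds_zero 1)
    have h4 : Filter.Tendsto (fun k : ℕ => (1 / 2 : ℝ) * (k : ℝ)) Filter.atTop Filter.atTop :=
      Filter.Tendsto.const_mul_atTop (by norm_num) tendsto_natCast_atTop_atTop
    have h5 := (h3.comp h4).const_mul 2
    rw [mul_zero] at h5
    refine h5.congr fun k => ?_
    simp only [Function.comp_def, pow_one]
    ring
  obtain ⟨k₂, hk2⟩ := Filter.eventually_atTop.mp
    (h2.eventually (gt_mem_nhds (show (0 : ℝ) < 1 / (|e₀| + 1) by positivity)))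
  refine ⟨k₁ + k₂ + ⌈2 / θ⌉₊ + 1, fun k hk => ?_⟩
  have hkpos : (1 : ℝ) ≤ k := by exact_mod_cast (by omega : 1 ≤ k)
  have ha := hk1 k (by omega)
  have hb := hk2 k (by omega)
  refine ⟨by omega, ?_, ?_, ?_⟩
  · have h3 : Real.exp ((k : ℝ) / 8) ≤ Real.exp ((k : ℝ) / 2) :=
      Real.exp_le_exp.mpr (by linarith)
    have h4 : 2 * Real.exp ((k : ℝ) / 2) ≤ Real.exp (3 / 4 * (k : ℝ)) := by
      have h5 : Real.exp ((k : ℝ) / 2) = Real.exp (3 / 4 * (k : ℝ)) * Real.exp (-(1 / 4 * (k : ℝ))) := by
        rw [← Real.exp_add]; congr 1; ring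
      rw [h5]
      have h6 := mul_le_mul_of_nonneg_left ha (Real.exp_pos (3 / 4 * (k : ℝ))).le
      linarith
    have h5 : Real.exp (3 / 4 * (k : ℝ)) ≤ Real.exp ((1 - θ) * k) :=
      Real.exp_le_exp.mpr (by nlinarith)
    linarith
  · have h3 : (k : ℝ) * Real.exp (-(1 / 2 * (k : ℝ))) < 1 / (|e₀| + 1) := by simpa using hb
    have h4 : (k : ℝ) < 1 / (|e₀| + 1) * Real.exp ((k : ℝ) / 2) := by
      have h5 := mul_lt_mul_of_pos_right h3 (Real.exp_pos ((k : ℝ) / 2))
      rwa [mul_assoc, ← Real.exp_add, show -(1 / 2 * (k : ℝ)) + (k : ℝ) / 2 = 0 by ring,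
        Real.exp_zero, mul_one] at h5
    have h5 : (|e₀| + 1) * (k : ℝ) < Real.exp ((k : ℝ) / 2) := by
      have h6 := mul_lt_mul_of_pos_left h4 (show 0 < |e₀| + 1 by positivity)
      rwa [← mul_assoc, mul_one_div_cancel (by positivity), one_mul] at h6
    have h6 : e₀ * k ≤ (|e₀| + 1) * k :=
      mul_le_mul_of_nonneg_right (by have := le_abs_self e₀; linarith) (by linarith)
    linarith
  · have h3 : (⌈2 / θ⌉₊ : ℝ) ≤ k := by exact_mod_cast (by omega : ⌈2 / θ⌉₊ ≤ k)
    exact le_trans (Nat.le_ceil _) h3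

/-- A1. One prime `p`. Here `M = Mz z (insert p₁ D₀)`, `z ≤ e k`, so `log M ≤ 2 e k`
(`log_Mz_le`) and `1/φ(M) ≥ exp (-2 e k)`.
PROOF. Let `n = m - p` (`m ≥ exp ((1-θ)k) > p`); `m ≡ a` iff `n ≡ a - p` mod `M` (`p < a`).
(i) Suppose `(a-p, M) = 1`. Replace `wk k m log m` by `wk k n log n` with relative error `η/8` (`shift`;
`n ≥ exp (k/2)`). The set of `n = m - p`, `m` central, contains the central set with `θ/2` in
place of `θ` and is contained in the central set with `2θ` (large `k`). Upper bound: the sum of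
`Λ(n) wk k n` over ALL `n ≡ a - p` is `≤ (1+δ)/φ(M)` (`GoodM`, `δ ≤ η/8`; `Λ(n) = log n` for primes). Lower
bound: it is `≥ (1-δ)/φ(M)`, minus the nonprimes `≤ exp (-k/4)` (`prime_powers`), minus
`tail_bound (θ/2)`, `≤ exp (-c k)`; both are `≤ (η/8)/φ(M)` if `2 e ≤ 1/8` and `2 e ≤ c/2`, `k` large.
(ii) If `(a-p, M) > 1` and `n = m - p` is a prime with `n ≡ a - p` mod `M`, then `n ∣ M`, so `n ≤ z`
(all prime factors of `M` are `≤ z`), but `n ≥ exp (k/2) > z`. So the sum is empty. -/
lemma one_prime (θ : ℝ) (h0 : 0 < θ) (h1 : θ < 1 / 4) : ∃ e₀ : ℝ, 0 < e₀ ∧ ∀ η : ℝ, 0 < η →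
    ∃ (δ : ℝ) (k₀ : ℕ), 0 < δ ∧ ∀ k : ℕ, k₀ ≤ k → ∀ z : ℕ, (z : ℝ) ≤ e₀ * k → ∀ D : Finset ℕ,
      GoodM δ k (Mz z D) → ∀ a p : ℕ, p < a → (p : ℝ) ≤ Real.exp ((k : ℝ) / 8) →
        ((a - p).Coprime (Mz z D) → 1 - η ≤ ((Mz z D).totient : ℝ) * UU θ k (Mz z D) a p ∧
          ((Mz z D).totient : ℝ) * UU θ k (Mz z D) a p ≤ 1 + η) ∧
        (¬ (a - p).Coprime (Mz z D) → UU θ k (Mz z D) a p = 0) := by
  obtain ⟨c, hc, k₁, hk1⟩ := tail_bound (θ / 2) (by positivity) (by linarith)
  obtain ⟨k₂, hk2⟩ := prime_powers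
  set e₀ : ℝ := min (1 / 16) (c / 4) with he0
  have he0pos : 0 < e₀ := lt_min (by norm_num) (by positivity)
  have he1 : e₀ ≤ 1 / 16 := min_le_left _ _
  have he2 : e₀ ≤ c / 4 := min_le_right _ _
  obtain ⟨k₃, hk3⟩ := A1a_size θ e₀ h0 h1
  refine ⟨e₀, he0pos, fun η hη => ?_⟩
  set η' : ℝ := min η 1 / 8 with hη'
  have hη'0 : 0 < η' := by rw [hη']; positivity
  have hη'1 : η' ≤ 1 / 8 := by
    rw [hη']; have := min_le_right η 1; linarith
  have hη'2 : 8 * η' ≤ η := by
    rw [hη']; have := min_le_left η 1; linarith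
  obtain ⟨k₄, hk4⟩ := shift η' hη'0
  obtain ⟨k₅, hk5⟩ := A1a_ev (c := 1 / 8) (A := 1) (ε := η') (by norm_num) hη'0
  obtain ⟨k₆, hk6⟩ := A1a_ev (c := c / 2) (A := 1) (ε := η') (by positivity) hη'0
  refine ⟨η', k₁ + k₂ + k₃ + k₄ + k₅ + k₆, hη'0, fun k hk z hz D hgood a p hpa hp => ?_⟩
  have ht1 := hk1 k (by omega)
  obtain ⟨ht2s, ht2⟩ := hk2 k (by omega)
  obtain ⟨hkone, hsz1, hsz2, hsz3⟩ := hk3 k (by omega)
  have hshift := hk4 k (by omega)
  have ht5 := hk5 k (by omega)
  have ht6 := hk6 k (by omega)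
  have hkpos : (1 : ℝ) ≤ k := by exact_mod_cast hkone
  set M := Mz z D with hM
  have hMpos : 0 < M := Mz_pos z D
  have hMR : (0 : ℝ) < M := by exact_mod_cast hMpos
  have hφR : (0 : ℝ) < (M.totient : ℝ) := by exact_mod_cast Nat.totient_pos.mpr hMpos
  have hφM : (M.totient : ℝ) ≤ Real.exp (2 * e₀ * k) := by
    have h3 : (M.totient : ℝ) ≤ M := by exact_mod_cast Nat.totient_le M
    have h4 := log_Mz_le z D
    rw [← hM] at h4
    have h5 : (M : ℝ) ≤ Real.exp (2 * e₀ * k) := by
      rw [← Real.log_le_iff_le_exp hMR]; linarith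
    linarith
  have hp4 : (p : ℝ) ≤ Real.exp ((k : ℝ) / 4) :=
    le_trans hp (Real.exp_le_exp.mpr (by linarith))
  -- facts about members of the sum
  set S := (cenSet θ k).filter (fun m => m ≡ a [MOD M]) with hS
  have hmem : ∀ m ∈ S, p < m ∧ Real.exp ((k : ℝ) / 2) ≤ ((m - p : ℕ) : ℝ) ∧
      (m - p) ≡ (a - p) [MOD M] := by
    intro m hm
    rw [hS, Finset.mem_filter, mem_cenSet hkone (by linarith)] at hm
    obtain ⟨⟨h3, h4⟩, h5⟩ := hm
    have hmpos : 0 < m := by
      rcases Nat.eq_zero_or_pos m with h | h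
      · rw [h] at h3; simp at h3; nlinarith
      · exact h
    have hmR : (0 : ℝ) < m := by exact_mod_cast hmpos
    have h6 : Real.exp ((1 - θ) * k) ≤ m := (Real.le_log_iff_exp_le hmR).mp h3
    have h7 : (p : ℝ) < m := by
      have := Real.exp_pos ((k : ℝ) / 2); linarith
    have h7' : p < m := by exact_mod_cast h7
    refine ⟨h7', ?_, ?_⟩
    · rw [Nat.cast_sub h7'.le]; linarith
    · have h8 : (m - p) + p ≡ (a - p) + p [MOD M] := by
        rw [Nat.sub_add_cancel h7'.le, Nat.sub_add_cancel hpa.le]; exact h5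
      exact Nat.ModEq.add_right_cancel' p h8
  have hUU : UU θ k M a p = ∑ m ∈ S, if (m - p).Prime then wk k m * Real.log m else 0 := rfl
  constructor
  · intro hcop
    have hgm := hgood (a - p) hcop
    set f : ℕ → ℝ := fun n => if n ≡ (a - p) [MOD M] then vM n * wk k n else 0 with hf
    have hf0 : ∀ n, 0 ≤ f n := by
      intro n
      rw [hf]
      dsimp only
      split_ifs
      · exact mul_nonneg ArithmeticFunction.vonMangoldt_nonneg (A1a_wk_nonneg k n)
      · exact le_refl _
    have hfle : ∀ n, f n ≤ Real.log n * wk k n := by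
      intro n
      rw [hf]
      dsimp only
      split_ifs
      · exact mul_le_mul_of_nonneg_right ArithmeticFunction.vonMangoldt_le_log
          (A1a_wk_nonneg k n)
      · exact mul_nonneg (Real.log_natCast_nonneg n) (A1a_wk_nonneg k n)
    have hsw := summable_log_wk k
    have hfs : Summable f := Summable.of_nonneg_of_le hf0 hfle hsw
    have hF1 : (M.totient : ℝ) * ∑' n, f n ≤ 1 + η' := by
      have := (abs_le.mp hgm).2; linarith
    have hF2 : 1 - η' ≤ (M.totient : ℝ) * ∑' n, f n := by
      have := (abs_le.mp hgm).1; linarith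
    have hfprime : ∀ n : ℕ, n.Prime → n ≡ (a - p) [MOD M] → f n = Real.log n * wk k n := by
      intro n hn hmod
      rw [hf]
      dsimp only
      rw [if_pos hmod]
      congr 1
      exact ArithmeticFunction.vonMangoldt_apply_prime hn
    constructor
    · -- lower bound
      set T := (cenSet (θ / 2) k).filter (fun n => n.Prime ∧ n ≡ (a - p) [MOD M]) with hT
      -- the tail functions
      set t₁ : ℕ → ℝ := fun n => if n.Prime then (0 : ℝ) else vM n * wk k n with ht1d
      set t₂ : ℕ → ℝ := fun n => if n ∈ cenSet (θ / 2) k then 0 else Real.log n * wk k n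
        with ht2d
      set t₃ : ℕ → ℝ := fun n => if n ∈ T then Real.log n * wk k n else 0 with ht3d
      have ht2n : ∀ n, 0 ≤ t₂ n := by
        intro n
        rw [ht2d]
        dsimp only
        split_ifs
        · exact le_refl _
        · exact mul_nonneg (Real.log_natCast_nonneg n) (A1a_wk_nonneg k n)
      have ht2sum : Summable t₂ := by
        refine Summable.of_nonneg_of_le ht2n (fun n => ?_) hsw
        rw [ht2d]
        dsimp only
        split_ifs
        · exact mul_nonneg (Real.log_natCast_nonneg n) (A1a_wk_nonneg k n)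
        · exact le_refl _
      have ht3has : HasSum t₃ (∑ n ∈ T, Real.log n * wk k n) := by
        have h3 : HasSum t₃ (∑ n ∈ T, t₃ n) := hasSum_sum_of_ne_finset_zero (fun n hn => by
          rw [ht3d]; dsimp only; rw [if_neg hn])
        have h4 : ∑ n ∈ T, t₃ n = ∑ n ∈ T, Real.log n * wk k n :=
          Finset.sum_congr rfl fun n hn => by
            rw [ht3d]; dsimp only; rw [if_pos hn]
        rwa [h4] at h3
      have hpt : ∀ n, f n ≤ t₁ n + t₂ n + t₃ n := by
        intro n
        have h3 := hf0 n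
        have h4 := hfle n
        have hn1 : 0 ≤ t₁ n := by
          rw [ht1d]; dsimp only; split_ifs
          · exact le_refl _
          · exact mul_nonneg ArithmeticFunction.vonMangoldt_nonneg (A1a_wk_nonneg k n)
        have hn3 : 0 ≤ t₃ n := by
          rw [ht3d]; dsimp only; split_ifs
          · exact mul_nonneg (Real.log_natCast_nonneg n) (A1a_wk_nonneg k n)
          · exact le_refl _
        by_cases hmod : n ≡ (a - p) [MOD M]
        · by_cases hpr : n.Prime
          · by_cases hcen : n ∈ cenSet (θ / 2) k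
            · have hnT : n ∈ T := by rw [hT, Finset.mem_filter]; exact ⟨hcen, hpr, hmod⟩
              have h5 : t₃ n = Real.log n * wk k n := by rw [ht3d]; dsimp only; rw [if_pos hnT]
              have := ht2n n
              linarith
            · have h5 : t₂ n = Real.log n * wk k n := by rw [ht2d]; dsimp only; rw [if_neg hcen]
              linarith
          · have h5 : t₁ n = vM n * wk k n := by rw [ht1d]; dsimp only; rw [if_neg hpr]
            have h6 : f n = vM n * wk k n := by rw [hf]; dsimp only; rw [if_pos hmod]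
            have := ht2n n
            linarith
        · have h6 : f n = 0 := by rw [hf]; dsimp only; rw [if_neg hmod]
          have := ht2n n
          linarith
      have hsumle : ∑' n, f n ≤ Real.exp (-((k : ℝ) / 4)) + Real.exp (-(c * k)) +
          ∑ n ∈ T, Real.log n * wk k n := by
        have h3 : Summable fun n => t₁ n + t₂ n + t₃ n := (ht2s.add ht2sum).add ht3has.summable
        have h4 := hfs.tsum_le_tsum hpt h3
        rw [(ht2s.add ht2sum).tsum_add ht3has.summable, ht2s.tsum_add ht2sum,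
          ht3has.tsum_eq] at h4
        linarith
      -- comparison of the finite sums
      have hcmp : (1 - η') * ∑ n ∈ T, Real.log n * wk k n ≤ UU θ k M a p := by
        rw [hUU, Finset.mul_sum]
        have hinj : Set.InjOn (fun n : ℕ => n + p) (T : Set ℕ) := fun x _ y _ h => by
          simpa using h
        have himg : T.image (fun n => n + p) ⊆ S := by
          intro m hm
          rw [Finset.mem_image] at hm
          obtain ⟨n, hn, rfl⟩ := hm
          rw [hT, Finset.mem_filter, mem_cenSet hkone (by linarith)] at hn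
          obtain ⟨⟨h3, h4⟩, h5, h6⟩ := hn
          have hnpos : 0 < n := h5.pos
          have hnR : (0 : ℝ) < n := by exact_mod_cast hnpos
          rw [hS, Finset.mem_filter, mem_cenSet hkone (by linarith)]
          have h7 : Real.exp ((1 - θ / 2) * k) ≤ n := (Real.le_log_iff_exp_le hnR).mp h3
          have h8 : (p : ℝ) ≤ n := by
            refine le_trans hp (le_trans (Real.exp_le_exp.mpr ?_) h7)
            nlinarith
          have hnp : (0 : ℝ) < (n : ℝ) + p := by positivity
          have h9 : Real.log ((n : ℝ) + p) ≤ Real.log n + 1 := by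
            have h10 : Real.log ((n : ℝ) + p) ≤ Real.log (n * Real.exp 1) := by
              apply Real.log_le_log hnp
              have h11 : (2 : ℝ) ≤ Real.exp 1 := by
                have := Real.add_one_le_exp (1 : ℝ); linarith
              nlinarith
            rwa [Real.log_mul hnR.ne' (Real.exp_pos _).ne', Real.log_exp] at h10
          have h10 : Real.log n ≤ Real.log ((n : ℝ) + p) := by
            apply Real.log_le_log hnR
            have : (0 : ℝ) ≤ p := by positivity
            linarith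
          have h11 : 1 ≤ θ / 2 * k := by
            have h12 := mul_le_mul_of_nonneg_left hsz3 h0.le
            rw [mul_div_cancel₀ _ h0.ne'] at h12
            linarith
          push_cast
          refine ⟨⟨by nlinarith, by nlinarith⟩, ?_⟩
          have h12 : n + p ≡ (a - p) + p [MOD M] := Nat.ModEq.add_right p h6
          rwa [Nat.sub_add_cancel hpa.le] at h12
        have hstep : ∑ n ∈ T, (1 - η') * (Real.log n * wk k n) ≤
            ∑ n ∈ T, (if ((n + p) - p).Prime then wk k (n + p) * Real.log ((n + p : ℕ) : ℝ)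
              else 0) := by
          refine Finset.sum_le_sum fun n hn => ?_
          rw [hT, Finset.mem_filter, mem_cenSet hkone (by linarith)] at hn
          obtain ⟨⟨h3, h4⟩, h5, h6⟩ := hn
          have hnR : (0 : ℝ) < n := by exact_mod_cast h5.pos
          rw [Nat.add_sub_cancel, if_pos h5]
          have h7 : Real.exp ((1 - θ / 2) * k) ≤ n := (Real.le_log_iff_exp_le hnR).mp h3
          have h8 : Real.exp ((k : ℝ) / 2) ≤ n :=
            le_trans (Real.exp_le_exp.mpr (by nlinarith)) h7
          have h9 := (abs_le.mp (hshift n p h8 hp4)).1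
          linarith
        refine le_trans hstep ?_
        rw [← Finset.sum_image (f := fun m => if (m - p).Prime then wk k m * Real.log (m : ℝ)
          else 0) (g := fun n => n + p) hinj]
        refine Finset.sum_le_sum_of_subset_of_nonneg himg fun m _ _ => ?_
        split_ifs
        · exact mul_nonneg (A1a_wk_nonneg k m) (Real.log_natCast_nonneg m)
        · exact le_refl _
      have hφ1 : (M.totient : ℝ) * Real.exp (-((k : ℝ) / 4)) ≤ η' := by
        refine le_trans (mul_le_mul_of_nonneg_right hφM (Real.exp_pos _).le) ?_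
        rw [← Real.exp_add]
        refine le_trans (Real.exp_le_exp.mpr ?_) (by simpa using ht5)
        nlinarith
      have hφ2 : (M.totient : ℝ) * Real.exp (-(c * k)) ≤ η' := by
        refine le_trans (mul_le_mul_of_nonneg_right hφM (Real.exp_pos _).le) ?_
        rw [← Real.exp_add]
        refine le_trans (Real.exp_le_exp.mpr ?_) (by simpa using ht6)
        nlinarith
      have hX : 1 - 3 * η' ≤ (M.totient : ℝ) * ∑ n ∈ T, Real.log n * wk k n := by
        have h3 := mul_le_mul_of_nonneg_left hsumle hφR.le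
        rw [mul_add, mul_add] at h3
        linarith
      have h3 := mul_le_mul_of_nonneg_left hcmp hφR.le
      have h4 : (1 - η') * (1 - 3 * η') ≤ (M.totient : ℝ) * UU θ k M a p := by
        refine le_trans ?_ h3
        have h5 := mul_le_mul_of_nonneg_left hX (show 0 ≤ 1 - η' by linarith)
        calc (1 - η') * (1 - 3 * η') ≤ (1 - η') *
              ((M.totient : ℝ) * ∑ n ∈ T, Real.log n * wk k n) := h5
          _ = _ := by ring
      nlinarith
    · -- upper bound
      have hcmp : UU θ k M a p ≤ (1 + η') * ∑' n, f n := by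
        rw [hUU]
        have hstep : ∑ m ∈ S, (if (m - p).Prime then wk k m * Real.log m else 0)
            ≤ ∑ m ∈ S, (1 + η') * f (m - p) := by
          refine Finset.sum_le_sum fun m hm => ?_
          obtain ⟨h3, h4, h5⟩ := hmem m hm
          split_ifs with hpr
          · rw [hfprime _ hpr h5]
            have h6 := (abs_le.mp (hshift (m - p) p h4 hp4)).2
            rw [Nat.sub_add_cancel h3.le] at h6
            linarith
          · exact mul_nonneg (by linarith) (hf0 _)
        refine le_trans hstep ?_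
        rw [← Finset.mul_sum]
        refine mul_le_mul_of_nonneg_left ?_ (by linarith)
        have hinj : Set.InjOn (fun m : ℕ => m - p) (S : Set ℕ) := fun x hx y hy h => by
          have hx' := (hmem x hx).1
          have hy' := (hmem y hy).1
          dsimp only at h
          omega
        rw [← Finset.sum_image (f := f) (g := fun m => m - p) hinj]
        exact hfs.sum_le_tsum _ fun n _ => hf0 n
      have h3 := mul_le_mul_of_nonneg_left hcmp hφR.le
      have h4 : (M.totient : ℝ) * UU θ k M a p ≤ (1 + η') * (1 + η') := by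
        refine le_trans h3 ?_
        have h5 := mul_le_mul_of_nonneg_left hF1 (show 0 ≤ 1 + η' by linarith)
        calc (M.totient : ℝ) * ((1 + η') * ∑' n, f n)
            = (1 + η') * ((M.totient : ℝ) * ∑' n, f n) := by ring
          _ ≤ _ := h5
      nlinarith
  · intro hncop
    rw [hUU]
    refine Finset.sum_eq_zero fun m hm => ?_
    rw [if_neg]
    intro hpr
    obtain ⟨h3, h4, h5⟩ := hmem m hm
    have h6 : ¬ (m - p).Coprime M := by
      intro h7
      apply hncop
      unfold Nat.Coprime at h7 ⊢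
      rw [← h7]
      exact h5.symm.gcd_eq
    have h7 : (m - p) ∣ M := by
      by_contra h8
      exact h6 ((Nat.Prime.coprime_iff_not_dvd hpr).mpr h8)
    rw [hM, prime_dvd_Mz z D _ hpr] at h7
    have h8 : ((m - p : ℕ) : ℝ) ≤ z := by exact_mod_cast h7.1
    linarith

end Pool.Agent.MG
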