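import Mathlib
import Pool.Agent.Lib.MP_bae66e_nt.Mg.G034

set_option autoImplicit false

namespace Pool.Agent.MG

open Pool.Agent.GM

/-- P1a. PROOF. `log (scale t) = log lam + B log t + β log log t` has derivative
`(B + β/log t)/t > 0` for large `t`; so `scale` is increasing on `[t₀, ∞)`. -/
lemma scale_mono (lam B β : ℝ) (hlam : 0 < lam) (hB : 1 < B) : ∃ t₀ : ℝ, 1 < t₀ ∧
    ∀ s t : ℝ, t₀ ≤ s → s ≤ t → scale lam B β s ≤ scale lam B β t := by
  refine ⟨Real.exp (|β| + 1), ?_, ?_⟩
  · rw [Real.one_lt_exp_iff]
    have := abs_nonneg β
    linarith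
  · intro s t hs hst
    have hs0 : 0 < s := (Real.exp_pos _).trans_le hs
    have ht0 : 0 < t := hs0.trans_le hst
    have hls : |β| + 1 ≤ Real.log s := by
      rw [Real.le_log_iff_exp_le hs0]
      exact hs
    have hlst : Real.log s ≤ Real.log t := Real.log_le_log hs0 hst
    have hb := abs_nonneg β
    have hls0 : 0 < Real.log s := by linarith
    have hlt0 : 0 < Real.log t := by linarith
    have h1 : Real.log (Real.log t) - Real.log (Real.log s)
        ≤ (Real.log t - Real.log s) / Real.log s := by
      rw [← Real.log_div hlt0.ne' hls0.ne']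
      have := Real.log_le_sub_one_of_pos (div_pos hlt0 hls0)
      refine this.trans (le_of_eq ?_)
      field_simp
    have h2 : 0 ≤ Real.log (Real.log t) - Real.log (Real.log s) := by
      have := Real.log_le_log hls0 hlst
      linarith
    have h3 : |β| * (Real.log (Real.log t) - Real.log (Real.log s))
        ≤ Real.log t - Real.log s := by
      calc |β| * (Real.log (Real.log t) - Real.log (Real.log s))
          ≤ |β| * ((Real.log t - Real.log s) / Real.log s) := mul_le_mul_of_nonneg_left h1 hb
        _ = (Real.log t - Real.log s) * (|β| / Real.log s) := by ring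
        _ ≤ (Real.log t - Real.log s) * 1 := by
            apply mul_le_mul_of_nonneg_left _ (by linarith)
            rw [div_le_one hls0]
            linarith
        _ = _ := mul_one _
    have h4 : -(|β| * (Real.log (Real.log t) - Real.log (Real.log s)))
        ≤ β * (Real.log (Real.log t) - Real.log (Real.log s)) := by
      have := mul_le_mul_of_nonneg_right (neg_abs_le β) h2
      linarith
    have h5 : Real.log s * B + Real.log (Real.log s) * β
        ≤ Real.log t * B + Real.log (Real.log t) * β := by
      have h6 : 0 ≤ (Real.log t - Real.log s) * (B - 1) :=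
        mul_nonneg (by linarith) (by linarith)
      nlinarith
    have hsc : ∀ x : ℝ, 0 < x → 0 < Real.log x →
        scale lam B β x = lam * Real.exp (Real.log x * B + Real.log (Real.log x) * β) := by
      intro x hx hlx
      unfold scale
      rw [Real.rpow_def_of_pos hx, Real.rpow_def_of_pos hlx, Real.exp_add]
      ring
    rw [hsc s hs0 hls0, hsc t ht0 hlt0]
    exact mul_le_mul_of_nonneg_left (Real.exp_le_exp.mpr h5) hlam.le

end Pool.Agent.MG
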