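import Mathlib
import Pool.Agent.Lib.MP_bae66e_nt.Mg.G034

set_option autoImplicit false

namespace Pool.Agent.MG

open Pool.Agent.GM

lemma P1b_upper (lam B β v c : ℝ) (hlam : 0 < lam) (hv : B < v) (hc : 0 < c) :
    ∀ᶠ T in Filter.atTop, scale lam B β T ≤ c * T ^ v := by
  have h1 := (isLittleO_log_rpow_rpow_atTop β (sub_pos.mpr hv)).bound (div_pos hc hlam)
  filter_upwards [h1, Filter.eventually_gt_atTop (1 : ℝ)] with T hT hT1
  have hT0 : 0 < T := by linarith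
  have hl : 0 < Real.log T := Real.log_pos hT1
  rw [Real.norm_of_nonneg (Real.rpow_nonneg hl.le _),
    Real.norm_of_nonneg (Real.rpow_nonneg hT0.le _)] at hT
  unfold scale
  have h2 : 0 ≤ lam * T ^ B := mul_nonneg hlam.le (Real.rpow_nonneg hT0.le _)
  calc lam * T ^ B * Real.log T ^ β ≤ lam * T ^ B * (c / lam * T ^ (v - B)) :=
        mul_le_mul_of_nonneg_left hT h2
    _ = c * (T ^ B * T ^ (v - B)) := by field_simp
    _ = c * T ^ v := by rw [← Real.rpow_add hT0]; congr 2; ring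

lemma P1b_lower (lam B β : ℝ) (hlam : 0 < lam) (hB : 1 < B) (Y₀ : ℝ) :
    ∀ᶠ T in Filter.atTop, Y₀ ≤ scale lam B β T := by
  have hB2 : 0 < B / 2 := by linarith
  have h1 := (isLittleO_log_rpow_rpow_atTop (-β) hB2).bound one_pos
  have h2 := (tendsto_rpow_atTop hB2).eventually_ge_atTop (Y₀ / lam)
  filter_upwards [h1, h2, Filter.eventually_gt_atTop (1 : ℝ)] with T hT hT2 hT1
  have hT0 : 0 < T := by linarith
  have hl : 0 < Real.log T := Real.log_pos hT1
  rw [Real.norm_of_nonneg (Real.rpow_nonneg hl.le _),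
    Real.norm_of_nonneg (Real.rpow_nonneg hT0.le _), one_mul, Real.rpow_neg hl.le] at hT
  have hlb : 0 < Real.log T ^ β := Real.rpow_pos_of_pos hl _
  have hTB : 0 < T ^ (B / 2) := Real.rpow_pos_of_pos hT0 _
  have h3 : 1 ≤ T ^ (B / 2) * Real.log T ^ β := by
    have := mul_le_mul_of_nonneg_right hT hlb.le
    rwa [inv_mul_cancel₀ hlb.ne'] at this
  unfold scale
  have h4 : T ^ B = T ^ (B / 2) * T ^ (B / 2) := by
    rw [← Real.rpow_add hT0]; congr 1; ring
  rw [h4]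
  have h5 : Y₀ ≤ lam * T ^ (B / 2) := by
    rw [div_le_iff₀ hlam] at hT2
    linarith
  calc Y₀ ≤ lam * T ^ (B / 2) * 1 := by linarith
    _ ≤ lam * T ^ (B / 2) * (T ^ (B / 2) * Real.log T ^ β) :=
        mul_le_mul_of_nonneg_left h3 (by positivity)
    _ = _ := by ring

/-- P1b. PROOF. Exponents: `scale = t^(B + o(1))`, `z^v₁ ≥ (e k/2)^v₁` and `v₁ > B`. -/
lemma scale_small (lam B β : ℝ) (hlam : 0 < lam) (hB : 1 < B) (v₁ e η θ : ℝ) (hv : B < v₁)
    (he : 0 < e) (hη : 0 < η) (hθ : 0 < θ) (hθ1 : θ < 1) (Y₀ : ℝ) : ∃ k₀ : ℕ, ∀ k : ℕ, k₀ ≤ k →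
      ∀ z : ℕ, e * k - 1 ≤ z → scale lam B β ((1 + θ) * k) ≤ η * (z : ℝ) ^ v₁ ∧
        scale lam B β ((1 + θ) * k) ≤ Real.exp ((k : ℝ) / 8) ∧
        Y₀ ≤ scale lam B β ((1 - θ) * k) := by
  have hθ2 : 0 < 1 + θ := by linarith
  have hθ3 : 0 < 1 - θ := by linarith
  have hv0 : 0 < v₁ := by linarith
  set d : ℝ := e / (2 * (1 + θ)) with hd
  have hd0 : 0 < d := by positivity
  have ht1 : Filter.Tendsto (fun k : ℕ => (1 + θ) * (k : ℝ)) Filter.atTop Filter.atTop :=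
    Filter.Tendsto.const_mul_atTop hθ2 tendsto_natCast_atTop_atTop
  have ht2 : Filter.Tendsto (fun k : ℕ => (1 - θ) * (k : ℝ)) Filter.atTop Filter.atTop :=
    Filter.Tendsto.const_mul_atTop hθ3 tendsto_natCast_atTop_atTop
  have ht3 : Filter.Tendsto (fun k : ℕ => e * (k : ℝ)) Filter.atTop Filter.atTop :=
    Filter.Tendsto.const_mul_atTop he tendsto_natCast_atTop_atTop
  have e1 := ht1.eventually (P1b_upper lam B β v₁ (η * d ^ v₁) hlam hv
    (mul_pos hη (Real.rpow_pos_of_pos hd0 _)))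
  have e2 := ht1.eventually (P1b_upper lam B β v₁ 1 hlam hv one_pos)
  have hb : 0 < 1 / (8 * (1 + θ)) := by positivity
  have e3 := ht1.eventually ((isLittleO_rpow_exp_pos_mul_atTop v₁ hb).bound one_pos)
  have e4 := ht2.eventually (P1b_lower lam B β hlam hB Y₀)
  have e5 := ht3.eventually_ge_atTop 2
  have hall := ((((e1.and e2).and e3).and e4).and e5).and (Filter.eventually_ge_atTop 1)
  obtain ⟨k₀, hk₀⟩ := Filter.eventually_atTop.mp hall
  refine ⟨k₀, fun k hk z hz => ?_⟩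
  obtain ⟨⟨⟨⟨⟨f1, f2⟩, f3⟩, f4⟩, f5⟩, f6⟩ := hk₀ k hk
  have hk1 : (1 : ℝ) ≤ k := by exact_mod_cast f6
  have hk0 : (0 : ℝ) < k := by linarith
  have hT0 : 0 < (1 + θ) * (k : ℝ) := mul_pos hθ2 hk0
  refine ⟨?_, ?_, f4⟩
  · refine f1.trans ?_
    rw [mul_assoc, ← Real.mul_rpow hd0.le hT0.le]
    apply mul_le_mul_of_nonneg_left _ hη.le
    apply Real.rpow_le_rpow (by positivity) _ hv0.le
    have : d * ((1 + θ) * (k : ℝ)) = e * k / 2 := by
      rw [hd]; field_simp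
    rw [this]
    linarith
  · refine f2.trans ?_
    rw [Real.norm_of_nonneg (Real.rpow_nonneg hT0.le _), Real.norm_of_nonneg (Real.exp_pos _).le,
      one_mul] at f3
    rw [one_mul]
    refine f3.trans (le_of_eq ?_)
    congr 1
    field_simp

end Pool.Agent.MG
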