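import Mathlib
import Pool.Agent.Lib.MP_bae66e_nt.MG.A1a
import Pool.Agent.Lib.MP_bae66e_nt.MG.P1a
import Pool.Agent.Lib.MP_bae66e_nt.MG.P1b

set_option autoImplicit false

namespace Pool.Agent.MG

open Pool.Agent.GM

private lemma aux_rep_upper (m : ℕ) (y Y : ℝ) (hyY : y ≤ Y) :
    (repCount m y : ℝ) ≤ ∑ p ∈ (Finset.range (⌊Y⌋₊ + 1)).filter Nat.Prime,
      (if (m - p).Prime then (1 : ℝ) else 0) := by
  rw [← Finset.sum_filter, Finset.sum_const, nsmul_eq_mul, mul_one]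
  unfold repCount
  have h : (Finset.range m).filter (fun p => p.Prime ∧ (m - p).Prime ∧ (p : ℝ) ≤ y) ⊆
      ((Finset.range (⌊Y⌋₊ + 1)).filter Nat.Prime).filter (fun p => (m - p).Prime) := by
    intro p hp
    rw [Finset.mem_filter] at hp
    rw [Finset.mem_filter, Finset.mem_filter, Finset.mem_range]
    exact ⟨⟨Nat.lt_succ_of_le (Nat.le_floor (hp.2.2.2.trans hyY)), hp.2.1⟩, hp.2.2.1⟩
  exact_mod_cast Finset.card_le_card h

private lemma aux_rep_lower (m : ℕ) (y Y : ℝ) (hyY : Y ≤ y) :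
    ∑ p ∈ (Finset.range (⌊Y⌋₊ + 1)).filter Nat.Prime,
      (if (m - p).Prime then (1 : ℝ) else 0) ≤ (repCount m y : ℝ) := by
  rw [← Finset.sum_filter, Finset.sum_const, nsmul_eq_mul, mul_one]
  unfold repCount
  have h : ((Finset.range (⌊Y⌋₊ + 1)).filter Nat.Prime).filter (fun p => (m - p).Prime) ⊆
      (Finset.range m).filter (fun p => p.Prime ∧ (m - p).Prime ∧ (p : ℝ) ≤ y) := by
    intro p hp
    rw [Finset.mem_filter, Finset.mem_filter, Finset.mem_range] at hp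
    rw [Finset.mem_filter, Finset.mem_range]
    obtain ⟨⟨h1, h2⟩, h3⟩ := hp
    have h4 : (p : ℝ) ≤ Y := (Nat.le_floor_iff' h2.ne_zero).1 (Nat.lt_succ_iff.1 h1)
    have h5 := h3.pos
    exact ⟨by omega, h2, h3, h4.trans hyY⟩
  exact_mod_cast Finset.card_le_card h

private lemma aux_swap (θ : ℝ) (k M a : ℕ) (S : Finset ℕ) :
    ∑ m ∈ (cenSet θ k).filter (fun m => m ≡ a [MOD M]), wk k m * Real.log m *
      (∑ p ∈ S, (if (m - p).Prime then (1 : ℝ) else 0)) = ∑ p ∈ S, UU θ k M a p := by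
  unfold UU
  rw [Finset.sum_comm]
  apply Finset.sum_congr rfl
  intro m _
  rw [Finset.mul_sum]
  apply Finset.sum_congr rfl
  intro p _
  split_ifs
  · rw [mul_one]
  · rw [mul_zero]

private lemma aux_RR (M a : ℕ) (Y : ℝ) : (RR M a Y : ℝ) =
    ∑ p ∈ (Finset.range (⌊Y⌋₊ + 1)).filter Nat.Prime,
      (if (a - p).Coprime M then (1 : ℝ) else 0) := by
  unfold RR
  rw [← Finset.sum_filter, Finset.sum_const, nsmul_eq_mul, mul_one, Finset.filter_filter]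

/-- A2. PROOF. `TA = ∑_m wk k m log m * #{p < m : p, m - p prime, p ≤ y(m)}`, `y(m) = scale (log m)`, and
`y₋ ≤ y(m) ≤ y₊` for central `m` (`scale_mono`, `mem_cenSet`; `(1-θ)k ≥ t₀`), `y₊ ≤ exp (k/8)` and
`y₊ < a` (hypothesis), `p < m` automatic. Exchange the sums: `∑_{p ≤ y₋} UU p ≤ TA ≤ ∑_{p ≤ y₊} UU p`, and
use `one_prime`: the `p ≤ Y` with `(a - p, M) = 1` are counted by `RR M a Y`. -/
lemma TA_bounds (lam B β : ℝ) (hlam : 0 < lam) (hB : 1 < B) (θ : ℝ) (h0 : 0 < θ)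
    (h1 : θ < 1 / 4) : ∃ e₀ : ℝ, 0 < e₀ ∧ ∀ η : ℝ, 0 < η →
    ∃ (δ : ℝ) (k₀ : ℕ), 0 < δ ∧ ∀ k : ℕ, k₀ ≤ k → ∀ z : ℕ, (z : ℝ) ≤ e₀ * k → ∀ D : Finset ℕ,
      GoodM δ k (Mz z D) → ∀ a : ℕ, scale lam B β ((1 + θ) * k) < a →
        (1 - η) * (RR (Mz z D) a (scale lam B β ((1 - θ) * k)) : ℝ)
          ≤ ((Mz z D).totient : ℝ) * TA θ lam B β k (Mz z D) a ∧
        ((Mz z D).totient : ℝ) * TA θ lam B β k (Mz z D) a
          ≤ (1 + η) * (RR (Mz z D) a (scale lam B β ((1 + θ) * k)) : ℝ) := by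
  obtain ⟨e₀, he₀, h⟩ := one_prime θ h0 h1
  refine ⟨e₀, he₀, ?_⟩
  intro η hη
  obtain ⟨δ, k₁, hδ, hk⟩ := h η hη
  obtain ⟨t₀, _, hmono⟩ := scale_mono lam B β hlam hB
  obtain ⟨k₂, hk₂⟩ := scale_small lam B β hlam hB (B + 1) 1 1 θ (by linarith) one_pos one_pos h0
    (by linarith) 0
  obtain ⟨k₃, hk₃⟩ := exists_nat_ge (2 * t₀)
  refine ⟨δ, max 1 (max k₁ (max k₂ k₃)), hδ, ?_⟩
  intro k hkk z hz D hG a ha
  have a1 : 1 ≤ k := le_trans (le_max_left _ _) hkk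
  have hk' := le_trans (le_max_right _ _) hkk
  have a2 : k₁ ≤ k := le_trans (le_max_left _ _) hk'
  have hk'' := le_trans (le_max_right _ _) hk'
  have a3 : k₂ ≤ k := le_trans (le_max_left _ _) hk''
  have a4 : k₃ ≤ k := le_trans (le_max_right _ _) hk''
  have hkr : (1 : ℝ) ≤ k := by exact_mod_cast a1
  have ht₀ : t₀ ≤ (1 - θ) * k := by
    have : 2 * t₀ ≤ (k : ℝ) := hk₃.trans (by exact_mod_cast a4)
    nlinarith
  have hY8 : scale lam B β ((1 + θ) * k) ≤ Real.exp ((k : ℝ) / 8) :=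
    (hk₂ k a3 k (by linarith)).2.1
  have hYY : scale lam B β ((1 - θ) * k) ≤ scale lam B β ((1 + θ) * k) :=
    hmono _ _ ht₀ (by nlinarith)
  have hone := hk k a2 z hz D hG a
  set M := Mz z D with hM
  have hφ : (0 : ℝ) ≤ (M.totient : ℝ) := Nat.cast_nonneg _
  have hcen : ∀ m ∈ (cenSet θ k).filter (fun m => m ≡ a [MOD M]),
      0 ≤ wk k m * Real.log m ∧ scale lam B β ((1 - θ) * k) ≤ scale lam B β (Real.log m) ∧
      scale lam B β (Real.log m) ≤ scale lam B β ((1 + θ) * k) := by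
    intro m hm
    have h2 := (mem_cenSet a1 (by linarith)).1 (Finset.mem_filter.1 hm).1
    have h3 : 0 ≤ Real.log m := by nlinarith [h2.1]
    refine ⟨?_, hmono _ _ ht₀ h2.1, hmono _ _ (ht₀.trans h2.1) h2.2⟩
    unfold wk
    positivity
  have hp : ∀ Y : ℝ, Y ≤ scale lam B β ((1 + θ) * k) →
      ∀ p ∈ (Finset.range (⌊Y⌋₊ + 1)).filter Nat.Prime,
        p < a ∧ (p : ℝ) ≤ Real.exp ((k : ℝ) / 8) := by
    intro Y hY p hp
    rw [Finset.mem_filter, Finset.mem_range] at hp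
    have h4 : (p : ℝ) ≤ Y := (Nat.le_floor_iff' hp.2.ne_zero).1 (Nat.lt_succ_iff.1 hp.1)
    have h5 : (p : ℝ) < a := lt_of_le_of_lt (h4.trans hY) ha
    exact ⟨by exact_mod_cast h5, h4.trans (hY.trans hY8)⟩
  constructor
  · have e1 : ∑ p ∈ (Finset.range (⌊scale lam B β ((1 - θ) * k)⌋₊ + 1)).filter Nat.Prime,
        UU θ k M a p ≤ TA θ lam B β k M a := by
      rw [← aux_swap]
      unfold TA
      apply Finset.sum_le_sum
      intro m hm
      exact mul_le_mul_of_nonneg_left (aux_rep_lower m _ _ (hcen m hm).2.1) (hcen m hm).1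
    have e2 := mul_le_mul_of_nonneg_left e1 hφ
    refine le_trans ?_ e2
    rw [aux_RR, Finset.mul_sum, Finset.mul_sum]
    apply Finset.sum_le_sum
    intro p hp'
    obtain ⟨b1, b2⟩ := hp _ hYY p hp'
    by_cases hc : (a - p).Coprime M
    · rw [if_pos hc, mul_one]
      exact ((hone p b1 b2).1 hc).1
    · rw [if_neg hc, mul_zero, (hone p b1 b2).2 hc, mul_zero]
  · have e1 : TA θ lam B β k M a ≤
        ∑ p ∈ (Finset.range (⌊scale lam B β ((1 + θ) * k)⌋₊ + 1)).filter Nat.Prime,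
        UU θ k M a p := by
      rw [← aux_swap]
      unfold TA
      apply Finset.sum_le_sum
      intro m hm
      exact mul_le_mul_of_nonneg_left (aux_rep_upper m _ _ (hcen m hm).2.2) (hcen m hm).1
    have e2 := mul_le_mul_of_nonneg_left e1 hφ
    refine le_trans e2 ?_
    rw [aux_RR, Finset.mul_sum, Finset.mul_sum]
    apply Finset.sum_le_sum
    intro p hp'
    obtain ⟨b1, b2⟩ := hp _ le_rfl p hp'
    by_cases hc : (a - p).Coprime M
    · rw [if_pos hc, mul_one]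
      exact ((hone p b1 b2).1 hc).2
    · rw [if_neg hc, mul_zero, (hone p b1 b2).2 hc, mul_zero]

end Pool.Agent.MG
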