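import Mathlib
import Pool.Agent.Lib.MP_bae66e_nt.Mg.G034

set_option autoImplicit false

namespace Pool.Agent.MG

open Pool.Agent.GM

private lemma aux_pf {m p : ℕ} (hp : p ∈ m.primeFactors.erase 2) : p.Prime ∧ 3 ≤ p := by
  rw [Finset.mem_erase] at hp
  have h := Nat.prime_of_mem_primeFactors hp.2
  have h2 := h.two_le
  exact ⟨h, by have := hp.1; omega⟩

private lemma aux_f (p : ℕ) (hp : 3 ≤ p) :
    (1 : ℝ) ≤ ((p : ℝ) - 1) / ((p : ℝ) - 2) ∧
    ((p : ℝ) - 1) / ((p : ℝ) - 2) ≤ Real.exp (3 / p) := by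
  have h3 : (3 : ℝ) ≤ p := by exact_mod_cast hp
  constructor
  · rw [le_div_iff₀ (by linarith)]; linarith
  · have e : ((p : ℝ) - 1) / ((p : ℝ) - 2) = 1 / ((p : ℝ) - 2) + 1 := by
      have : ((p : ℝ) - 2) ≠ 0 := by linarith
      field_simp; ring
    have h4 : 1 / ((p : ℝ) - 2) ≤ 3 / p := by
      rw [div_le_div_iff₀ (by linarith) (by linarith)]; linarith
    rw [e]
    exact (Real.add_one_le_exp _).trans (Real.exp_le_exp.2 h4)

private lemma aux_union (A B : Finset ℕ) (f : ℕ → ℝ) (hf : ∀ x, 0 ≤ f x) :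
    ∑ x ∈ A ∪ B, f x ≤ ∑ x ∈ A, f x + ∑ x ∈ B, f x := by
  have h := Finset.sum_union_inter (s₁ := A) (s₂ := B) (f := f)
  have h2 : 0 ≤ ∑ x ∈ A ∩ B, f x := Finset.sum_nonneg fun x _ => hf x
  linarith

private lemma aux_sing (m a z p₁ : ℕ) (D₀ : Finset ℕ) (ha : 1 ≤ a)
    (h : m ≡ a [MOD Mz z (insert p₁ D₀)]) :
    sing m ≤ sing a * Real.exp (3 / p₁ + ∑ p ∈ D₀.filter (fun p => 3 ≤ p), (3 : ℝ) / p +
      ∑ p ∈ m.primeFactors.filter (fun p => z < p), (3 : ℝ) / p) := by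
  classical
  have hA0 : 0 ≤ ∏ p ∈ a.primeFactors.erase 2, (((p : ℝ) - 1) / ((p : ℝ) - 2)) :=
    Finset.prod_nonneg fun p hp => by
      linarith [(aux_f p (aux_pf hp).2).1]
  have h1 : ∏ p ∈ m.primeFactors.erase 2, (((p : ℝ) - 1) / ((p : ℝ) - 2)) ≤
      (∏ p ∈ a.primeFactors.erase 2, (((p : ℝ) - 1) / ((p : ℝ) - 2))) *
        ∏ p ∈ (m.primeFactors.erase 2) \ (a.primeFactors.erase 2),
          (((p : ℝ) - 1) / ((p : ℝ) - 2)) := by
    rw [← Finset.prod_union (Finset.disjoint_sdiff), Finset.union_sdiff_self_eq_union]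
    rw [← Finset.prod_sdiff (Finset.subset_union_right
      (s₁ := a.primeFactors.erase 2) (s₂ := m.primeFactors.erase 2))]
    have h2 : 1 ≤ ∏ p ∈ ((a.primeFactors.erase 2) ∪ (m.primeFactors.erase 2)) \
        (m.primeFactors.erase 2), (((p : ℝ) - 1) / ((p : ℝ) - 2)) := by
      apply Finset.one_le_prod
      intro p hp
      rw [Finset.mem_sdiff, Finset.mem_union] at hp
      rcases hp.1 with h3 | h3
      · exact (aux_f p (aux_pf h3).2).1
      · exact (aux_f p (aux_pf h3).2).1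
    have h3 : 0 ≤ ∏ p ∈ m.primeFactors.erase 2, (((p : ℝ) - 1) / ((p : ℝ) - 2)) :=
      Finset.prod_nonneg fun p hp => by
        linarith [(aux_f p (aux_pf hp).2).1]
    nlinarith
  have h2 : ∏ p ∈ (m.primeFactors.erase 2) \ (a.primeFactors.erase 2),
          (((p : ℝ) - 1) / ((p : ℝ) - 2)) ≤
      Real.exp (∑ p ∈ (m.primeFactors.erase 2) \ (a.primeFactors.erase 2), (3 : ℝ) / p) := by
    rw [Real.exp_sum]
    apply Finset.prod_le_prod
    · intro p hp
      rw [Finset.mem_sdiff] at hp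
      linarith [(aux_f p (aux_pf hp.1).2).1]
    · intro p hp
      rw [Finset.mem_sdiff] at hp
      exact (aux_f p (aux_pf hp.1).2).2
  have h3 : (m.primeFactors.erase 2) \ (a.primeFactors.erase 2) ⊆
      ({p₁} ∪ D₀.filter (fun p => 3 ≤ p)) ∪ m.primeFactors.filter (fun p => z < p) := by
    intro p hp
    rw [Finset.mem_sdiff] at hp
    obtain ⟨hpm, hpa⟩ := hp
    obtain ⟨hpp, hp3⟩ := aux_pf hpm
    have hpm' := (Finset.mem_erase.1 hpm).2
    have hpm2 : p ∣ m := Nat.dvd_of_mem_primeFactors hpm'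
    have hna : ¬ p ∣ a := by
      intro hd
      apply hpa
      rw [Finset.mem_erase, Nat.mem_primeFactors]
      exact ⟨by omega, hpp, hd, by omega⟩
    have hnM : ¬ p ∣ Mz z (insert p₁ D₀) := by
      intro hd
      apply hna
      have h4 : m ≡ a [MOD p] := h.of_dvd hd
      exact (h4.dvd_iff dvd_rfl).1 hpm2
    rw [prime_dvd_Mz z (insert p₁ D₀) p hpp] at hnM
    rw [Finset.mem_union, Finset.mem_union, Finset.mem_singleton, Finset.mem_filter,
      Finset.mem_filter]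
    by_cases hz : p ≤ z
    · have h5 : p ∈ insert p₁ D₀ := by
        by_contra hcon
        exact hnM ⟨hz, hcon⟩
      rw [Finset.mem_insert] at h5
      rcases h5 with h5 | h5
      · exact Or.inl (Or.inl h5)
      · exact Or.inl (Or.inr ⟨h5, hp3⟩)
    · exact Or.inr ⟨hpm', not_le.1 hz⟩
  have hf : ∀ x : ℕ, (0 : ℝ) ≤ 3 / (x : ℝ) := fun x => by positivity
  have h4 : ∑ p ∈ (m.primeFactors.erase 2) \ (a.primeFactors.erase 2), (3 : ℝ) / p ≤
      3 / p₁ + ∑ p ∈ D₀.filter (fun p => 3 ≤ p), (3 : ℝ) / p +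
      ∑ p ∈ m.primeFactors.filter (fun p => z < p), (3 : ℝ) / p := by
    refine (Finset.sum_le_sum_of_subset_of_nonneg h3 (fun x _ _ => hf x)).trans ?_
    refine (aux_union _ _ _ hf).trans ?_
    apply add_le_add _ le_rfl
    refine (aux_union _ _ _ hf).trans ?_
    rw [Finset.sum_singleton]
  have ht := twinConst_pos.1
  unfold sing
  calc 2 * twinConst * ∏ p ∈ m.primeFactors.erase 2, (((p : ℝ) - 1) / ((p : ℝ) - 2))
      ≤ 2 * twinConst * ((∏ p ∈ a.primeFactors.erase 2, (((p : ℝ) - 1) / ((p : ℝ) - 2))) *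
        ∏ p ∈ (m.primeFactors.erase 2) \ (a.primeFactors.erase 2),
          (((p : ℝ) - 1) / ((p : ℝ) - 2))) := mul_le_mul_of_nonneg_left h1 (by positivity)
    _ ≤ 2 * twinConst * ((∏ p ∈ a.primeFactors.erase 2, (((p : ℝ) - 1) / ((p : ℝ) - 2))) *
        Real.exp (3 / p₁ + ∑ p ∈ D₀.filter (fun p => 3 ≤ p), (3 : ℝ) / p +
      ∑ p ∈ m.primeFactors.filter (fun p => z < p), (3 : ℝ) / p)) := by
        apply mul_le_mul_of_nonneg_left _ (by positivity)
        exact mul_le_mul_of_nonneg_left (h2.trans (Real.exp_le_exp.2 h4)) hA0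
    _ = _ := by ring

private lemma aux_D (z : ℕ) (hz : 1 ≤ z) (D₀ : Finset ℕ) (hD : D₀ ⊆ Pz z) (L : ℝ)
    (hL : (D₀.card : ℝ) ≤ L) :
    ∑ p ∈ D₀.filter (fun p => 3 ≤ p), (3 : ℝ) / p ≤ L * (3 / Real.sqrt z) := by
  have hz0 : (0 : ℝ) < Real.sqrt z := Real.sqrt_pos.2 (by exact_mod_cast hz)
  have h1 : ∀ p ∈ D₀.filter (fun p => 3 ≤ p), (3 : ℝ) / p ≤ 3 / Real.sqrt z := by
    intro p hp
    rw [Finset.mem_filter] at hp
    have h2 := (Finset.mem_filter.1 (hD hp.1)).2.2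
    apply div_le_div_of_nonneg_left (by norm_num) hz0
    apply Real.sqrt_le_iff.2
    refine ⟨Nat.cast_nonneg p, ?_⟩
    exact_mod_cast h2.le
  refine (Finset.sum_le_card_nsmul _ _ _ h1).trans ?_
  rw [nsmul_eq_mul]
  apply mul_le_mul_of_nonneg_right _ (by positivity)
  refine le_trans ?_ hL
  exact_mod_cast Finset.card_filter_le _ _

private lemma aux_T (m z : ℕ) (hz : 2 ≤ z) (hm : 1 ≤ m) (k : ℝ) (hk : Real.log m ≤ 2 * k) :
    ∑ p ∈ m.primeFactors.filter (fun p => z < p), (3 : ℝ) / p ≤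
      (2 * k / Real.log z) * (3 / z) := by
  have hzr : (2 : ℝ) ≤ z := by exact_mod_cast hz
  have hz0 : (0 : ℝ) < z := by linarith
  have hlz : 0 < Real.log z := Real.log_pos (by linarith)
  have h1 : ∀ p ∈ m.primeFactors.filter (fun p => z < p), (3 : ℝ) / p ≤ 3 / z := by
    intro p hp
    rw [Finset.mem_filter] at hp
    apply div_le_div_of_nonneg_left (by norm_num) hz0
    exact_mod_cast hp.2.le
  refine (Finset.sum_le_card_nsmul _ _ _ h1).trans ?_
  rw [nsmul_eq_mul]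
  apply mul_le_mul_of_nonneg_right _ (by positivity)
  rw [le_div_iff₀ hlz]
  refine le_trans ?_ hk
  have h2 : z ^ (m.primeFactors.filter (fun p => z < p)).card ≤ m := by
    calc z ^ (m.primeFactors.filter (fun p => z < p)).card
        ≤ ∏ p ∈ m.primeFactors.filter (fun p => z < p), p := by
          apply Finset.pow_card_le_prod
          intro p hp
          exact (Finset.mem_filter.1 hp).2.le
      _ ≤ m := by
          apply Nat.le_of_dvd (by omega)
          exact (Finset.prod_dvd_prod_of_subset _ _ _ (Finset.filter_subset _ _)).trans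
            (Nat.prod_primeFactors_dvd m)
  have h3 : ((z : ℝ)) ^ (m.primeFactors.filter (fun p => z < p)).card ≤ m := by exact_mod_cast h2
  have h4 := Real.log_le_log (by positivity) h3
  rw [Real.log_pow] at h4
  exact h4

private lemma aux_log8 (c : ℝ) (hc : 0 < c) :
    ∃ k₀ : ℕ, ∀ k : ℕ, k₀ ≤ k → (Real.log k) ^ 4 ≤ c * Real.sqrt k := by
  have h1 := (Real.isLittleO_pow_log_id_atTop (n := 8)).bound (show (0 : ℝ) < c ^ 2 by positivity)
  have h2 := tendsto_natCast_atTop_atTop.eventually h1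
  rw [Filter.eventually_atTop] at h2
  obtain ⟨k₀, hk₀⟩ := h2
  refine ⟨k₀, fun k hk => ?_⟩
  have h3 := hk₀ k hk
  have hk0 : (0 : ℝ) ≤ k := Nat.cast_nonneg k
  rw [Real.norm_eq_abs, id_eq, Real.norm_eq_abs, abs_of_nonneg hk0,
    abs_of_nonneg (show (0 : ℝ) ≤ Real.log k ^ 8 by positivity)] at h3
  have h4 : ((Real.log k) ^ 4) ^ 2 ≤ (c * Real.sqrt k) ^ 2 := by
    rw [mul_pow, Real.sq_sqrt hk0, ← pow_mul]
    exact h3
  exact le_of_sq_le_sq h4 (by positivity)

/-- S3c. The singular series is nearly periodic modulo `Mz z (insert p₁ D₀)`.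
PROOF. Let `M` be the modulus. A prime dividing exactly one of `m, a` does not divide `M`, so it is
`> z` or in `insert p₁ D₀` (`prime_dvd_Mz`). Hence
`sing m ≤ sing a * ∏_{p ∣ m, p ∤ a, p > 2} (1 + 1/(p-2)) ≤ sing a * exp (1/(p₁-2) + ∑_{p ∈ D₀} 1/(p-2)
+ ∑_{p ∣ m, p > z} 1/(p-2))`. Here `p₁ ≥ K`, the elements of `D₀` exceed `√z ≥ √(e k/2)` and there are at
most `(log k)^4`, and `m ≤ e^(2k)` has at most `2 k/log z` prime factors `> z ≥ e k - 1`. The exponent
is at most `η/2` if `K` is large and `k` is large. (`p₁ > 2`, and `2 ∉ D₀` as `z ≥ 4`.) -/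
lemma sing_near (e η : ℝ) (he : 0 < e) (hη : 0 < η) : ∃ K k₀ : ℕ, ∀ k : ℕ, k₀ ≤ k →
    ∀ z p₁ : ℕ, ∀ D₀ : Finset ℕ, e * k - 1 ≤ z → Adm K k z p₁ D₀ → ∀ m a : ℕ, 1 ≤ m → 1 ≤ a →
      Real.log m ≤ 2 * k → m ≡ a [MOD Mz z (insert p₁ D₀)] → sing m ≤ (1 + η) * sing a := by
  obtain ⟨η', hη'⟩ : ∃ η', η' = Real.log (1 + η) := ⟨_, rfl⟩
  have hη0 : 0 < η' := by rw [hη']; exact Real.log_pos (by linarith)
  obtain ⟨K, hK⟩ := exists_nat_ge (9 / η')
  have hc : 0 < η' / 9 * Real.sqrt (e / 2) := by positivity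
  obtain ⟨k₁, hk₁⟩ := aux_log8 _ hc
  obtain ⟨k₂, hk₂⟩ := exists_nat_ge (4 / e)
  obtain ⟨k₃, hk₃⟩ := exists_nat_ge (2 / e * Real.exp (36 / (e * η')))
  refine ⟨max K 1, max 1 (max k₁ (max k₂ k₃)), ?_⟩
  intro k hk z p₁ D₀ hz hAdm m a hm ha hlm hcong
  have a1 : 1 ≤ k := le_trans (le_max_left _ _) hk
  have hk' := le_trans (le_max_right _ _) hk
  have a2 : k₁ ≤ k := le_trans (le_max_left _ _) hk'
  have hk'' := le_trans (le_max_right _ _) hk'
  have a3 : k₂ ≤ k := le_trans (le_max_left _ _) hk''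
  have a4 : k₃ ≤ k := le_trans (le_max_right _ _) hk''
  have hkr : (1 : ℝ) ≤ k := by exact_mod_cast a1
  have hek : 4 ≤ e * k := by
    have h1 : 4 / e ≤ (k : ℝ) := hk₂.trans (by exact_mod_cast a3)
    rw [div_le_iff₀ he] at h1
    linarith
  have hz2 : e * k / 2 ≤ z := by linarith
  have hz1 : 2 ≤ z := by
    have : (2 : ℝ) ≤ z := by linarith
    exact_mod_cast this
  have hlz : 36 / (e * η') ≤ Real.log z := by
    rw [Real.le_log_iff_exp_le (by linarith)]
    refine le_trans ?_ hz2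
    have h1 : 2 / e * Real.exp (36 / (e * η')) ≤ (k : ℝ) := hk₃.trans (by exact_mod_cast a4)
    have h2 : Real.exp (36 / (e * η')) = (2 / e * Real.exp (36 / (e * η'))) * (e / 2) := by
      field_simp
    rw [h2]
    calc (2 / e * Real.exp (36 / (e * η'))) * (e / 2) ≤ k * (e / 2) :=
          mul_le_mul_of_nonneg_right h1 (by positivity)
      _ = e * k / 2 := by ring
  obtain ⟨hp₁, hKp, hpz, hD₀, hcard⟩ := hAdm
  have b1 : (3 : ℝ) / p₁ ≤ η' / 3 := by
    have h1 : 9 / η' ≤ (p₁ : ℝ) :=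
      hK.trans (by exact_mod_cast (le_trans (le_max_left _ _) hKp))
    have h2 : (0 : ℝ) < p₁ := by exact_mod_cast hp₁.pos
    rw [div_le_iff₀ hη0] at h1
    rw [div_le_div_iff₀ h2 (by norm_num)]
    linarith
  have b2 : ∑ p ∈ D₀.filter (fun p => 3 ≤ p), (3 : ℝ) / p ≤ η' / 3 := by
    refine (aux_D z (by omega) D₀ hD₀ _ hcard).trans ?_
    have hs : Real.sqrt (e / 2) * Real.sqrt k ≤ Real.sqrt z := by
      rw [← Real.sqrt_mul (by positivity)]
      apply Real.sqrt_le_sqrt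
      linarith
    have hs0 : 0 < Real.sqrt z := Real.sqrt_pos.2 (by linarith)
    rw [mul_div_assoc', div_le_iff₀ hs0]
    have h1 := hk₁ k a2
    calc (Real.log k) ^ 4 * 3 ≤ (η' / 9 * Real.sqrt (e / 2) * Real.sqrt k) * 3 :=
          mul_le_mul_of_nonneg_right h1 (by norm_num)
      _ = η' / 3 * (Real.sqrt (e / 2) * Real.sqrt k) := by ring
      _ ≤ η' / 3 * Real.sqrt z := mul_le_mul_of_nonneg_left hs (by positivity)
  have b3 : ∑ p ∈ m.primeFactors.filter (fun p => z < p), (3 : ℝ) / p ≤ η' / 3 := by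
    refine (aux_T m z hz1 hm k hlm).trans ?_
    have hz0 : (0 : ℝ) < z := by linarith
    have hl0 : 0 < Real.log z := lt_of_lt_of_le (by positivity) hlz
    rw [div_mul_div_comm, div_le_iff₀ (by positivity)]
    have h1 : 36 ≤ Real.log z * (e * η') := by
      rwa [div_le_iff₀ (by positivity)] at hlz
    calc 2 * (k : ℝ) * 3 = (η' / 3) * (18 * k / η') := by field_simp; norm_num
      _ ≤ η' / 3 * (Real.log z * z) := by
          apply mul_le_mul_of_nonneg_left _ (by positivity)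
          rw [div_le_iff₀ hη0]
          calc 18 * (k : ℝ) = 36 * (k / 2) := by ring
            _ ≤ (Real.log z * (e * η')) * (k / 2) := mul_le_mul_of_nonneg_right h1 (by positivity)
            _ = Real.log z * (e * k / 2) * η' := by ring
            _ ≤ Real.log z * z * η' := by
                apply mul_le_mul_of_nonneg_right _ hη0.le
                exact mul_le_mul_of_nonneg_left hz2 hl0.le
  have h1 := aux_sing m a z p₁ D₀ ha hcong
  have hsa : 0 ≤ sing a := by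
    have ht := twinConst_pos.1
    unfold sing
    have hA0 : 0 ≤ ∏ p ∈ a.primeFactors.erase 2, (((p : ℝ) - 1) / ((p : ℝ) - 2)) :=
      Finset.prod_nonneg fun p hp => by
        linarith [(aux_f p (aux_pf hp).2).1]
    positivity
  refine h1.trans ?_
  rw [mul_comm]
  apply mul_le_mul_of_nonneg_right _ hsa
  calc Real.exp (3 / p₁ + ∑ p ∈ D₀.filter (fun p => 3 ≤ p), (3 : ℝ) / p +
      ∑ p ∈ m.primeFactors.filter (fun p => z < p), (3 : ℝ) / p) ≤ Real.exp η' := by
        apply Real.exp_le_exp.2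
        linarith
    _ = 1 + η := by rw [hη', Real.exp_log (by linarith)]

end Pool.Agent.MG
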