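import Mathlib
import Pool.Agent.Lib.MP_bae66e_nt.Mg.G034

set_option autoImplicit false

namespace Pool.Agent.MG

open Pool.Agent.GM

private noncomputable def T3_g (k : ℕ) (u : ℝ) : ℝ := u ^ k * Real.exp (-2 * u) / k.factorial

private lemma T3_wk (k n : ℕ) (hn : 1 ≤ n) : wk k n = T3_g k (Real.log n) := by
  have hn' : (0 : ℝ) < n := by exact_mod_cast hn
  unfold wk T3_g
  have h1 : Real.exp (-2 * Real.log n) = ((n : ℝ) ^ 2)⁻¹ := by
    rw [show -2 * Real.log n = -(2 * Real.log n) by ring, Real.exp_neg]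
    congr 1
    have : 2 * Real.log n = ((2 : ℕ) : ℝ) * Real.log n := by norm_num
    rw [this, Real.exp_nat_mul, Real.exp_log hn']
  rw [h1]
  field_simp

private lemma T3_deriv (k : ℕ) (hk : 1 ≤ k) (u : ℝ) :
    HasDerivAt (T3_g k) (u ^ (k - 1) * (k - 2 * u) * Real.exp (-2 * u) / k.factorial) u := by
  have h1 : HasDerivAt (fun u : ℝ => u ^ k) (k * u ^ (k - 1)) u := hasDerivAt_pow k u
  have h2 : HasDerivAt (fun u : ℝ => Real.exp (-2 * u)) (Real.exp (-2 * u) * (-2 * 1)) u :=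
    ((hasDerivAt_id u).const_mul (-2 : ℝ)).exp
  have h3 := (h1.mul h2).div_const (k.factorial : ℝ)
  have h4 : (k * u ^ (k - 1) * Real.exp (-2 * u) + u ^ k * (Real.exp (-2 * u) * (-2 * 1))) / (k.factorial : ℝ)
      = u ^ (k - 1) * (k - 2 * u) * Real.exp (-2 * u) / k.factorial := by
    have h5 : u ^ k = u ^ (k - 1) * u := by
      rw [← pow_succ]; congr 1; omega
    rw [h5]
    ring
  rw [h4] at h3
  exact h3

private lemma T3_mono (k : ℕ) (hk : 1 ≤ k) : MonotoneOn (T3_g k) (Set.Icc 0 ((k : ℝ) / 2)) := by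
  apply monotoneOn_of_deriv_nonneg (convex_Icc _ _)
  · exact fun x _ => (T3_deriv k hk x).continuousAt.continuousWithinAt
  · exact fun x _ => (T3_deriv k hk x).differentiableAt.differentiableWithinAt
  · intro x hx
    rw [interior_Icc] at hx
    rw [(T3_deriv k hk x).deriv]
    have h1 : 0 < x := hx.1
    have h2 : 0 ≤ (k : ℝ) - 2 * x := by linarith [hx.2]
    positivity

private lemma T3_anti (k : ℕ) (hk : 1 ≤ k) : AntitoneOn (T3_g k) (Set.Ici ((k : ℝ) / 2)) := by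
  apply antitoneOn_of_deriv_nonpos (convex_Ici _)
  · exact fun x _ => (T3_deriv k hk x).continuousAt.continuousWithinAt
  · exact fun x _ => (T3_deriv k hk x).differentiableAt.differentiableWithinAt
  · intro x hx
    rw [interior_Ici] at hx
    rw [(T3_deriv k hk x).deriv]
    have h0 : (0 : ℝ) ≤ k := Nat.cast_nonneg k
    have h1 : (k : ℝ) / 2 < x := hx
    have h1' : 0 < x := by linarith
    have h2 : 0 ≤ 2 * x - (k : ℝ) := by linarith
    have h3 : 0 ≤ x ^ (k - 1) * (2 * x - k) * Real.exp (-2 * x) / k.factorial := by positivity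
    have h4 : x ^ (k - 1) * (k - 2 * x) * Real.exp (-2 * x) / k.factorial = -(x ^ (k - 1) * (2 * x - k) * Real.exp (-2 * x) / k.factorial) := by ring
    rw [h4]; linarith

private lemma T3_nonneg (k : ℕ) (u : ℝ) (hu : 0 ≤ u) : 0 ≤ T3_g k u := by
  unfold T3_g; positivity

private lemma T3_top (k : ℕ) : T3_g k ((k : ℝ) / 2) ≤ 1 / 2 ^ k := by
  unfold T3_g
  have h1 := Real.pow_div_factorial_le_exp (k : ℝ) (Nat.cast_nonneg k) k
  have h2 : Real.exp (-2 * ((k : ℝ) / 2)) = (Real.exp k)⁻¹ := by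
    rw [← Real.exp_neg]; congr 1; ring
  rw [h2, div_pow]
  have h3 : (k : ℝ) ^ k / 2 ^ k * (Real.exp k)⁻¹ / k.factorial = ((k : ℝ) ^ k / k.factorial) * (Real.exp k)⁻¹ * (1 / 2 ^ k) := by
    field_simp
  rw [h3]
  have h4 : ((k : ℝ) ^ k / k.factorial) * (Real.exp k)⁻¹ ≤ 1 := by
    rw [mul_inv_le_iff₀ (Real.exp_pos _), one_mul]
    exact h1
  have h5 : (0 : ℝ) ≤ 1 / 2 ^ k := by positivity
  nlinarith

private noncomputable def T3_V (k : ℕ) (u : ℝ) : ℝ := T3_g k (min u ((k : ℝ) / 2)) - T3_g k (max u ((k : ℝ) / 2))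

private lemma T3_le_top (k : ℕ) (hk : 1 ≤ k) (u : ℝ) (hu : 0 ≤ u) : T3_g k u ≤ T3_g k ((k : ℝ) / 2) := by
  have h0 : (0 : ℝ) ≤ k := Nat.cast_nonneg k
  rcases le_total u ((k : ℝ) / 2) with h | h
  · exact T3_mono k hk ⟨hu, h⟩ ⟨by linarith, le_refl _⟩ h
  · exact T3_anti k hk (Set.mem_Ici.mpr (le_refl _)) (Set.mem_Ici.mpr h) h

private lemma T3_var (k : ℕ) (hk : 1 ≤ k) (u v : ℝ) (hu : 0 ≤ u) (huv : u ≤ v) :
    |T3_g k u - T3_g k v| ≤ T3_V k v - T3_V k u := by
  have h0 : (0 : ℝ) ≤ k := Nat.cast_nonneg k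
  have e1 : ∀ w : ℝ, T3_g k w = T3_g k (min w ((k : ℝ) / 2)) + T3_g k (max w ((k : ℝ) / 2)) - T3_g k ((k : ℝ) / 2) := by
    intro w
    rcases le_total w ((k : ℝ) / 2) with h | h
    · rw [min_eq_left h, max_eq_right h]; ring
    · rw [min_eq_right h, max_eq_left h]; ring
  have h1 : T3_g k (min u ((k : ℝ) / 2)) ≤ T3_g k (min v ((k : ℝ) / 2)) :=
    T3_mono k hk ⟨le_min hu (by linarith), min_le_right _ _⟩ ⟨le_min (hu.trans huv) (by linarith), min_le_right _ _⟩
      (min_le_min_right _ huv)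
  have h2 : T3_g k (max v ((k : ℝ) / 2)) ≤ T3_g k (max u ((k : ℝ) / 2)) :=
    T3_anti k hk (Set.mem_Ici.mpr (le_max_right _ _)) (Set.mem_Ici.mpr (le_max_right _ _))
      (max_le_max_right _ huv)
  rw [e1 u, e1 v]
  unfold T3_V
  rw [abs_le]
  constructor <;> linarith

private lemma T3_V_diff (k : ℕ) (hk : 1 ≤ k) (u v : ℝ) (hu : 0 ≤ u) (huv : u ≤ v) :
    T3_V k v - T3_V k u ≤ 2 * (1 / 2 ^ k) := by
  have h0 : (0 : ℝ) ≤ k := Nat.cast_nonneg k
  have h1 := T3_top k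
  have h2 := T3_le_top k hk (min v ((k : ℝ) / 2)) (le_min (hu.trans huv) (by linarith))
  have h3 := T3_nonneg k (max v ((k : ℝ) / 2)) (le_max_of_le_left (hu.trans huv))
  have h4 := T3_nonneg k (min u ((k : ℝ) / 2)) (le_min hu (by linarith))
  have h5 := T3_le_top k hk (max u ((k : ℝ) / 2)) (le_max_of_le_left hu)
  unfold T3_V
  linarith

private noncomputable def T3_F (k : ℕ) (x : ℝ) : ℝ := ∑ j ∈ Finset.range (k + 1), (Real.log x) ^ j / (j.factorial * x)

private lemma T3_F_deriv (k : ℕ) (x : ℝ) (hx : 0 < x) :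
    HasDerivAt (T3_F k) (-((Real.log x) ^ k / (k.factorial * x ^ 2))) x := by
  induction k with
  | zero =>
    have h1 : T3_F 0 = fun x => x⁻¹ := by
      funext y
      unfold T3_F
      simp
    rw [h1]
    have h2 := hasDerivAt_inv hx.ne'
    have h3 : -((Real.log x) ^ 0 / ((Nat.factorial 0 : ℕ) * x ^ 2)) = -(x ^ 2)⁻¹ := by simp
    rw [h3]
    exact h2
  | succ k ih =>
    have h1 : T3_F (k + 1) = fun x => T3_F k x + (Real.log x) ^ (k + 1) / ((k + 1).factorial * x) := by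
      funext y
      unfold T3_F
      rw [Finset.sum_range_succ]
    rw [h1]
    have hlog := Real.hasDerivAt_log hx.ne'
    have h2 : HasDerivAt (fun y : ℝ => (Real.log y) ^ (k + 1)) (((k + 1 : ℕ) : ℝ) * (Real.log x) ^ (k + 1 - 1) * x⁻¹) x := hlog.pow (k + 1)
    have h3 : HasDerivAt (fun y : ℝ => ((k + 1).factorial : ℝ) * y) (((k + 1).factorial : ℝ) * 1) x := (hasDerivAt_id x).const_mul _
    have h4 := h2.div h3 (by positivity)
    have h5 := ih.add h4
    refine h5.congr_deriv ?_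
    have hf : ((k + 1).factorial : ℝ) = (k + 1) * k.factorial := by
      rw [Nat.factorial_succ]; push_cast; ring
    rw [hf]
    have : (k.factorial : ℝ) ≠ 0 := by positivity
    have h6 : (k : ℝ) + 1 ≠ 0 := by positivity
    simp only [Nat.add_sub_cancel]
    push_cast
    field_simp
    ring

private lemma T3_F_one (k : ℕ) : T3_F k 1 = 1 := by
  unfold T3_F
  rw [Finset.sum_range_succ']
  simp

private lemma T3_mvt (k : ℕ) (a b : ℝ) (ha : 1 ≤ a) (hab : a < b) :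
    ∃ ξ : ℝ, a < ξ ∧ ξ < b ∧ T3_F k a - T3_F k b = (b - a) * T3_g k (Real.log ξ) := by
  obtain ⟨ξ, hξ, h⟩ := exists_hasDerivAt_eq_slope (T3_F k) (fun x => -((Real.log x) ^ k / (k.factorial * x ^ 2))) hab
    (fun x hx => (T3_F_deriv k x (by linarith [hx.1])).continuousAt.continuousWithinAt)
    (fun x hx => T3_F_deriv k x (by linarith [hx.1]))
  refine ⟨ξ, hξ.1, hξ.2, ?_⟩
  have hξ0 : 0 < ξ := by linarith [hξ.1]
  have h1 : T3_g k (Real.log ξ) = (Real.log ξ) ^ k / (k.factorial * ξ ^ 2) := by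
    unfold T3_g
    have h2 : Real.exp (-2 * Real.log ξ) = (ξ ^ 2)⁻¹ := by
      rw [show -2 * Real.log ξ = -(2 * Real.log ξ) by ring, Real.exp_neg]
      congr 1
      have : 2 * Real.log ξ = ((2 : ℕ) : ℝ) * Real.log ξ := by norm_num
      rw [this, Real.exp_nat_mul, Real.exp_log hξ0]
    rw [h2]
    field_simp
  rw [h1]
  have hba : b - a ≠ 0 := by linarith
  rw [eq_div_iff hba] at h
  linarith

private lemma T3_step (k q m : ℕ) (hk : 1 ≤ k) (hq : 1 ≤ q) (hm : 1 ≤ m) :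
    |(q : ℝ) * wk k m - (T3_F k m - T3_F k ((m + q : ℕ) : ℝ))| ≤ q * (T3_V k (Real.log ((m + q : ℕ) : ℝ)) - T3_V k (Real.log m)) := by
  have hm1 : (1 : ℝ) ≤ m := by exact_mod_cast hm
  have hq1 : (1 : ℝ) ≤ q := by exact_mod_cast hq
  have hc : ((m + q : ℕ) : ℝ) = m + q := by push_cast; ring
  obtain ⟨ξ, h1, h2, h3⟩ := T3_mvt k m ((m + q : ℕ) : ℝ) hm1 (by rw [hc]; linarith)
  rw [h3, T3_wk k m hm]
  have h4 : ((m + q : ℕ) : ℝ) - m = q := by rw [hc]; ring
  rw [h4, ← mul_sub, abs_mul, abs_of_nonneg (by linarith : (0:ℝ) ≤ q)]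
  apply mul_le_mul_of_nonneg_left _ (by linarith)
  have hl0 : 0 ≤ Real.log m := Real.log_nonneg hm1
  have hl1 : Real.log m ≤ Real.log ξ := Real.log_le_log (by linarith) h1.le
  have hl2 : Real.log ξ ≤ Real.log ((m + q : ℕ) : ℝ) := Real.log_le_log (by linarith) h2.le
  have h5 := T3_var k hk _ _ hl0 hl1
  have h6 := T3_var k hk _ _ (hl0.trans hl1) hl2
  have h7 := abs_nonneg (T3_g k (Real.log ξ) - T3_g k (Real.log ((m + q : ℕ) : ℝ)))
  linarith

private lemma T3_partial (k q m : ℕ) (hk : 1 ≤ k) (hq : 1 ≤ q) (hm : 1 ≤ m) (J : ℕ) :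
    |(q : ℝ) * ∑ j ∈ Finset.range J, wk k (m + j * q) - (T3_F k m - T3_F k ((m + J * q : ℕ) : ℝ))|
      ≤ q * (T3_V k (Real.log ((m + J * q : ℕ) : ℝ)) - T3_V k (Real.log m)) := by
  induction J with
  | zero => simp
  | succ J ih =>
    have h1 := T3_step k q (m + J * q) hk hq (by omega)
    have h2 : m + (J + 1) * q = m + J * q + q := by ring
    rw [Finset.sum_range_succ, h2]
    have h3 : (q : ℝ) * (∑ j ∈ Finset.range J, wk k (m + j * q) + wk k (m + J * q)) - (T3_F k m - T3_F k ((m + J * q + q : ℕ) : ℝ))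
        = ((q : ℝ) * ∑ j ∈ Finset.range J, wk k (m + j * q) - (T3_F k m - T3_F k ((m + J * q : ℕ) : ℝ)))
          + ((q : ℝ) * wk k (m + J * q) - (T3_F k ((m + J * q : ℕ) : ℝ) - T3_F k ((m + J * q + q : ℕ) : ℝ))) := by ring
    rw [h3]
    refine (abs_add_le _ _).trans ?_
    linarith

private lemma T3_F_lim (k : ℕ) : Filter.Tendsto (T3_F k) Filter.atTop (nhds 0) := by
  unfold T3_F
  have h1 : ∀ j : ℕ, Filter.Tendsto (fun x : ℝ => (Real.log x) ^ j / (j.factorial * x)) Filter.atTop (nhds 0) := by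
    intro j
    have h2 := (Real.isLittleO_pow_log_id_atTop (n := j)).tendsto_div_nhds_zero
    have h3 := h2.const_mul ((j.factorial : ℝ)⁻¹)
    rw [mul_zero] at h3
    refine h3.congr (fun x => ?_)
    simp only [id]
    field_simp
  have h4 := tendsto_finsetSum (Finset.range (k + 1)) (fun j _ => h1 j)
  simpa using h4

/-- T3. The weight is equidistributed in every arithmetic progression.
PROOF. Let `f x = (log x)^k / (k! x^2)` on `[1, ∞)`. `∫_1^∞ f = ∫_0^∞ u^k e^(-u) / k! du = 1`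
(substitution `x = e^u`, `Real.Gamma_nat_eq_factorial`). `f'(x) = (k (log x)^(k-1) - 2 (log x)^k)/(k! x^3)`,
so `∫_1^∞ |f'| ≤ (k (k-1)!/2^k + 2 k!/2^(k+1))/k! = 2/2^k`; `f 1 = 0`, hence `0 ≤ f ≤ 2/2^k`
everywhere. For `m ≥ 1`, `|q f(m) - ∫_m^(m+q) f| ≤ q ∫_m^(m+q) |f'|`. The elements `≥ 1` of the class
`c` mod `q` are `m_0 < m_0 + q < ...` with `1 ≤ m_0 ≤ q`; summing,
`|q ∑ f(m) - ∫_{m_0}^∞ f| ≤ q ∫ |f'| ≤ 2 q/2^k`, and `∫_1^{m_0} f ≤ q * 2/2^k`. The term
`m = 0` (if `0 ≡ c`) is `wk k 0 = 0`. -/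
lemma smooth_ap (k q c : ℕ) (hk : 1 ≤ k) (hq : 1 ≤ q) :
    |(q : ℝ) * ∑' m : ℕ, (if m ≡ c [MOD q] then wk k m else 0) - 1| ≤ 4 * q / 2 ^ k := by
  -- the least positive residue
  obtain ⟨m₀, hm1, hmq, hmc⟩ : ∃ m₀ : ℕ, 1 ≤ m₀ ∧ m₀ ≤ q ∧ m₀ ≡ c [MOD q] := by
    rcases Nat.eq_zero_or_pos (c % q) with h | h
    · exact ⟨q, hq, le_refl _, by unfold Nat.ModEq; rw [Nat.mod_self, h]⟩
    · exact ⟨c % q, h, (Nat.mod_lt _ (by omega)).le, Nat.mod_modEq c q⟩
  have hq0 : (0 : ℝ) ≤ q := Nat.cast_nonneg q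
  have hwk0 : wk k 0 = 0 := by unfold wk; simp
  -- summability
  have hnn : ∀ n : ℕ, 0 ≤ wk k n := by
    intro n
    have := Real.log_natCast_nonneg n
    unfold wk; positivity
  have hinj : Function.Injective (fun j : ℕ => m₀ + j * q) := by
    intro a b hab
    have h1 : a * q = b * q := by
      have : m₀ + a * q = m₀ + b * q := hab
      omega
    exact Nat.eq_of_mul_eq_mul_right (by omega) h1
  have hsupp : Function.support (fun m : ℕ => if m ≡ c [MOD q] then wk k m else 0) ⊆ Set.range (fun j : ℕ => m₀ + j * q) := by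
    intro m hm
    rw [Function.mem_support] at hm
    by_cases h : m ≡ c [MOD q]
    · rw [if_pos h] at hm
      have hm0 : 1 ≤ m := by
        rcases Nat.eq_zero_or_pos m with h0 | h0
        · rw [h0] at hm; exact absurd hwk0 hm
        · exact h0
      have h1 : m₀ ≡ m [MOD q] := hmc.trans h.symm
      have hle : m₀ ≤ m := by
        by_contra hlt
        push Not at hlt
        have h2 : m₀ - m < q := by omega
        have h3 : q ∣ m₀ - m := (Nat.modEq_iff_dvd' hlt.le).mp h1.symm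
        have h4 := Nat.le_of_dvd (by omega) h3
        omega
      obtain ⟨j, hj⟩ := (Nat.modEq_iff_dvd' hle).mp h1
      refine ⟨j, ?_⟩
      show m₀ + j * q = m
      rw [mul_comm j q, ← hj]
      omega
    · rw [if_neg h] at hm
      exact absurd rfl hm
  have hval : ∀ j : ℕ, (if m₀ + j * q ≡ c [MOD q] then wk k (m₀ + j * q) else 0) = wk k (m₀ + j * q) := by
    intro j
    rw [if_pos]
    have h1 : m₀ + j * q ≡ m₀ [MOD q] := by
      have : j * q ≡ 0 [MOD q] := (Nat.modEq_zero_iff_dvd).mpr (dvd_mul_left q j)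
      simpa using (Nat.ModEq.refl m₀).add this
    exact h1.trans hmc
  have htsum : ∑' m : ℕ, (if m ≡ c [MOD q] then wk k m else 0) = ∑' j : ℕ, wk k (m₀ + j * q) := by
    rw [← hinj.tsum_eq hsupp]
    exact tsum_congr hval
  rw [htsum]
  -- bound of the partial sums
  have hF0' : |T3_F k 1 - T3_F k m₀| ≤ q * (1 / 2 ^ k) := by
    rcases Nat.eq_or_lt_of_le hm1 with h | h
    · rw [← h]
      simp only [Nat.cast_one, sub_self, abs_zero]
      positivity
    · obtain ⟨ξ, h1, h2, h3⟩ := T3_mvt k 1 m₀ (le_refl _) (by exact_mod_cast h)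
      rw [h3]
      have hl0 : 0 ≤ Real.log ξ := Real.log_nonneg h1.le
      have h4 := T3_nonneg k _ hl0
      have h5 := (T3_le_top k hk _ hl0).trans (T3_top k)
      have h6 : (m₀ : ℝ) ≤ q := by exact_mod_cast hmq
      have h7 : (1 : ℝ) < m₀ := by exact_mod_cast h
      rw [abs_of_nonneg (mul_nonneg (by linarith) h4)]
      have h8 : (0 : ℝ) ≤ 1 / 2 ^ k := by positivity
      exact mul_le_mul (by linarith) h5 h4 hq0
  have hF0 : |1 - T3_F k m₀| ≤ q * (1 / 2 ^ k) := by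
    rwa [T3_F_one] at hF0'
  have hpart : ∀ J : ℕ, |(q : ℝ) * ∑ j ∈ Finset.range J, wk k (m₀ + j * q) - (1 - T3_F k ((m₀ + J * q : ℕ) : ℝ))| ≤ 3 * q * (1 / 2 ^ k) := by
    intro J
    have h1 := T3_partial k q m₀ hk hq hm1 J
    have hl0 : 0 ≤ Real.log (m₀ : ℝ) := Real.log_natCast_nonneg _
    have hl1 : Real.log (m₀ : ℝ) ≤ Real.log ((m₀ + J * q : ℕ) : ℝ) :=
      Real.log_le_log (by exact_mod_cast hm1) (by exact_mod_cast Nat.le_add_right _ _)
    have h2 := T3_V_diff k hk _ _ hl0 hl1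
    have h3 : (q : ℝ) * ∑ j ∈ Finset.range J, wk k (m₀ + j * q) - (1 - T3_F k ((m₀ + J * q : ℕ) : ℝ))
        = ((q : ℝ) * ∑ j ∈ Finset.range J, wk k (m₀ + j * q) - (T3_F k m₀ - T3_F k ((m₀ + J * q : ℕ) : ℝ)))
          - (1 - T3_F k m₀) := by ring
    rw [h3]
    refine (abs_sub _ _).trans ?_
    have h4 := mul_le_mul_of_nonneg_left h2 hq0
    linarith
  -- summability and limit
  have hsum : Summable (fun j : ℕ => wk k (m₀ + j * q)) := by
    have hbd : ∀ J : ℕ, ∑ j ∈ Finset.range J, wk k (m₀ + j * q) ≤ (3 * q * (1 / 2 ^ k) + 1) / q := by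
      intro J
      have h1 := hpart J
      rw [abs_le] at h1
      have hq1 : (0 : ℝ) < q := by exact_mod_cast hq
      rw [le_div_iff₀ hq1]
      have h2 : 0 ≤ T3_F k ((m₀ + J * q : ℕ) : ℝ) := by
        unfold T3_F
        refine Finset.sum_nonneg (fun j _ => ?_)
        have := Real.log_natCast_nonneg (m₀ + J * q)
        positivity
      linarith [h1.2]
    exact summable_of_sum_range_le (fun j => hnn _) hbd
  have hl1 := (hsum.hasSum.tendsto_sum_nat).const_mul (q : ℝ)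
  have hl2 : Filter.Tendsto (fun J : ℕ => T3_F k ((m₀ + J * q : ℕ) : ℝ)) Filter.atTop (nhds 0) := by
    refine (T3_F_lim k).comp ?_
    refine tendsto_natCast_atTop_atTop.comp ?_
    refine Filter.tendsto_atTop_mono (fun J => ?_) Filter.tendsto_id
    show J ≤ m₀ + J * q
    nlinarith
  have hl3 := (hl1.sub (hl2.const_sub 1)).abs
  rw [sub_zero] at hl3
  have h5 := le_of_tendsto' hl3 hpart
  refine h5.trans ?_
  have h6 : (0 : ℝ) ≤ q * (1 / 2 ^ k) := by positivity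
  have h7 : 4 * (q : ℝ) / 2 ^ k = 4 * (q * (1 / 2 ^ k)) := by ring
  rw [h7]
  linarith

end Pool.Agent.MG
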