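import Mathlib
import Pool.Agent.Lib.MP_bae66e_nt.MG.T1e
import Pool.Agent.Lib.MP_bae66e_nt.MG.T3

set_option autoImplicit false

namespace Pool.Agent.MG

open Pool.Agent.GM

/-- T4a. PROOF. `smooth_ap` minus `tail_bound` (for `n ≥ 3`, `1 ≤ log n`; the terms `n ≤ 2` are
tiny: `wk k 2 ≤ (log 2)^k`, `wk k 0 = wk k 1 = 0` for `k ≥ 1`). With `log M ≤ e₀ k`,
`e₀ = min (c/2, 1/2)`: `M exp (-c k) ≤ exp (-c k/2)`, and `4 M/2^k`, `M (log 2)^k` are small as well
(choose `e₀` also less than `1/8`). -/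
lemma central_ap (θ : ℝ) (h0 : 0 < θ) (h1 : θ < 1) : ∃ e₀ : ℝ, 0 < e₀ ∧ ∀ η : ℝ, 0 < η →
    ∃ k₀ : ℕ, ∀ k : ℕ, k₀ ≤ k → ∀ M a : ℕ, 1 ≤ M → Real.log M ≤ e₀ * k →
      |(M : ℝ) * ∑ m ∈ (cenSet θ k).filter (fun m => m ≡ a [MOD M]), wk k m - 1| ≤ η := by
  obtain ⟨c, hc, k₁, hk₁⟩ := tail_bound θ h0 h1
  set e₀ : ℝ := min (c / 2) (1 / 8) with he₀
  have he0 : 0 < e₀ := lt_min (by positivity) (by norm_num)
  have hec : e₀ ≤ c / 2 := min_le_left _ _
  have he8 : e₀ ≤ 1 / 8 := min_le_right _ _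
  refine ⟨e₀, he0, fun η hη => ?_⟩
  -- constants: log 2 > 1/2, log 2 < exp (-1/4)
  have hl2a : (1 : ℝ) / 2 < Real.log 2 := by linarith [Real.log_two_gt_d9]
  have hl2b : Real.log 2 ≤ Real.exp (-(1/4)) := by
    have h2 := Real.add_one_le_exp (-(1/4 : ℝ))
    linarith [Real.log_two_lt_d9]
  have hlim1 : Filter.Tendsto (fun k : ℕ => 2 * Real.exp (-(c / 2 * k)) + 5 * Real.exp (-(1 / 8 * (k : ℝ)))) Filter.atTop (nhds 0) := by
    have t : ∀ b : ℝ, 0 < b → Filter.Tendsto (fun k : ℕ => Real.exp (-(b * (k : ℝ)))) Filter.atTop (nhds 0) := by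
      intro b hb
      refine Real.tendsto_exp_neg_atTop_nhds_zero.comp ?_
      exact tendsto_natCast_atTop_atTop.const_mul_atTop hb
    have := ((t (c / 2) (by positivity)).const_mul 2).add ((t (1 / 8) (by norm_num)).const_mul 5)
    simpa using this
  obtain ⟨k₂, hk₂⟩ := Filter.eventually_atTop.mp (hlim1.eventually (ge_mem_nhds hη))
  refine ⟨max (max k₁ k₂) 1, fun k hk M a hM hlogM => ?_⟩
  have hk1 : 1 ≤ k := (le_max_right _ _).trans hk
  have hkk1 : k₁ ≤ k := (le_max_left _ _).trans ((le_max_left _ _).trans hk)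
  have hkk2 : k₂ ≤ k := (le_max_right _ _).trans ((le_max_left _ _).trans hk)
  have hk0 : (0 : ℝ) ≤ k := Nat.cast_nonneg k
  have hM0 : (0 : ℝ) < M := by exact_mod_cast hM
  have hMle : (M : ℝ) ≤ Real.exp (e₀ * k) := (Real.log_le_iff_le_exp hM0).mp hlogM
  have hnn : ∀ n : ℕ, 0 ≤ wk k n := by
    intro n
    have := Real.log_natCast_nonneg n
    unfold wk; positivity
  -- summability of wk
  have hsumlog : Summable (fun n : ℕ => Real.log n * wk k n) := summable_log_wk k
  have hterm : ∀ n : ℕ, wk k n ≤ 2 * (Real.log n * wk k n) := by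
    intro n
    rcases Nat.lt_or_ge n 2 with h | h
    · have h3 : wk k n = 0 := by
        interval_cases n
        · unfold wk; simp
        · unfold wk; simp [Nat.one_le_iff_ne_zero.mp hk1]
      rw [h3]; simp
    · have h3 : Real.log 2 ≤ Real.log n := Real.log_le_log (by norm_num) (by exact_mod_cast h)
      have := hnn n
      nlinarith
  have hsum : Summable (fun n : ℕ => wk k n) := Summable.of_nonneg_of_le hnn hterm (hsumlog.mul_left 2)
  have hsumc : Summable (fun m : ℕ => if m ≡ a [MOD M] then wk k m else 0) :=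
    Summable.of_nonneg_of_le (fun n => by split_ifs; exact hnn n; exact le_refl _)
      (fun n => by split_ifs; exact le_refl _; exact hnn n) hsum
  have hsumt : Summable (fun n : ℕ => if n ∈ cenSet θ k then 0 else Real.log n * wk k n) :=
    Summable.of_nonneg_of_le
      (fun n => by
        split_ifs
        · exact le_refl _
        · exact mul_nonneg (Real.log_natCast_nonneg n) (hnn n))
      (fun n => by
        split_ifs
        · exact mul_nonneg (Real.log_natCast_nonneg n) (hnn n)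
        · exact le_refl _) hsumlog
  have h3 := smooth_ap k M a hk1 hM
  have h4 := hk₁ k hkk1
  -- splitting
  have h5 : ∑' m : ℕ, (if m ≡ a [MOD M] then wk k m else 0) =
      ∑ m ∈ (cenSet θ k).filter (fun m => m ≡ a [MOD M]), wk k m +
        ∑' m : ℕ, (if m ∈ cenSet θ k then 0 else if m ≡ a [MOD M] then wk k m else 0) := by
    have e1 : ∀ m : ℕ, (if m ≡ a [MOD M] then wk k m else 0) =
        (if m ∈ cenSet θ k then (if m ≡ a [MOD M] then wk k m else 0) else 0) +
        (if m ∈ cenSet θ k then 0 else if m ≡ a [MOD M] then wk k m else 0) := by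
      intro m
      by_cases hm : m ∈ cenSet θ k
      · simp [hm]
      · simp [hm]
    have s1 : HasSum (fun m : ℕ => if m ∈ cenSet θ k then (if m ≡ a [MOD M] then wk k m else 0) else 0)
        (∑ m ∈ (cenSet θ k).filter (fun m => m ≡ a [MOD M]), wk k m) := by
      have e2 : ∑ m ∈ (cenSet θ k).filter (fun m => m ≡ a [MOD M]), wk k m =
          ∑ m ∈ cenSet θ k, (if m ∈ cenSet θ k then (if m ≡ a [MOD M] then wk k m else 0) else 0) := by
        rw [Finset.sum_filter]
        exact Finset.sum_congr rfl (fun m hm => by simp [hm])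
      rw [e2]
      exact hasSum_sum_of_ne_finset_zero (fun m hm => by simp [hm])
    have s2 : Summable (fun m : ℕ => if m ∈ cenSet θ k then 0 else if m ≡ a [MOD M] then wk k m else 0) :=
      Summable.of_nonneg_of_le (fun n => by split_ifs <;> first | exact le_refl _ | exact hnn n)
        (fun n => by split_ifs <;> first | exact le_refl _ | exact hnn n) hsumc
    rw [tsum_congr e1, s1.summable.tsum_add s2, s1.tsum_eq]
  have h6 : ∑' m : ℕ, (if m ∈ cenSet θ k then 0 else if m ≡ a [MOD M] then wk k m else 0) ≤ 2 * Real.exp (-(c * k)) := by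
    have e1 : ∀ m : ℕ, (if m ∈ cenSet θ k then 0 else if m ≡ a [MOD M] then wk k m else 0) ≤
        2 * (if m ∈ cenSet θ k then 0 else Real.log m * wk k m) := by
      intro m
      by_cases hm : m ∈ cenSet θ k
      · simp [hm]
      · simp only [hm, if_false]
        split_ifs
        · exact hterm m
        · exact mul_nonneg (by norm_num) (mul_nonneg (Real.log_natCast_nonneg m) (hnn m))
    have s2 : Summable (fun m : ℕ => if m ∈ cenSet θ k then 0 else if m ≡ a [MOD M] then wk k m else 0) :=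
      Summable.of_nonneg_of_le (fun n => by split_ifs <;> first | exact le_refl _ | exact hnn n)
        (fun n => by split_ifs <;> first | exact le_refl _ | exact hnn n) hsumc
    have := Summable.tsum_le_tsum e1 s2 (hsumt.mul_left 2)
    rw [tsum_mul_left] at this
    linarith
  have h7 : 0 ≤ ∑' m : ℕ, (if m ∈ cenSet θ k then 0 else if m ≡ a [MOD M] then wk k m else 0) :=
    tsum_nonneg (fun n => by split_ifs <;> first | exact le_refl _ | exact hnn n)
  set T : ℝ := ∑' m : ℕ, (if m ∈ cenSet θ k then 0 else if m ≡ a [MOD M] then wk k m else 0) with hT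
  set S : ℝ := ∑ m ∈ (cenSet θ k).filter (fun m => m ≡ a [MOD M]), wk k m with hS
  rw [h5] at h3
  have h8 : (M : ℝ) * T ≤ 2 * Real.exp (-(c / 2 * k)) := by
    calc (M : ℝ) * T ≤ Real.exp (e₀ * k) * (2 * Real.exp (-(c * k))) := by gcongr
      _ ≤ Real.exp (c / 2 * k) * (2 * Real.exp (-(c * k))) := by gcongr
      _ = 2 * Real.exp (-(c / 2 * k)) := by
          rw [mul_left_comm, ← Real.exp_add]; congr 2; ring
  have h9 : 4 * (M : ℝ) / 2 ^ k ≤ 4 * Real.exp (-(1 / 8 * (k : ℝ))) := by
    have h10 : (2 : ℝ) ^ k = Real.exp (k * Real.log 2) := by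
      rw [Real.exp_nat_mul, Real.exp_log (by norm_num)]
    rw [h10, div_le_iff₀ (Real.exp_pos _), mul_assoc, ← Real.exp_add]
    have h11 : (M : ℝ) ≤ Real.exp (-(1 / 8 * (k : ℝ)) + k * Real.log 2) := by
      refine hMle.trans (Real.exp_le_exp.mpr ?_)
      nlinarith
    linarith
  have h12 := hk₂ k hkk2
  have h13 : 0 ≤ Real.exp (-(1 / 8 * (k : ℝ))) := (Real.exp_pos _).le
  have h14 : 0 ≤ (M : ℝ) * T := by positivity
  rw [abs_le] at h3 ⊢
  have h15 : (M : ℝ) * (S + T) = M * S + M * T := by ring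
  rw [h15] at h3
  constructor <;> linarith [h3.1, h3.2]

end Pool.Agent.MG
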