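import Mathlib
import Pool.Agent.Lib.MP_bae66e_nt.MG.T4a
import Pool.Agent.Lib.MP_bae66e_nt.MG.P1a
import Pool.Agent.Lib.MP_bae66e_nt.Mg.G126
import Pool.Agent.Lib.MP_bae66e_nt.MG.S3c

set_option autoImplicit false

namespace Pool.Agent.MG

open Pool.Agent.GM

private lemma A2_wk_nonneg (k n : ℕ) : 0 ≤ wk k n := by
  unfold wk
  have := Real.log_natCast_nonneg n
  positivity

private lemma A2_piR_mono {x y : ℝ} (h : x ≤ y) : piR x ≤ piR y := by
  unfold piR
  exact_mod_cast Nat.monotone_primeCounting (Nat.floor_mono h)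

private lemma A2_piR_nonneg (x : ℝ) : 0 ≤ piR x := by
  unfold piR
  positivity

/-- A3. PROOF. For central `m ≡ a` mod `M` (`M = Mz z (insert p₁ D₀)`), `sing m` and `sing a` differ by
factors `1 + η/8` in both directions (`sing_near`, `log m ≤ (1+θ)k ≤ 2k`, `log a ≤ 2k` by
hypothesis; congruence is symmetric), `piR y₋ ≤ piR (y(m)) ≤ piR y₊` (`scale_mono`, `mem_cenSet`, monotonicity
of `primeCounting`), and `M ∑ wk k m` over these `m` is within `η/8` of `1` (`central_ap`,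
`log M ≤ 2 z ≤ 2 e k ≤ e₀' k`). `sing > 0` by `sing_bounds` and `twinConst_pos`. -/
lemma TE_bounds (lam B β : ℝ) (hlam : 0 < lam) (hB : 1 < B) (θ : ℝ) (h0 : 0 < θ)
    (h1 : θ < 1 / 4) : ∃ e₀ : ℝ, 0 < e₀ ∧ ∀ e η : ℝ, 0 < e → e ≤ e₀ → 0 < η →
    ∃ K k₀ : ℕ, ∀ k : ℕ, k₀ ≤ k → ∀ z : ℕ, e * k - 1 ≤ z → (z : ℝ) ≤ e * k →
      ∀ (p₁ : ℕ) (D₀ : Finset ℕ), Adm K k z p₁ D₀ → ∀ a : ℕ, 1 ≤ a → Real.log a ≤ 2 * k →
        (1 - η) * sing a * piR (scale lam B β ((1 - θ) * k))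
          ≤ ((Mz z (insert p₁ D₀) : ℕ) : ℝ) * TE θ lam B β k (Mz z (insert p₁ D₀)) a ∧
        ((Mz z (insert p₁ D₀) : ℕ) : ℝ) * TE θ lam B β k (Mz z (insert p₁ D₀)) a
          ≤ (1 + η) * sing a * piR (scale lam B β ((1 + θ) * k)) := by
  obtain ⟨e₁, he1, hc⟩ := central_ap θ h0 (by linarith)
  obtain ⟨t₀, ht0, hmono⟩ := scale_mono lam B β hlam hB
  refine ⟨e₁ / 2, by positivity, fun e η he hee hη => ?_⟩
  set η' : ℝ := min η 1 / 8 with hη'
  have hη'0 : 0 < η' := by rw [hη']; positivity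
  have hη'1 : η' ≤ 1 / 8 := by
    rw [hη']; have := min_le_right η 1; linarith
  have hη'2 : 8 * η' ≤ η := by
    rw [hη']; have := min_le_left η 1; linarith
  obtain ⟨k₁, hk1⟩ := hc η' hη'0
  obtain ⟨K, k₂, hk2⟩ := sing_near e η' he hη'0
  refine ⟨K, max (max k₁ k₂) (⌈2 * t₀⌉₊ + 1), fun k hk z hz1 hz2 p₁ D₀ hadm a ha hla => ?_⟩
  have hkk1 : k₁ ≤ k := le_trans (le_trans (le_max_left _ _) (le_max_left _ _)) hk
  have hkk2 : k₂ ≤ k := le_trans (le_trans (le_max_right _ _) (le_max_left _ _)) hk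
  have hkk3 : ⌈2 * t₀⌉₊ + 1 ≤ k := le_trans (le_max_right _ _) hk
  have hk1' : 1 ≤ k := by omega
  have hkt : 2 * t₀ ≤ k := by
    have h3 : (⌈2 * t₀⌉₊ : ℝ) ≤ k := by exact_mod_cast (by omega : ⌈2 * t₀⌉₊ ≤ k)
    exact le_trans (Nat.le_ceil _) h3
  have hkpos : (1 : ℝ) ≤ k := by exact_mod_cast hk1'
  set M := Mz z (insert p₁ D₀) with hM
  have hM1 : 1 ≤ M := Mz_pos z _
  have hlogM : Real.log M ≤ e₁ * k := by
    have h3 := log_Mz_le z (insert p₁ D₀)
    rw [← hM] at h3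
    have h4 : 2 * (z : ℝ) ≤ 2 * (e * k) := by linarith
    have h5 : 2 * (e * k) ≤ e₁ * k := by nlinarith
    linarith
  have hcen := hk1 k hkk1 M a hM1 hlogM
  set S := (cenSet θ k).filter (fun m => m ≡ a [MOD M]) with hS
  set W := ∑ m ∈ S, wk k m with hW
  have hW1 : (M : ℝ) * W ≤ 1 + η' := by
    have := (abs_le.mp hcen).2; linarith
  have hW2 : 1 - η' ≤ (M : ℝ) * W := by
    have := (abs_le.mp hcen).1; linarith
  have hsa : 0 < sing a := by
    have h3 := (sing_bounds a ha).1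
    have h4 := twinConst_pos.1
    linarith
  -- facts for the members of `S`
  have hmem : ∀ m ∈ S, 1 ≤ m ∧ (1 - θ) * k ≤ Real.log m ∧ Real.log m ≤ (1 + θ) * k ∧
      m ≡ a [MOD M] := by
    intro m hm
    rw [hS, Finset.mem_filter, mem_cenSet hk1' (by linarith)] at hm
    refine ⟨?_, hm.1.1, hm.1.2, hm.2⟩
    rcases Nat.eq_zero_or_pos m with h | h
    · have h3 := hm.1.1
      rw [h] at h3
      simp at h3
      nlinarith
    · exact h
  have hsm1 : ∀ m ∈ S, sing m ≤ (1 + η') * sing a := by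
    intro m hm
    obtain ⟨h3, h4, h5, h6⟩ := hmem m hm
    exact hk2 k hkk2 z p₁ D₀ hz1 hadm m a h3 ha (by nlinarith) h6
  have hsm2 : ∀ m ∈ S, (1 - η') * sing a ≤ sing m := by
    intro m hm
    obtain ⟨h3, h4, h5, h6⟩ := hmem m hm
    have h7 := hk2 k hkk2 z p₁ D₀ hz1 hadm a m ha h3 hla h6.symm
    have h8 : 0 < sing m := by
      have h9 := (sing_bounds m h3).1
      have h10 := twinConst_pos.1
      linarith
    nlinarith [mul_pos hη'0 h8, mul_pos (mul_pos hη'0 hη'0) h8]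
  have hp1 : ∀ m ∈ S, piR (scale lam B β ((1 - θ) * k)) ≤ piR (scale lam B β (Real.log m)) := by
    intro m hm
    obtain ⟨h3, h4, h5, h6⟩ := hmem m hm
    exact A2_piR_mono (hmono _ _ (by nlinarith) h4)
  have hp2 : ∀ m ∈ S, piR (scale lam B β (Real.log m)) ≤ piR (scale lam B β ((1 + θ) * k)) := by
    intro m hm
    obtain ⟨h3, h4, h5, h6⟩ := hmem m hm
    exact A2_piR_mono (hmono _ _ (by nlinarith) h5)
  have hTE : TE θ lam B β k M a = ∑ m ∈ S, wk k m * (sing m * piR (scale lam B β (Real.log m))) :=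
    rfl
  set P₁ := piR (scale lam B β ((1 - θ) * k)) with hP1
  set P₂ := piR (scale lam B β ((1 + θ) * k)) with hP2
  have hP1n : 0 ≤ P₁ := A2_piR_nonneg _
  have hP2n : 0 ≤ P₂ := A2_piR_nonneg _
  have hM0 : (0 : ℝ) ≤ (M : ℝ) := by positivity
  constructor
  · have h3 : W * ((1 - η') * sing a * P₁) ≤ TE θ lam B β k M a := by
      rw [hTE, hW, Finset.sum_mul]
      refine Finset.sum_le_sum fun m hm => mul_le_mul_of_nonneg_left ?_ (A2_wk_nonneg k m)
      have h4 : 0 ≤ (1 - η') * sing a := mul_nonneg (by linarith) hsa.le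
      exact mul_le_mul (hsm2 m hm) (hp1 m hm) hP1n (le_trans h4 (hsm2 m hm))
    have h4 : 0 ≤ (1 - η') * sing a * P₁ := mul_nonneg (mul_nonneg (by linarith) hsa.le) hP1n
    have h5 : 0 ≤ sing a * P₁ := mul_nonneg hsa.le hP1n
    calc (1 - η) * sing a * P₁ = (1 - η) * (sing a * P₁) := by ring
      _ ≤ ((1 - η') * (1 - η')) * (sing a * P₁) := by
          refine mul_le_mul_of_nonneg_right ?_ h5
          nlinarith
      _ = (1 - η') * ((1 - η') * sing a * P₁) := by ring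
      _ ≤ ((M : ℝ) * W) * ((1 - η') * sing a * P₁) := mul_le_mul_of_nonneg_right hW2 h4
      _ = (M : ℝ) * (W * ((1 - η') * sing a * P₁)) := by ring
      _ ≤ (M : ℝ) * TE θ lam B β k M a := mul_le_mul_of_nonneg_left h3 hM0
  · have h3 : TE θ lam B β k M a ≤ W * ((1 + η') * sing a * P₂) := by
      rw [hTE, hW, Finset.sum_mul]
      refine Finset.sum_le_sum fun m hm => mul_le_mul_of_nonneg_left ?_ (A2_wk_nonneg k m)
      exact mul_le_mul (hsm1 m hm) (hp2 m hm) (A2_piR_nonneg _)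
        (mul_nonneg (by linarith) hsa.le)
    have h4 : 0 ≤ (1 + η') * sing a * P₂ := mul_nonneg (mul_nonneg (by linarith) hsa.le) hP2n
    have h5 : 0 ≤ sing a * P₂ := mul_nonneg hsa.le hP2n
    calc (M : ℝ) * TE θ lam B β k M a ≤ (M : ℝ) * (W * ((1 + η') * sing a * P₂)) :=
          mul_le_mul_of_nonneg_left h3 hM0
      _ = ((M : ℝ) * W) * ((1 + η') * sing a * P₂) := by ring
      _ ≤ (1 + η') * ((1 + η') * sing a * P₂) := mul_le_mul_of_nonneg_right hW1 h4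
      _ = ((1 + η') * (1 + η')) * (sing a * P₂) := by ring
      _ ≤ (1 + η) * (sing a * P₂) := by
          refine mul_le_mul_of_nonneg_right ?_ h5
          nlinarith
      _ = (1 + η) * sing a * P₂ := by ring

end Pool.Agent.MG
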