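import Mathlib
import Pool.Agent.Lib.MP_bae66e_nt.Mg.G034

set_option autoImplicit false

namespace Pool.Agent.MG

open Pool.Agent.GM

/-- the weighted sums over the rows `a` -/
noncomputable def SA (θ lam B β : ℝ) (k z M : ℕ) (v₁ v₂ : ℝ) : ℝ :=
  ∑ a ∈ aSet z v₁ v₂, TA θ lam B β k M a / a

noncomputable def SE (θ lam B β : ℝ) (k z M : ℕ) (v₁ v₂ : ℝ) : ℝ :=
  ∑ a ∈ aSet z v₁ v₂, TE θ lam B β k M a / a

end Pool.Agent.MG
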