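import Mathlib
import Pool.Agent.Lib.MP_bae66e_nt.Mg.G034

set_option autoImplicit false

namespace Pool.Agent.MG

open Pool.Agent.GM

lemma R1a_log_pow (ε : ℝ) (hε : 0 < ε) : ∃ k₀ : ℕ, ∀ k : ℕ, k₀ ≤ k →
    (Real.log k) ^ 4 ≤ ε * (k : ℝ) ^ ((1 : ℝ) / 4) := by
  have h := (isLittleO_log_rpow_rpow_atTop (s := 1 / 4) 4 (by norm_num)).bound hε
  have h2 := tendsto_natCast_atTop_atTop.eventually h
  rw [Filter.eventually_atTop] at h2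
  obtain ⟨k₀, hk₀⟩ := h2
  refine ⟨k₀ + 1, fun k hk => ?_⟩
  have h3 := hk₀ k (by omega)
  have hk1 : (1 : ℝ) ≤ k := by exact_mod_cast (by omega : 1 ≤ k)
  have hl : 0 ≤ Real.log k := Real.log_nonneg hk1
  rw [Real.norm_of_nonneg (Real.rpow_nonneg hl _),
    Real.norm_of_nonneg (Real.rpow_nonneg (by linarith) _)] at h3
  have e : (Real.log k) ^ (4 : ℝ) = (Real.log k) ^ 4 := by
    rw [← Real.rpow_natCast]; norm_num
  rw [e] at h3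
  exact h3

lemma R1a_root_lt {k z p : ℕ} (hz : Real.sqrt k ≤ z) (hp : z < p ^ 2) :
    (k : ℝ) ^ ((1 : ℝ) / 4) < p := by
  have h1 : ((k : ℝ) ^ ((1 : ℝ) / 4)) ^ 2 = Real.sqrt k := by
    rw [Real.sqrt_eq_rpow, ← Real.rpow_natCast, ← Real.rpow_mul (Nat.cast_nonneg k)]
    norm_num
  have h2 : (z : ℝ) < (p : ℝ) ^ 2 := by exact_mod_cast hp
  have h3 : ((k : ℝ) ^ ((1 : ℝ) / 4)) ^ 2 < (p : ℝ) ^ 2 := by
    rw [h1]; linarith
  exact lt_of_pow_lt_pow_left₀ 2 (Nat.cast_nonneg p) h3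

/-- the sum of the reciprocals of the deleted primes is small -/
lemma R1a_sum_D_le (η : ℝ) (hη : 0 < η) : ∃ K k₀ : ℕ, ∀ k : ℕ, k₀ ≤ k → ∀ z p₁ : ℕ,
    ∀ D₀ : Finset ℕ, Real.sqrt k ≤ z → Adm K k z p₁ D₀ →
      ∑ p ∈ insert p₁ D₀, (1 / (p : ℝ)) ≤ η := by
  obtain ⟨K, hK⟩ := exists_nat_ge (2 / η)
  obtain ⟨k₀, hk₀⟩ := R1a_log_pow (η / 2) (by positivity)
  refine ⟨K + 1, k₀ + 1, ?_⟩
  intro k hk z p₁ D₀ hz hA
  obtain ⟨hp, hKp, -, hD, hcard⟩ := hA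
  have hp0 : (0 : ℝ) < p₁ := by exact_mod_cast hp.pos
  have hk0 : (0 : ℝ) < k := by exact_mod_cast (by omega : 0 < k)
  have h1 : 1 / (p₁ : ℝ) ≤ η / 2 := by
    rw [div_le_div_iff₀ hp0 (by norm_num)]
    have h2 : (K : ℝ) ≤ p₁ := by exact_mod_cast (by omega : K ≤ p₁)
    have h3 : 2 / η ≤ p₁ := hK.trans h2
    rw [div_le_iff₀ hη] at h3
    linarith
  have hr : 0 < (k : ℝ) ^ ((1 : ℝ) / 4) := Real.rpow_pos_of_pos hk0 _
  have h2 : ∑ p ∈ D₀, (1 / (p : ℝ)) ≤ η / 2 := by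
    have h3 : ∀ p ∈ D₀, 1 / (p : ℝ) ≤ 1 / (k : ℝ) ^ ((1 : ℝ) / 4) := by
      intro p hp'
      have h4 := hD hp'
      unfold Pz at h4
      rw [Finset.mem_filter] at h4
      exact one_div_le_one_div_of_le hr (R1a_root_lt hz h4.2.2).le
    calc ∑ p ∈ D₀, (1 / (p : ℝ)) ≤ ∑ _p ∈ D₀, 1 / (k : ℝ) ^ ((1 : ℝ) / 4) :=
          Finset.sum_le_sum h3
      _ = D₀.card * (1 / (k : ℝ) ^ ((1 : ℝ) / 4)) := by
          rw [Finset.sum_const, nsmul_eq_mul]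
      _ ≤ (Real.log k) ^ 4 * (1 / (k : ℝ) ^ ((1 : ℝ) / 4)) :=
          mul_le_mul_of_nonneg_right hcard (by positivity)
      _ ≤ (η / 2 * (k : ℝ) ^ ((1 : ℝ) / 4)) * (1 / (k : ℝ) ^ ((1 : ℝ) / 4)) :=
          mul_le_mul_of_nonneg_right (hk₀ k (by omega)) (by positivity)
      _ = η / 2 := by field_simp
  by_cases h : p₁ ∈ D₀
  · rw [Finset.insert_eq_of_mem h]
    linarith
  · rw [Finset.sum_insert h]
    linarith

lemma R1a_prod_ge (s : Finset ℕ) (f : ℕ → ℝ) (h0 : ∀ p ∈ s, 0 ≤ f p) (h1 : ∀ p ∈ s, f p ≤ 1) :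
    1 - ∑ p ∈ s, f p ≤ ∏ p ∈ s, (1 - f p) := by
  classical
  induction s using Finset.induction_on with
  | empty => simp
  | insert a s ha ih =>
    rw [Finset.sum_insert ha, Finset.prod_insert ha]
    have h2 := ih (fun p hp => h0 p (Finset.mem_insert_of_mem hp))
      (fun p hp => h1 p (Finset.mem_insert_of_mem hp))
    have h3 := h0 a (Finset.mem_insert_self a s)
    have h4 := h1 a (Finset.mem_insert_self a s)
    have h5 : 0 ≤ ∑ p ∈ s, f p :=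
      Finset.sum_nonneg (fun p hp => h0 p (Finset.mem_insert_of_mem hp))
    have h6 := mul_le_mul_of_nonneg_left h2 (by linarith : 0 ≤ 1 - f a)
    nlinarith [mul_nonneg h3 h5]

/-- R1a. PROOF. `∏_{p ∈ D} (1 - 1/p)` with `D = insert p₁ D₀` is between
`1 - 1/K - (log k)^4/√z` and `1` (`∏ (1 - x_i) ≥ 1 - ∑ x_i`; the elements of `Pz z` exceed `√z`,
`z ≥ √k`), so it is `≥ 1 - η` for `K`, `k` large. -/
lemma prod_D_ge (η : ℝ) (hη : 0 < η) : ∃ K k₀ : ℕ, ∀ k : ℕ, k₀ ≤ k → ∀ z p₁ : ℕ,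
    ∀ D₀ : Finset ℕ, Real.sqrt k ≤ z → Adm K k z p₁ D₀ →
      1 - η ≤ ∏ p ∈ insert p₁ D₀, (1 - 1 / (p : ℝ)) := by
  obtain ⟨K, k₀, h⟩ := R1a_sum_D_le η hη
  refine ⟨K, k₀, ?_⟩
  intro k hk z p₁ D₀ hz hA
  have h1 := h k hk z p₁ D₀ hz hA
  have h2 := R1a_prod_ge (insert p₁ D₀) (fun p => 1 / (p : ℝ)) (fun p _ => by positivity)
    (fun p _ => by
      rcases Nat.eq_zero_or_pos p with h0 | h0
      · rw [h0]; simp
      · rw [div_le_one (by exact_mod_cast h0)]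
        exact_mod_cast h0)
  linarith

end Pool.Agent.MG
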