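import Mathlib
import Pool.Agent.Lib.MP_bae66e_nt.Mg.G034
import Pool.Agent.Lib.MP_bae66e_nt.MA.Iface

set_option autoImplicit false

namespace Pool.Agent.MG

open Pool.Agent.GM

/-- `n ↦ 1/n` as a homomorphism -/
noncomputable def R2a_inv : ℕ →* ℝ where
  toFun n := (n : ℝ)⁻¹
  map_one' := by simp
  map_mul' a b := by push_cast; rw [mul_inv]

/-- a sum over numbers with prime factors in `S` is at most the Euler product -/
lemma R2a_euler (S B : Finset ℕ) (hS : ∀ p ∈ S, p.Prime)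
    (hB : ∀ b ∈ B, b ≠ 0 ∧ ∀ p, p.Prime → p ∣ b → p ∈ S) :
    ∑ b ∈ B, (1 : ℝ) / b ≤ (∏ p ∈ S, (1 - 1 / (p : ℝ)))⁻¹ := by
  have h := (EulerProduct.summable_and_hasSum_factoredNumbers_prod_filter_prime_geometric
    (f := R2a_inv) (fun {p} hp => by
      have h1 : (1 : ℝ) < p := by exact_mod_cast hp.one_lt
      show ‖((p : ℝ))⁻¹‖ < 1
      rw [norm_inv, Real.norm_of_nonneg (by linarith)]
      exact inv_lt_one_of_one_lt₀ h1) S).2
  have e : ∏ p ∈ S with p.Prime, (1 - R2a_inv p)⁻¹ = (∏ p ∈ S, (1 - 1 / (p : ℝ)))⁻¹ := by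
    rw [Finset.filter_true_of_mem hS, Finset.prod_inv_distrib]
    congr 1
    apply Finset.prod_congr rfl
    intro p _
    show 1 - ((p : ℝ))⁻¹ = _
    rw [one_div]
  rw [e] at h
  have h2 : HasSum ((Nat.factoredNumbers S).indicator (fun m : ℕ => (m : ℝ)⁻¹))
      (∏ p ∈ S, (1 - 1 / (p : ℝ)))⁻¹ := by
    rw [← hasSum_subtype_iff_indicator]
    exact h
  have h3 := sum_le_hasSum B (fun b _ => Set.indicator_nonneg (fun x _ => by positivity) b) h2
  refine le_trans (le_of_eq ?_) h3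
  apply Finset.sum_congr rfl
  intro b hb
  obtain ⟨hb0, hb1⟩ := hB b hb
  rw [Set.indicator_of_mem, one_div]
  rw [Nat.mem_factoredNumbers]
  refine ⟨hb0, fun p hp => ?_⟩
  exact hb1 p (Nat.prime_of_mem_primeFactorsList hp) (Nat.dvd_of_mem_primeFactorsList hp)

/-- R2a. Logarithmic count of the rough numbers is bounded. PROOF. A number `b ≤ z^v` coprime to
`primorial z` is `1` or has all its prime factors in `(z, z^v]`, so
`∑ 1/b ≤ ∏_{z < p ≤ z^v} (1 - 1/p)^(-1) = ∏_{p ≤ z} (1 - 1/p) / ∏_{p ≤ z^v} (1 - 1/p)`, which by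
`MA.mertens3` tends to `v`; hence it is `≤ 2 v` for large `z`. -/
lemma rough_sum_bounded (v : ℝ) (hv : 1 ≤ v) : ∃ z₀ : ℕ, ∀ z : ℕ, z₀ ≤ z →
    ∑ b ∈ (Finset.Icc 1 ⌊(z : ℝ) ^ v⌋₊).filter (fun b => b.Coprime (primorial z)), (1 : ℝ) / b
      ≤ 2 * v := by
  set g := Real.exp (-Real.eulerMascheroniConstant) with hg
  have hg0 : 0 < g := Real.exp_pos _
  have hlim := Metric.tendsto_atTop.mp Pool.Agent.MA.mertens3 (g / 3) (by positivity)
  obtain ⟨z₀, hz₀⟩ := hlim
  refine ⟨z₀ + 2, fun z hz => ?_⟩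
  have hz2 : (2 : ℝ) ≤ z := by exact_mod_cast (by omega : 2 ≤ z)
  have hzp : (z : ℝ) ≤ (z : ℝ) ^ v := by
    calc (z : ℝ) = (z : ℝ) ^ (1 : ℝ) := (Real.rpow_one _).symm
      _ ≤ _ := Real.rpow_le_rpow_of_exponent_le (by linarith) hv
  set N := ⌊(z : ℝ) ^ v⌋₊ with hN
  have hzN : z ≤ N := Nat.le_floor hzp
  have h1 := hz₀ z (by omega)
  have h2 := hz₀ N (by omega)
  rw [Real.dist_eq, ← hg] at h1 h2
  set S := (Finset.Ioc z N).filter Nat.Prime with hS
  have hPN : ∏ p ∈ (Finset.range (N + 1)).filter Nat.Prime, (1 - 1 / (p : ℝ))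
      = (∏ p ∈ (Finset.range (z + 1)).filter Nat.Prime, (1 - 1 / (p : ℝ)))
        * ∏ p ∈ S, (1 - 1 / (p : ℝ)) := by
    rw [← Finset.prod_union]
    · apply Finset.prod_congr _ fun _ _ => rfl
      ext p
      simp only [hS, Finset.mem_union, Finset.mem_filter, Finset.mem_range, Finset.mem_Ioc]
      constructor
      · rintro ⟨h3, h4⟩
        rcases le_or_gt p z with h5 | h5
        · exact Or.inl ⟨by omega, h4⟩
        · exact Or.inr ⟨⟨h5, by omega⟩, h4⟩
      · rintro (⟨h3, h4⟩ | ⟨⟨h3, h4⟩, h5⟩)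
        · exact ⟨by omega, h4⟩
        · exact ⟨by omega, h5⟩
    · rw [Finset.disjoint_left]
      intro p hp hp'
      simp only [hS, Finset.mem_filter, Finset.mem_range, Finset.mem_Ioc] at hp hp'
      omega
  have hpos : ∀ s : Finset ℕ, (∀ p ∈ s, p.Prime) → 0 < ∏ p ∈ s, (1 - 1 / (p : ℝ)) := by
    intro s hs
    apply Finset.prod_pos
    intro p hp
    have h3 : (1 : ℝ) < p := by exact_mod_cast (hs p hp).one_lt
    have h4 : 1 / (p : ℝ) < 1 := by rw [div_lt_one (by linarith)]; exact h3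
    linarith
  have hP0 := hpos ((Finset.range (z + 1)).filter Nat.Prime)
    (fun p hp => (Finset.mem_filter.mp hp).2)
  have hS0 := hpos S (fun p hp => (Finset.mem_filter.mp hp).2)
  rw [hPN] at h2
  set P := ∏ p ∈ (Finset.range (z + 1)).filter Nat.Prime, (1 - 1 / (p : ℝ)) with hP
  set Q := ∏ p ∈ S, (1 - 1 / (p : ℝ)) with hQ
  have hlz : 0 < Real.log z := Real.log_pos (by linarith)
  have hzN' : (z : ℝ) ≤ N := by exact_mod_cast hzN
  have hlN : 0 < Real.log N := Real.log_pos (by linarith)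
  have hlN2 : Real.log N ≤ v * Real.log z := by
    rw [← Real.log_rpow (by linarith)]
    exact Real.log_le_log (by linarith) (Nat.floor_le (by positivity))
  have h3 := (abs_lt.mp h1).2
  have h4 := (abs_lt.mp h2).1
  -- `P log z ≤ 4g/3`, `P Q log N ≥ 2g/3`
  have h5 : P * Real.log z ≤ 2 * (P * Q * Real.log N) := by linarith
  have h6 : Real.log z ≤ 2 * (Q * Real.log N) := by
    have : P * Real.log z ≤ P * (2 * (Q * Real.log N)) := by linarith
    exact le_of_mul_le_mul_left this hP0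
  have h7 : Q⁻¹ ≤ 2 * v := by
    rw [inv_le_iff_one_le_mul₀ hS0]
    have h8 : Real.log z ≤ 2 * (Q * (v * Real.log z)) := by
      have := mul_le_mul_of_nonneg_left hlN2 hS0.le
      linarith
    have h9 : 1 * Real.log z ≤ (2 * v * Q) * Real.log z := by linarith
    exact le_of_mul_le_mul_right h9 hlz
  refine le_trans (R2a_euler S _ (fun p hp => (Finset.mem_filter.mp hp).2) ?_) h7
  intro b hb
  rw [Finset.mem_filter, Finset.mem_Icc] at hb
  obtain ⟨⟨hb1, hb2⟩, hb3⟩ := hb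
  refine ⟨by omega, fun p hp hpb => ?_⟩
  rw [hS, Finset.mem_filter, Finset.mem_Ioc]
  refine ⟨⟨?_, (Nat.le_of_dvd (by omega) hpb).trans hb2⟩, hp⟩
  by_contra hc
  push Not at hc
  have h8 : p ∣ primorial z := by
    unfold primorial
    apply Finset.dvd_prod_of_mem
    rw [Finset.mem_filter, Finset.mem_range]
    exact ⟨by omega, hp⟩
  have h9 := Nat.dvd_gcd hpb h8
  rw [hb3] at h9
  exact hp.one_lt.ne' (Nat.dvd_one.mp h9)

end Pool.Agent.MG
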