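import Mathlib
import Pool.Agent.Lib.MP_bae66e_nt.MG.R1a
import Pool.Agent.Lib.MP_bae66e_nt.MG.R2a

set_option autoImplicit false

namespace Pool.Agent.MG

open Pool.Agent.GM

/-- multiples of `ℓ` -/
lemma R2b_mult (M A ℓ : ℕ) (hℓ : 1 ≤ ℓ) :
    ∑ b ∈ (Finset.Icc 1 A).filter (fun b => b.Coprime M), (if ℓ ∣ b then (1 : ℝ) / b else 0)
      ≤ (1 / (ℓ : ℝ)) * ∑ b ∈ (Finset.Icc 1 A).filter (fun b => b.Coprime M), (1 : ℝ) / b := by
  classical
  set B := (Finset.Icc 1 A).filter (fun b => b.Coprime M) with hB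
  rw [← Finset.sum_filter]
  have h1 : ∑ b ∈ B.filter (fun b => ℓ ∣ b), (1 : ℝ) / b
      = ∑ b ∈ B.filter (fun b => ℓ ∣ b), (1 / (ℓ : ℝ)) * (1 / ((b / ℓ : ℕ) : ℝ)) := by
    apply Finset.sum_congr rfl
    intro b hb
    rw [Finset.mem_filter] at hb
    have hl0 : (ℓ : ℝ) ≠ 0 := by
      have : (1 : ℝ) ≤ ℓ := by exact_mod_cast hℓ
      linarith
    have h0 : (b : ℝ) = ℓ * ((b / ℓ : ℕ) : ℝ) := by
      rw [← Nat.cast_mul, Nat.mul_div_cancel' hb.2]
    rw [h0]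
    have h2 : (((ℓ : ℝ) * ((b / ℓ : ℕ) : ℝ)) / ℓ) = ((b / ℓ : ℕ) : ℝ) := by field_simp
    rw [one_div_mul_one_div]
  rw [h1, ← Finset.mul_sum]
  apply mul_le_mul_of_nonneg_left _ (by positivity)
  have h2 : ∑ b ∈ B.filter (fun b => ℓ ∣ b), (1 : ℝ) / ((b / ℓ : ℕ) : ℝ)
      = ∑ c ∈ (B.filter (fun b => ℓ ∣ b)).image (fun b => b / ℓ), (1 : ℝ) / c := by
    rw [Finset.sum_image]
    intro x hx y hy hxy
    rw [Finset.mem_coe, Finset.mem_filter] at hx hy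
    have hxy' : x / ℓ = y / ℓ := hxy
    rw [← Nat.mul_div_cancel' hx.2, ← Nat.mul_div_cancel' hy.2, hxy']
  rw [h2]
  apply Finset.sum_le_sum_of_subset_of_nonneg
  · intro c hc
    rw [Finset.mem_image] at hc
    obtain ⟨b, hb, rfl⟩ := hc
    rw [Finset.mem_filter, hB, Finset.mem_filter, Finset.mem_Icc] at hb
    obtain ⟨⟨⟨hb1, hb2⟩, hb3⟩, hb4⟩ := hb
    rw [hB, Finset.mem_filter, Finset.mem_Icc]
    refine ⟨⟨Nat.div_pos (Nat.le_of_dvd (by omega) hb4) hℓ, (Nat.div_le_self b ℓ).trans hb2⟩, ?_⟩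
    exact Nat.Coprime.coprime_dvd_left (Nat.div_dvd_of_dvd hb4) hb3
  · intro c _ _
    positivity

/-- the numbers coprime to `M` but not to `primorial z` -/
lemma R2b_diff (z A : ℕ) (D : Finset ℕ) (hD : ∀ p ∈ D, p.Prime) :
    ∑ b ∈ (Finset.Icc 1 A).filter (fun b => b.Coprime (Mz z D) ∧ ¬ b.Coprime (primorial z)),
      (1 : ℝ) / b
    ≤ (∑ p ∈ D, 1 / (p : ℝ)) * ∑ b ∈ (Finset.Icc 1 A).filter (fun b => b.Coprime (Mz z D)),
      (1 : ℝ) / b := by
  set B := (Finset.Icc 1 A).filter (fun b => b.Coprime (Mz z D)) with hB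
  calc ∑ b ∈ (Finset.Icc 1 A).filter (fun b => b.Coprime (Mz z D) ∧ ¬ b.Coprime (primorial z)),
      (1 : ℝ) / b
      ≤ ∑ b ∈ (Finset.Icc 1 A).filter
          (fun b => b.Coprime (Mz z D) ∧ ¬ b.Coprime (primorial z)),
          ∑ ℓ ∈ D, (if ℓ ∣ b then (1 : ℝ) / b else 0) := by
        apply Finset.sum_le_sum
        intro b hb
        rw [Finset.mem_filter, Finset.mem_Icc] at hb
        obtain ⟨⟨hb1, hb2⟩, hb3, hb4⟩ := hb
        obtain ⟨p, hp, hpb, hpz⟩ := Nat.Prime.not_coprime_iff_dvd.mp hb4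
        have hpz' : p ≤ z := hp.dvd_primorial_iff.mp hpz
        have hpD : p ∈ D := by
          by_contra hc
          have h1 := (prime_dvd_Mz z D p hp).mpr ⟨hpz', hc⟩
          have h2 := Nat.dvd_gcd hpb h1
          rw [hb3] at h2
          exact hp.one_lt.ne' (Nat.dvd_one.mp h2)
        have h3 := Finset.single_le_sum (f := fun ℓ => (if ℓ ∣ b then (1 : ℝ) / b else 0))
          (s := D) (fun ℓ _ => by split_ifs <;> positivity) hpD
        simp only [if_pos hpb] at h3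
        exact h3
    _ ≤ ∑ b ∈ B, ∑ ℓ ∈ D, (if ℓ ∣ b then (1 : ℝ) / b else 0) := by
        apply Finset.sum_le_sum_of_subset_of_nonneg
        · intro b hb
          rw [Finset.mem_filter] at hb
          rw [hB, Finset.mem_filter]
          exact ⟨hb.1, hb.2.1⟩
        · intro b _ _
          apply Finset.sum_nonneg
          intro ℓ _
          split_ifs <;> positivity
    _ = ∑ ℓ ∈ D, ∑ b ∈ B, (if ℓ ∣ b then (1 : ℝ) / b else 0) := Finset.sum_comm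
    _ ≤ ∑ ℓ ∈ D, (1 / (ℓ : ℝ)) * ∑ b ∈ B, (1 : ℝ) / b :=
        Finset.sum_le_sum fun ℓ hℓ => R2b_mult (Mz z D) A ℓ (hD ℓ hℓ).one_le
    _ = _ := by rw [Finset.sum_mul]

/-- R2b. PROOF. `M = Mz z (insert p₁ D₀)`, `D = insert p₁ D₀`. A number coprime to `M` is coprime
to `primorial z` or divisible by some `ℓ ∈ D`. Writing `b = b' c` with `b'` composed of primes in
`D` and `c` coprime to `primorial z`,
`∑_{b ≤ z^v₂, (b, M) = 1} 1/b ≤ ∏_{ℓ ∈ D} (1 - 1/ℓ)^(-1) * ∑ 1/c ≤ 2 * 2 v₂` (`prod_D_ge` with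
`η = 1/2`, `rough_sum_bounded`), and the `b` divisible by some `ℓ ∈ D` contribute at most
`∑_{ℓ ∈ D} (1/ℓ) * 4 v₂ ≤ (1/K + (log k)^4/√z) 4 v₂ ≤ η/2`. For the others use the hypothesis `hω`. -/
lemma rough_sum_near (ω : ℝ → ℝ) (hω : BuchLog ω) (v₁ v₂ : ℝ) (h1 : 1 ≤ v₁) (h2 : v₁ < v₂)
    (η : ℝ) (hη : 0 < η) : ∃ K k₀ : ℕ, ∀ k : ℕ, k₀ ≤ k → ∀ z p₁ : ℕ,
    ∀ D₀ : Finset ℕ, Real.sqrt k ≤ z → Adm K k z p₁ D₀ →
      |∑ b ∈ (Finset.Ioc ⌊(z : ℝ) ^ v₁⌋₊ ⌊(z : ℝ) ^ v₂⌋₊).filter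
          (fun b => b.Coprime (Mz z (insert p₁ D₀))), (1 : ℝ) / b - ∫ x in v₁..v₂, ω x| ≤ η := by
  obtain ⟨z₁, hz₁⟩ := Metric.tendsto_atTop.mp (hω v₁ v₂ h1 h2) (η / 2) (by positivity)
  obtain ⟨z₂, hz₂⟩ := rough_sum_bounded v₂ (by linarith)
  obtain ⟨K, k₀, hs⟩ := R1a_sum_D_le (min (1 / 2) (η / (8 * v₂))) (lt_min (by norm_num)
    (by have : 0 < v₂ := by linarith
        positivity))
  refine ⟨K, max k₀ ((z₁ + z₂) ^ 2), ?_⟩
  intro k hk z p₁ D₀ hz hA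
  have hk1 : k₀ ≤ k := (le_max_left _ _).trans hk
  have hk2 : (z₁ + z₂) ^ 2 ≤ k := (le_max_right _ _).trans hk
  have hz3 : z₁ + z₂ ≤ z := by
    have h3 : ((z₁ + z₂ : ℕ) : ℝ) ≤ Real.sqrt k := by
      apply Real.le_sqrt_of_sq_le
      exact_mod_cast hk2
    exact_mod_cast h3.trans hz
  have hσ := hs k hk1 z p₁ D₀ hz hA
  have hA1 := hz₁ z (by omega)
  have hA2 := hz₂ z (by omega)
  rw [Real.dist_eq] at hA1
  obtain ⟨hp, hKp, hpz, hD, hcard⟩ := hA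
  set D := insert p₁ D₀ with hDdef
  have hDp : ∀ p ∈ D, p.Prime := by
    intro p hp'
    rcases Finset.mem_insert.mp hp' with rfl | h3
    · exact hp
    · have h4 := hD h3
      unfold Pz at h4
      rw [Finset.mem_filter] at h4
      exact h4.2.1
  set M := Mz z D with hM
  have hMd : M ∣ primorial z := by
    have h3 := Mz_dvd z D
    have h4 : Mz z ∅ = primorial z := by
      unfold Mz primorial
      apply Finset.prod_congr _ fun _ _ => rfl
      ext p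
      simp
    rw [h4] at h3
    exact h3
  set A₁ := ⌊(z : ℝ) ^ v₁⌋₊ with hA₁
  set A₂ := ⌊(z : ℝ) ^ v₂⌋₊ with hA₂
  have hdiff := R2b_diff z A₂ D hDp
  rw [← hM] at hdiff
  set σ := ∑ p ∈ D, 1 / (p : ℝ) with hσd
  set SM := ∑ b ∈ (Finset.Icc 1 A₂).filter (fun b => b.Coprime M), (1 : ℝ) / b with hSM
  set T := ∑ b ∈ (Finset.Icc 1 A₂).filter (fun b => b.Coprime M ∧ ¬ b.Coprime (primorial z)),
      (1 : ℝ) / b with hT
  set Sz := ∑ b ∈ (Finset.Icc 1 A₂).filter (fun b => b.Coprime (primorial z)), (1 : ℝ) / b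
    with hSz
  have hSM0 : 0 ≤ SM := Finset.sum_nonneg fun b _ => by positivity
  have hsplit : SM = Sz + T := by
    rw [hSM, hSz, hT, ← Finset.sum_union]
    · apply Finset.sum_congr _ fun _ _ => rfl
      ext b
      simp only [Finset.mem_union, Finset.mem_filter]
      constructor
      · rintro ⟨h3, h4⟩
        by_cases h5 : b.Coprime (primorial z)
        · exact Or.inl ⟨h3, h5⟩
        · exact Or.inr ⟨h3, h4, h5⟩
      · rintro (⟨h3, h4⟩ | ⟨h3, h4, h5⟩)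
        · exact ⟨h3, Nat.Coprime.coprime_dvd_right hMd h4⟩
        · exact ⟨h3, h4⟩
    · rw [Finset.disjoint_left]
      intro b hb hb'
      rw [Finset.mem_filter] at hb hb'
      exact hb'.2.2 hb.2
  have hσ1 : σ ≤ 1 / 2 := hσ.trans (min_le_left _ _)
  have hσ2 : σ ≤ η / (8 * v₂) := hσ.trans (min_le_right _ _)
  have hv2 : 0 < v₂ := by linarith
  have hSM4 : SM ≤ 4 * v₂ := by
    have h3 : σ * SM ≤ 1 / 2 * SM := mul_le_mul_of_nonneg_right hσ1 hSM0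
    linarith
  have hT2 : T ≤ η / 2 := by
    have h3 : σ * SM ≤ η / (8 * v₂) * (4 * v₂) :=
      mul_le_mul hσ2 hSM4 hSM0 (by positivity)
    have h4 : η / (8 * v₂) * (4 * v₂) = η / 2 := by field_simp; norm_num
    linarith
  -- the sum over the interval
  have hint : ∑ b ∈ (Finset.Ioc A₁ A₂).filter (fun b => b.Coprime M), (1 : ℝ) / b
      = ∑ b ∈ (Finset.Ioc A₁ A₂).filter (fun b => b.Coprime (primorial z)), (1 : ℝ) / b
        + ∑ b ∈ (Finset.Ioc A₁ A₂).filter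
          (fun b => b.Coprime M ∧ ¬ b.Coprime (primorial z)), (1 : ℝ) / b := by
    rw [← Finset.sum_union]
    · apply Finset.sum_congr _ fun _ _ => rfl
      ext b
      simp only [Finset.mem_union, Finset.mem_filter]
      constructor
      · rintro ⟨h3, h4⟩
        by_cases h5 : b.Coprime (primorial z)
        · exact Or.inl ⟨h3, h5⟩
        · exact Or.inr ⟨h3, h4, h5⟩
      · rintro (⟨h3, h4⟩ | ⟨h3, h4, h5⟩)
        · exact ⟨h3, Nat.Coprime.coprime_dvd_right hMd h4⟩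
        · exact ⟨h3, h4⟩
    · rw [Finset.disjoint_left]
      intro b hb hb'
      rw [Finset.mem_filter] at hb hb'
      exact hb'.2.2 hb.2
  have hT0 : 0 ≤ ∑ b ∈ (Finset.Ioc A₁ A₂).filter
          (fun b => b.Coprime M ∧ ¬ b.Coprime (primorial z)), (1 : ℝ) / b :=
    Finset.sum_nonneg fun b _ => by positivity
  have hT1 : ∑ b ∈ (Finset.Ioc A₁ A₂).filter
          (fun b => b.Coprime M ∧ ¬ b.Coprime (primorial z)), (1 : ℝ) / b ≤ T := by
    apply Finset.sum_le_sum_of_subset_of_nonneg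
    · intro b hb
      rw [Finset.mem_filter, Finset.mem_Ioc] at hb
      rw [Finset.mem_filter, Finset.mem_Icc]
      exact ⟨⟨by omega, hb.1.2⟩, hb.2⟩
    · intro b _ _
      positivity
  rw [hint]
  have h3 := abs_lt.mp hA1
  rw [abs_le]
  constructor <;> linarith [h3.1, h3.2]

end Pool.Agent.MG
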