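import Mathlib
import Pool.Agent.Lib.MP_bae66e_nt.MG.R2b

set_option autoImplicit false

namespace Pool.Agent.MG

open Pool.Agent.GM

/-- a short block of reciprocals -/
lemma R3_block (c : ℕ → ℝ) (h0 : ∀ b, 0 ≤ c b) (h1 : ∀ b, c b ≤ 1) (a x y p : ℕ) (ha : 1 ≤ a)
    (hax : a ≤ x) (hxy : y ≤ x + p) :
    0 ≤ ∑ b ∈ Finset.Ioc x y, c b / b ∧ ∑ b ∈ Finset.Ioc x y, c b / b ≤ (p : ℝ) / a := by
  have ha0 : (0 : ℝ) < a := by exact_mod_cast ha
  constructor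
  · exact Finset.sum_nonneg fun b _ => div_nonneg (h0 b) (Nat.cast_nonneg b)
  · calc ∑ b ∈ Finset.Ioc x y, c b / b ≤ ∑ _b ∈ Finset.Ioc x y, 1 / (a : ℝ) := by
          apply Finset.sum_le_sum
          intro b hb
          rw [Finset.mem_Ioc] at hb
          have hb0 : (a : ℝ) ≤ b := by exact_mod_cast (by omega : a ≤ b)
          exact div_le_div₀ (by norm_num) (h1 b) ha0 hb0
      _ = ((y - x : ℕ) : ℝ) * (1 / (a : ℝ)) := by
          rw [Finset.sum_const, Nat.card_Ioc, nsmul_eq_mul]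
      _ ≤ (p : ℝ) * (1 / (a : ℝ)) := by
          apply mul_le_mul_of_nonneg_right _ (by positivity)
          exact_mod_cast (by omega : y - x ≤ p)
      _ = _ := by ring

lemma R3_compare (c : ℕ → ℝ) (h0 : ∀ b, 0 ≤ c b) (h1 : ∀ b, c b ≤ 1) (A₁ A₂ p : ℕ)
    (hp : p < A₁) (hA : A₁ ≤ A₂) :
    |∑ b ∈ Finset.Ioc (A₁ - p) (A₂ - p), c b / ((b : ℝ) + p) - ∑ b ∈ Finset.Ioc A₁ A₂, c b / b|
      ≤ 3 * p / ((A₁ - p : ℕ) : ℝ) := by
  set a := A₁ - p with ha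
  have ha1 : 1 ≤ a := by omega
  have ha0 : (0 : ℝ) < a := by exact_mod_cast ha1
  have hp0 : (0 : ℝ) ≤ p := Nat.cast_nonneg p
  set X := ∑ b ∈ Finset.Ioc a (A₂ - p), c b / b with hX
  -- first comparison
  have hX1 : 0 ≤ X - ∑ b ∈ Finset.Ioc a (A₂ - p), c b / ((b : ℝ) + p) ∧
      X - ∑ b ∈ Finset.Ioc a (A₂ - p), c b / ((b : ℝ) + p) ≤ p / a := by
    rw [hX, ← Finset.sum_sub_distrib]
    have h2 : ∀ b ∈ Finset.Ioc a (A₂ - p), 0 ≤ c b / b - c b / ((b : ℝ) + p) ∧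
        c b / b - c b / ((b : ℝ) + p) ≤ p * ((b : ℝ) ^ 2)⁻¹ := by
      intro b hb
      rw [Finset.mem_Ioc] at hb
      have hb0 : (0 : ℝ) < b := by exact_mod_cast (by omega : 0 < b)
      have e : c b / b - c b / ((b : ℝ) + p) = c b * (p / (b * (b + p))) := by
        field_simp
        ring
      rw [e]
      constructor
      · exact mul_nonneg (h0 b) (by positivity)
      · calc c b * (p / (b * (b + p))) ≤ 1 * (p / (b * (b + p))) :=
              mul_le_mul_of_nonneg_right (h1 b) (by positivity)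
          _ ≤ p * ((b : ℝ) ^ 2)⁻¹ := by
              rw [one_mul, div_eq_mul_inv]
              apply mul_le_mul_of_nonneg_left _ hp0
              apply inv_anti₀ (by positivity)
              nlinarith
    constructor
    · exact Finset.sum_nonneg fun b hb => (h2 b hb).1
    · refine (Finset.sum_le_sum fun b hb => (h2 b hb).2).trans ?_
      rw [← Finset.mul_sum]
      rcases le_or_gt a (A₂ - p) with h3 | h3
      · have h4 := sum_Ioc_inv_sq_le_sub (α := ℝ) (by omega : a ≠ 0) h3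
        have h5 : (0 : ℝ) ≤ ((A₂ - p : ℕ) : ℝ)⁻¹ := by positivity
        calc (p : ℝ) * ∑ b ∈ Finset.Ioc a (A₂ - p), ((b : ℝ) ^ 2)⁻¹ ≤ p * (a : ℝ)⁻¹ :=
              mul_le_mul_of_nonneg_left (by linarith) hp0
          _ = _ := by rw [div_eq_mul_inv]
      · rw [Finset.Ioc_eq_empty (by omega)]
        simp only [Finset.sum_empty, mul_zero]
        positivity
  -- second comparison
  have hb1 := R3_block c h0 h1 a a A₁ p ha1 le_rfl (by omega)
  have hb2 := R3_block c h0 h1 a (A₂ - p) A₂ p ha1 (by omega) (by omega)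
  have hs1 : ∑ b ∈ Finset.Ioc a A₂, c b / b
      = ∑ b ∈ Finset.Ioc a A₁, c b / b + ∑ b ∈ Finset.Ioc A₁ A₂, c b / b :=
    (Finset.sum_Ioc_consecutive _ (by omega) hA).symm
  have hs2 : ∑ b ∈ Finset.Ioc a A₂, c b / b
      = X + ∑ b ∈ Finset.Ioc (A₂ - p) A₂, c b / b :=
    (Finset.sum_Ioc_consecutive _ (by omega) (by omega)).symm
  have e3 : 3 * (p : ℝ) / a = p / a + p / a + p / a := by ring
  rw [e3, abs_le]
  have hpa : 0 ≤ (p : ℝ) / a := by positivity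
  constructor <;> linarith [hX1.1, hX1.2, hb1.1, hb1.2, hb2.1, hb2.2]

/-- the inner sum for an odd prime -/
lemma R3_inner (M A₁ A₂ p : ℕ) (hM : 2 ∣ M) (hpo : Odd p) (hp : p < A₁) :
    ∑ a ∈ (Finset.Ioc A₁ A₂).filter Even, (if (a - p).Coprime M then (1 : ℝ) / a else 0)
      = ∑ b ∈ Finset.Ioc (A₁ - p) (A₂ - p), (if b.Coprime M then (1 : ℝ) else 0)
        / ((b : ℝ) + p) := by
  have h1 : ∑ a ∈ (Finset.Ioc A₁ A₂).filter Even, (if (a - p).Coprime M then (1 : ℝ) / a else 0)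
      = ∑ a ∈ Finset.Ioc A₁ A₂, (if (a - p).Coprime M then (1 : ℝ) / a else 0) := by
    rw [Finset.sum_filter]
    apply Finset.sum_congr rfl
    intro a ha
    rw [Finset.mem_Ioc] at ha
    by_cases he : Even a
    · rw [if_pos he]
    · rw [if_neg he, if_neg]
      intro hc
      rw [Nat.not_even_iff_odd] at he
      have h2 : Even (a - p) := Nat.Odd.sub_odd he hpo
      have h3 := Nat.dvd_gcd h2.two_dvd hM
      rw [hc] at h3
      exact absurd h3 (by norm_num)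
  rw [h1]
  apply Finset.sum_nbij' (fun a => a - p) (fun b => b + p)
  · intro a ha
    rw [Finset.mem_Ioc] at ha ⊢
    constructor <;> omega
  · intro b hb
    rw [Finset.mem_Ioc] at hb ⊢
    constructor <;> omega
  · intro a ha
    rw [Finset.mem_Ioc] at ha
    omega
  · intro b _
    omega
  · intro a ha
    rw [Finset.mem_Ioc] at ha
    have e : (((a - p : ℕ) : ℝ) + p) = a := by
      rw [Nat.cast_sub (by omega)]; ring
    rw [e]
    split_ifs <;> simp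

lemma R3_two (M A₁ A₂ : ℕ) (hM : 2 ∣ M) (hA : 2 ≤ A₁) :
    ∑ a ∈ (Finset.Ioc A₁ A₂).filter Even, (if (a - 2).Coprime M then (1 : ℝ) / a else 0) = 0 := by
  apply Finset.sum_eq_zero
  intro a ha
  rw [Finset.mem_filter, Finset.mem_Ioc] at ha
  rw [if_neg]
  intro hc
  have h2 : Even (a - 2) := (Nat.even_sub (by omega)).mpr ⟨fun _ => even_two, fun _ => ha.2⟩
  have h3 := Nat.dvd_gcd h2.two_dvd hM
  rw [hc] at h3
  exact absurd h3 (by norm_num)

lemma R3_swap (M : ℕ) (z : ℕ) (v₁ v₂ Y : ℝ) :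
    ∑ a ∈ aSet z v₁ v₂, (RR M a Y : ℝ) / a
      = ∑ p ∈ (Finset.range (⌊Y⌋₊ + 1)).filter Nat.Prime,
        ∑ a ∈ (Finset.Ioc ⌊(z : ℝ) ^ v₁⌋₊ ⌊(z : ℝ) ^ v₂⌋₊).filter Even,
          (if (a - p).Coprime M then (1 : ℝ) / a else 0) := by
  rw [Finset.sum_comm]
  unfold aSet
  apply Finset.sum_congr rfl
  intro a _
  unfold RR
  rw [← Finset.filter_filter, Finset.card_filter]
  push_cast
  rw [Finset.sum_div]
  apply Finset.sum_congr rfl
  intro p _
  split_ifs <;> simp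

/-- R3. PROOF. `∑_{a ∈ aSet} RR M a Y / a = ∑_{p ≤ Y} ∑_{a ∈ aSet, (a-p, M) = 1} 1/a`. `M` is even
(`2 ∣ M`: `p₁ ≥ K ≥ 3` and `2 ∉ D₀`, `prime_dvd_Mz`), so `p = 2` contributes `0`; that costs
`∫ω + η ≤ η π(Y)` if `Y ≥ Y₀`. For odd `p`, with `b = a - p`: `(b, M) = 1` forces `b` odd and `a` even,
so the inner sum is `∑ 1/(b+p)` over `b ∈ (A₁ - p, A₂ - p]` coprime to `M`, `A_i = ⌊z^v_i⌋`; it differs
from `∑_{b ∈ (A₁, A₂], (b, M) = 1} 1/b` (see `rough_sum_near`) by at most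
`∑_{A₁ - p < b ≤ A₁} 1/b + ∑_{A₂ - p < b ≤ A₂} 1/b + ∑_{b > A₁ - p} p/b^2 ≤ 6 p/(A₁ - p) ≤ 12 Y/z^v₁ * 2`. So
take `Y ≤ η' z^v₁` with `η'` small. -/
lemma sum_RR (ω : ℝ → ℝ) (hω : BuchLog ω) (v₁ v₂ : ℝ) (h1 : 1 ≤ v₁) (h2 : v₁ < v₂)
    (η : ℝ) (hη : 0 < η) : ∃ (K k₀ : ℕ) (η' Y₀ : ℝ), 0 < η' ∧ ∀ k : ℕ, k₀ ≤ k → ∀ z p₁ : ℕ,
    ∀ D₀ : Finset ℕ, Real.sqrt k ≤ z → Adm K k z p₁ D₀ → ∀ Y : ℝ, Y₀ ≤ Y →
      Y ≤ η' * (z : ℝ) ^ v₁ →
      |∑ a ∈ aSet z v₁ v₂, (RR (Mz z (insert p₁ D₀)) a Y : ℝ) / a - piR Y * ∫ x in v₁..v₂, ω x|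
        ≤ η * piR Y := by
  obtain ⟨K, k₀, hS⟩ := rough_sum_near ω hω v₁ v₂ h1 h2 (η / 3) (by positivity)
  set I := ∫ x in v₁..v₂, ω x with hI
  -- the number of primes is large
  obtain ⟨n₀, hn₀⟩ := Filter.tendsto_atTop_atTop.mp Nat.tendsto_primeCounting ⌈3 * |I| / η⌉₊
  refine ⟨max K 3, max k₀ 16, min (1 / 4) (η / 36), n₀, lt_min (by norm_num) (by positivity), ?_⟩
  intro k hk z p₁ D₀ hz hA Y hY0 hY
  have hk1 : k₀ ≤ k := (le_max_left _ _).trans hk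
  have hk2 : 16 ≤ k := (le_max_right _ _).trans hk
  have hz4 : 4 ≤ z := by
    have h3 : ((4 : ℕ) : ℝ) ≤ Real.sqrt k := by
      apply Real.le_sqrt_of_sq_le
      exact_mod_cast (by omega : 4 ^ 2 ≤ k)
    exact_mod_cast h3.trans hz
  have hAK : Adm K k z p₁ D₀ := ⟨hA.1, (le_max_left _ _).trans hA.2.1, hA.2.2⟩
  have hnear := hS k hk1 z p₁ D₀ hz hAK
  obtain ⟨hp, hKp, hpz, hD, hcard⟩ := hA
  have hp3 : 3 ≤ p₁ := (le_max_right K 3).trans hKp
  set D := insert p₁ D₀ with hDdef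
  set M := Mz z D with hM
  have h2M : 2 ∣ M := by
    rw [hM, prime_dvd_Mz z D 2 Nat.prime_two]
    refine ⟨by omega, ?_⟩
    intro hc
    rcases Finset.mem_insert.mp hc with h3 | h3
    · omega
    · have h4 := hD h3
      unfold Pz at h4
      rw [Finset.mem_filter] at h4
      omega
  set A₁ := ⌊(z : ℝ) ^ v₁⌋₊ with hA₁
  set A₂ := ⌊(z : ℝ) ^ v₂⌋₊ with hA₂
  have hz1 : (4 : ℝ) ≤ z := by exact_mod_cast hz4
  have hzv : (4 : ℝ) ≤ (z : ℝ) ^ v₁ := by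
    calc (4 : ℝ) ≤ z := hz1
      _ = (z : ℝ) ^ (1 : ℝ) := (Real.rpow_one _).symm
      _ ≤ _ := Real.rpow_le_rpow_of_exponent_le (by linarith) h1
  have hA₁4 : 4 ≤ A₁ := Nat.le_floor (by exact_mod_cast hzv)
  have hA₁l : (z : ℝ) ^ v₁ < A₁ + 1 := Nat.lt_floor_add_one _
  have hA12 : A₁ ≤ A₂ := Nat.floor_le_floor (Real.rpow_le_rpow_of_exponent_le (by linarith) h2.le)
  have hη1 : min (1 / 4) (η / 36) ≤ 1 / 4 := min_le_left _ _
  have hη2 : min (1 / 4) (η / 36) ≤ η / 36 := min_le_right _ _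
  have hY1 : Y ≤ 1 / 4 * (z : ℝ) ^ v₁ :=
    hY.trans (mul_le_mul_of_nonneg_right hη1 (by positivity))
  have hY2 : Y ≤ η / 36 * (z : ℝ) ^ v₁ :=
    hY.trans (mul_le_mul_of_nonneg_right hη2 (by positivity))
  set S := ∑ b ∈ (Finset.Ioc A₁ A₂).filter (fun b => b.Coprime M), (1 : ℝ) / b with hSd
  have hS' : S = ∑ b ∈ Finset.Ioc A₁ A₂, (if b.Coprime M then (1 : ℝ) else 0) / b := by
    rw [hSd, Finset.sum_filter]
    apply Finset.sum_congr rfl
    intro b _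
    split_ifs <;> simp
  -- each prime
  have hterm : ∀ p ∈ (Finset.range (⌊Y⌋₊ + 1)).filter Nat.Prime,
      |∑ a ∈ (Finset.Ioc A₁ A₂).filter Even, (if (a - p).Coprime M then (1 : ℝ) / a else 0) - I|
        ≤ 2 * η / 3 + (if p = 2 then |I| else 0) := by
    intro p hp'
    rw [Finset.mem_filter, Finset.mem_range] at hp'
    obtain ⟨hpY, hpp⟩ := hp'
    have hY0' : 0 ≤ Y := le_trans (Nat.cast_nonneg n₀) hY0
    have hpY' : (p : ℝ) ≤ Y := (Nat.le_floor_iff hY0').mp (by omega)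
    rcases eq_or_ne p 2 with rfl | hp2
    · rw [R3_two M A₁ A₂ h2M (by omega), if_pos rfl, zero_sub, abs_neg]
      linarith
    · rw [if_neg hp2, add_zero]
      have hpo : Odd p := hpp.odd_of_ne_two hp2
      have hpA : p < A₁ := by
        have : (p : ℝ) < A₁ := by linarith
        exact_mod_cast this
      rw [R3_inner M A₁ A₂ p h2M hpo hpA]
      have h3 := R3_compare (fun b => if b.Coprime M then (1 : ℝ) else 0)
        (fun b => by split_ifs <;> norm_num) (fun b => by split_ifs <;> norm_num) A₁ A₂ p hpA hA12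
      rw [← hS'] at h3
      have h4 : 3 * (p : ℝ) / ((A₁ - p : ℕ) : ℝ) ≤ η / 3 := by
        have h5 : (z : ℝ) ^ v₁ / 4 ≤ ((A₁ - p : ℕ) : ℝ) := by
          rw [Nat.cast_sub hpA.le]
          linarith
        have h6 : 0 < ((A₁ - p : ℕ) : ℝ) := by linarith
        rw [div_le_iff₀ h6]
        have h7 : η / 3 * ((z : ℝ) ^ v₁ / 4) ≤ η / 3 * ((A₁ - p : ℕ) : ℝ) :=
          mul_le_mul_of_nonneg_left h5 (by positivity)
        linarith
      have h5 := abs_le.mp (h3.trans h4)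
      have h6 := abs_le.mp hnear
      rw [abs_le]
      constructor <;> linarith [h5.1, h5.2, h6.1, h6.2]
  have hpi : piR Y = (((Finset.range (⌊Y⌋₊ + 1)).filter Nat.Prime).card : ℝ) := by
    unfold piR Nat.primeCounting Nat.primeCounting'
    rw [Nat.count_eq_card_filter_range]
  have hpiY : |I| ≤ η / 3 * piR Y := by
    have h3 : ⌈3 * |I| / η⌉₊ ≤ Nat.primeCounting ⌊Y⌋₊ := hn₀ _ (Nat.le_floor hY0)
    have h4 : 3 * |I| / η ≤ piR Y := by
      unfold piR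
      exact (Nat.le_ceil _).trans (by exact_mod_cast h3)
    rw [div_le_iff₀ hη] at h4
    linarith
  rw [R3_swap, ← hA₁, ← hA₂]
  have e : piR Y * I = ∑ _p ∈ (Finset.range (⌊Y⌋₊ + 1)).filter Nat.Prime, I := by
    rw [Finset.sum_const, nsmul_eq_mul, hpi]
  rw [e, ← Finset.sum_sub_distrib]
  calc |∑ p ∈ (Finset.range (⌊Y⌋₊ + 1)).filter Nat.Prime,
        (∑ a ∈ (Finset.Ioc A₁ A₂).filter Even, (if (a - p).Coprime M then (1 : ℝ) / a else 0) - I)|
      ≤ ∑ p ∈ (Finset.range (⌊Y⌋₊ + 1)).filter Nat.Prime,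
        |∑ a ∈ (Finset.Ioc A₁ A₂).filter Even, (if (a - p).Coprime M then (1 : ℝ) / a else 0) - I| :=
        Finset.abs_sum_le_sum_abs _ _
    _ ≤ ∑ p ∈ (Finset.range (⌊Y⌋₊ + 1)).filter Nat.Prime,
        (2 * η / 3 + (if p = 2 then |I| else 0)) := Finset.sum_le_sum hterm
    _ ≤ piR Y * (2 * η / 3) + |I| := by
        rw [Finset.sum_add_distrib, Finset.sum_const, nsmul_eq_mul, hpi]
        apply add_le_add le_rfl
        rw [Finset.sum_ite_eq']
        split_ifs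
        · exact le_rfl
        · exact abs_nonneg _
    _ ≤ η * piR Y := by linarith

end Pool.Agent.MG
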