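import Mathlib
import Pool.Agent.Lib.MP_bae66e_nt.MG.B0
import Pool.Agent.Lib.MP_bae66e_nt.MG.A1b
import Pool.Agent.Lib.MP_bae66e_nt.MG.R3

set_option autoImplicit false

namespace Pool.Agent.MG

open Pool.Agent.GM

private lemma B1a_sqrt_le (e : ℝ) (he : 0 < e) : ∃ k₀ : ℕ, ∀ k : ℕ, k₀ ≤ k → ∀ z : ℕ,
    e * k - 1 ≤ z → Real.sqrt k ≤ z := by
  refine ⟨⌈4 / e ^ 2⌉₊ + 1, fun k hk z hz => ?_⟩
  have h1 : (1 : ℝ) ≤ k := by exact_mod_cast (by omega : 1 ≤ k)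
  have h2 : 4 / e ^ 2 ≤ k := by
    have h3 : (⌈4 / e ^ 2⌉₊ : ℝ) ≤ k := by exact_mod_cast (by omega : ⌈4 / e ^ 2⌉₊ ≤ k)
    exact le_trans (Nat.le_ceil _) h3
  set s := Real.sqrt k with hs
  have hs1 : 1 ≤ s := by
    rw [hs]; exact Real.one_le_sqrt.mpr h1
  have hs2 : s ^ 2 = k := Real.sq_sqrt (by linarith)
  have hs3 : 2 / e ≤ s := by
    rw [hs]
    apply Real.le_sqrt_of_sq_le
    rw [div_pow]
    norm_num
    exact h2
  have h4 : 2 ≤ e * s := by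
    have := mul_le_mul_of_nonneg_left hs3 he.le
    rwa [mul_div_cancel₀ _ he.ne'] at this
  have h5 : e * k = (e * s) * s := by rw [← hs2]; ring
  nlinarith

/-- B1a. PROOF. `e₀` from `TA_bounds`, `δ` from `TA_bounds` with `η`; `K`, `η'`, `Y₀` from `sum_RR` with `η`.
For `a ∈ aSet z v₁ v₂`: `a > ⌊z^v₁⌋`, so `a ≥ z^v₁ ≥ 2 y₊ > y₊` by `scale_small` (with `min η' (1/2)` for `η`;
`y₊ = scale ((1+θ)k)`, `y₋ = scale ((1-θ)k)`). Sum `TA_bounds` over `a ∈ aSet` with the weights `1/a` and use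
`sum_RR` for `Y = y₋` and `Y = y₊` (`Y₀ ≤ y₋ ≤ y₊ ≤ η' z^v₁`, `scale_mono`). `√k ≤ z` as `z ≥ e k - 1`. -/
theorem SA_bounds (ω : ℝ → ℝ) (hω : BuchLog ω) (lam B β : ℝ) (hlam : 0 < lam) (hB : 1 < B)
    (v₁ v₂ : ℝ) (hv1 : B < v₁) (hv2 : v₁ < v₂) (θ : ℝ) (h0 : 0 < θ) (h1 : θ < 1 / 4) :
    ∃ e₀ : ℝ, 0 < e₀ ∧ ∀ e η : ℝ, 0 < e → e ≤ e₀ → 0 < η → η < 1 →
      ∃ (K k₀ : ℕ) (δ : ℝ), 0 < δ ∧ ∀ k : ℕ, k₀ ≤ k → ∀ z : ℕ, e * k - 1 ≤ z → (z : ℝ) ≤ e * k →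
        ∀ (p₁ : ℕ) (D₀ : Finset ℕ), Adm K k z p₁ D₀ → GoodM δ k (Mz z (insert p₁ D₀)) →
          (1 - η) * ((∫ x in v₁..v₂, ω x) - η) * piR (scale lam B β ((1 - θ) * k))
            ≤ ((Mz z (insert p₁ D₀)).totient : ℝ)
              * SA θ lam B β k z (Mz z (insert p₁ D₀)) v₁ v₂ ∧
          ((Mz z (insert p₁ D₀)).totient : ℝ) * SA θ lam B β k z (Mz z (insert p₁ D₀)) v₁ v₂
            ≤ (1 + η) * ((∫ x in v₁..v₂, ω x) + η) * piR (scale lam B β ((1 + θ) * k)) := by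
  obtain ⟨e₀, he0, hTA⟩ := TA_bounds lam B β hlam hB θ h0 h1
  obtain ⟨t₀, ht0, hmono⟩ := scale_mono lam B β hlam hB
  refine ⟨e₀, he0, fun e η he hee hη hη1 => ?_⟩
  obtain ⟨δ, k₁, hδ, hk1⟩ := hTA η hη
  obtain ⟨K, k₂, η', Y₀, hη', hk2⟩ := sum_RR ω hω v₁ v₂ (by linarith) hv2 η hη
  obtain ⟨k₃, hk3⟩ := scale_small lam B β hlam hB v₁ e (min η' (1 / 2)) θ hv1 he
    (lt_min hη' (by norm_num)) h0 (by linarith) Y₀
  obtain ⟨k₄, hk4⟩ := B1a_sqrt_le e he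
  refine ⟨K, max (max k₁ k₂) (max (max k₃ k₄) (⌈2 * t₀⌉₊ + 1)), δ, hδ,
    fun k hk z hz1 hz2 p₁ D₀ hadm hgood => ?_⟩
  have hkk1 : k₁ ≤ k := le_trans (le_trans (le_max_left _ _) (le_max_left _ _)) hk
  have hkk2 : k₂ ≤ k := le_trans (le_trans (le_max_right _ _) (le_max_left _ _)) hk
  have hkk3 : k₃ ≤ k :=
    le_trans (le_trans (le_trans (le_max_left _ _) (le_max_left _ _)) (le_max_right _ _)) hk
  have hkk4 : k₄ ≤ k :=
    le_trans (le_trans (le_trans (le_max_right _ _) (le_max_left _ _)) (le_max_right _ _)) hk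
  have hkk5 : ⌈2 * t₀⌉₊ + 1 ≤ k := le_trans (le_trans (le_max_right _ _) (le_max_right _ _)) hk
  have hkt : 2 * t₀ ≤ k := by
    have h3 : (⌈2 * t₀⌉₊ : ℝ) ≤ k := by exact_mod_cast (by omega : ⌈2 * t₀⌉₊ ≤ k)
    exact le_trans (Nat.le_ceil _) h3
  have hkpos : (1 : ℝ) ≤ k := by exact_mod_cast (by omega : 1 ≤ k)
  obtain ⟨hs1, hs2, hs3⟩ := hk3 k hkk3 z hz1
  have hsq := hk4 k hkk4 z hz1
  set M := Mz z (insert p₁ D₀) with hM
  set y₁ := scale lam B β ((1 - θ) * k) with hy1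
  set y₂ := scale lam B β ((1 + θ) * k) with hy2
  have hyy : y₁ ≤ y₂ := hmono _ _ (by nlinarith) (by nlinarith)
  have hzv : (0 : ℝ) ≤ (z : ℝ) ^ v₁ := by positivity
  have hy2a : y₂ ≤ η' * (z : ℝ) ^ v₁ :=
    le_trans hs1 (mul_le_mul_of_nonneg_right (min_le_left _ _) hzv)
  have hy2b : y₂ ≤ 1 / 2 * (z : ℝ) ^ v₁ :=
    le_trans hs1 (mul_le_mul_of_nonneg_right (min_le_right _ _) hzv)
  have hR1 := hk2 k hkk2 z p₁ D₀ hsq hadm y₁ hs3 (le_trans hyy hy2a)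
  have hR2 := hk2 k hkk2 z p₁ D₀ hsq hadm y₂ (le_trans hs3 hyy) hy2a
  rw [← hM] at hR1 hR2
  have hze : (z : ℝ) ≤ e₀ * k := le_trans hz2 (mul_le_mul_of_nonneg_right hee (by linarith))
  have hrow : ∀ a ∈ aSet z v₁ v₂, (1 - η) * (RR M a y₁ : ℝ) ≤ (M.totient : ℝ) *
      TA θ lam B β k M a ∧ (M.totient : ℝ) * TA θ lam B β k M a ≤ (1 + η) * (RR M a y₂ : ℝ) := by
    intro a ha
    unfold aSet at ha
    rw [Finset.mem_filter, Finset.mem_Ioc] at ha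
    have h3 : (z : ℝ) ^ v₁ < a := (Nat.floor_lt hzv).mp ha.1.1
    have h4 : y₂ < a := by linarith
    exact hk1 k hkk1 z hze (insert p₁ D₀) hgood a h4
  have hSA : (M.totient : ℝ) * SA θ lam B β k z M v₁ v₂ =
      ∑ a ∈ aSet z v₁ v₂, ((M.totient : ℝ) * TA θ lam B β k M a) / a := by
    unfold SA
    rw [Finset.mul_sum]
    refine Finset.sum_congr rfl fun a _ => ?_
    ring
  constructor
  · have h3 : (1 - η) * ∑ a ∈ aSet z v₁ v₂, (RR M a y₁ : ℝ) / a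
        ≤ (M.totient : ℝ) * SA θ lam B β k z M v₁ v₂ := by
      rw [hSA, Finset.mul_sum]
      refine Finset.sum_le_sum fun a ha => ?_
      rw [← mul_div_assoc]
      exact div_le_div_of_nonneg_right (hrow a ha).1 (by positivity)
    have h4 := (abs_le.mp hR1).1
    have h5 : (1 - η) * (((∫ x in v₁..v₂, ω x) - η) * piR y₁)
        ≤ (1 - η) * ∑ a ∈ aSet z v₁ v₂, (RR M a y₁ : ℝ) / a := by
      refine mul_le_mul_of_nonneg_left ?_ (by linarith)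
      linarith
    calc (1 - η) * ((∫ x in v₁..v₂, ω x) - η) * piR y₁
        = (1 - η) * (((∫ x in v₁..v₂, ω x) - η) * piR y₁) := by ring
      _ ≤ _ := le_trans h5 h3
  · have h3 : (M.totient : ℝ) * SA θ lam B β k z M v₁ v₂
        ≤ (1 + η) * ∑ a ∈ aSet z v₁ v₂, (RR M a y₂ : ℝ) / a := by
      rw [hSA, Finset.mul_sum]
      refine Finset.sum_le_sum fun a ha => ?_
      rw [← mul_div_assoc]
      exact div_le_div_of_nonneg_right (hrow a ha).2 (by positivity)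
    have h4 := (abs_le.mp hR2).2
    have h5 : (1 + η) * ∑ a ∈ aSet z v₁ v₂, (RR M a y₂ : ℝ) / a
        ≤ (1 + η) * (((∫ x in v₁..v₂, ω x) + η) * piR y₂) := by
      refine mul_le_mul_of_nonneg_left ?_ (by linarith)
      linarith
    calc (M.totient : ℝ) * SA θ lam B β k z M v₁ v₂
        ≤ (1 + η) * (((∫ x in v₁..v₂, ω x) + η) * piR y₂) := le_trans h3 h5
      _ = _ := by ring

end Pool.Agent.MG
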