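import Mathlib
import Pool.Agent.Lib.MP_bae66e_nt.Mg.G034

set_option autoImplicit false

namespace Pool.Agent.MG

open Pool.Agent.GM

/-- the coefficients of the singular series: `∏_{p ∣ d} 1/(p-2)` for odd squarefree `d` -/
noncomputable def hco (d : ℕ) : ℝ :=
  if Squarefree d ∧ Odd d then ∏ p ∈ d.primeFactors, (1 / ((p : ℝ) - 2)) else 0

end Pool.Agent.MG
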