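import Mathlib
import Pool.Agent.Lib.MP_bae66e_nt.MG.S0

set_option autoImplicit false

namespace Pool.Agent.MG

open Pool.Agent.GM

/-- S1b. PROOF. `∏_{p ∣ a, p > 2} (p-1)/(p-2) = ∏ (1 + 1/(p-2)) = ∑_{d ∣ a} hco d`
(`Finset.prod_one_add` / `Finset.prod_add`, sum over the subsets `t` of the odd primes dividing
`a`, `d = ∏ p ∈ t, p`). -/
lemma sing_eq_sum (a : ℕ) (ha : a ≠ 0) :
    sing a = 2 * twinConst * ∑ d ∈ a.divisors, hco d := by
  unfold sing
  congr 1
  have h1 : ∏ p ∈ a.primeFactors.erase 2, (((p : ℝ) - 1) / ((p : ℝ) - 2))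
      = ∏ p ∈ a.primeFactors.erase 2, (1 + 1 / ((p : ℝ) - 2)) := by
    apply Finset.prod_congr rfl
    intro p hp
    rw [Finset.mem_erase] at hp
    have h2 := (Nat.prime_of_mem_primeFactors hp.2).two_le
    have h3 : (3 : ℝ) ≤ p := by
      have : 3 ≤ p := by have := hp.1; omega
      exact_mod_cast this
    have h4 : (p : ℝ) - 2 ≠ 0 := by linarith
    field_simp
    ring
  rw [h1, Finset.prod_one_add]
  have h2 : ∑ d ∈ a.divisors, hco d = ∑ d ∈ a.divisors.filter (fun d => Squarefree d ∧ Odd d),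
      ∏ p ∈ d.primeFactors, (1 / ((p : ℝ) - 2)) := by
    rw [Finset.sum_filter]
    rfl
  rw [h2]
  have hprime : ∀ t ∈ (a.primeFactors.erase 2).powerset, ∀ p ∈ t, p.Prime ∧ p ≠ 2 := by
    intro t ht p hp
    have := Finset.mem_powerset.mp ht hp
    rw [Finset.mem_erase] at this
    exact ⟨Nat.prime_of_mem_primeFactors this.2, this.1⟩
  have hpf : ∀ t ∈ (a.primeFactors.erase 2).powerset, (∏ p ∈ t, p).primeFactors = t :=
    fun t ht => Nat.primeFactors_prod (fun p hp => (hprime t ht p hp).1)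
  refine Finset.sum_bij' (fun t _ => ∏ p ∈ t, p) (fun d _ => d.primeFactors) ?_ ?_ ?_ ?_ ?_
  · intro t ht
    rw [Finset.mem_filter, Nat.mem_divisors]
    refine ⟨⟨?_, ha⟩, ?_, ?_⟩
    · refine (Finset.prod_dvd_prod_of_subset t a.primeFactors _ ?_).trans
        (Nat.prod_primeFactors_dvd a)
      exact (Finset.mem_powerset.mp ht).trans (Finset.erase_subset _ _)
    · apply Finset.squarefree_prod_of_pairwise_isCoprime
      · intro p hp q hq hpq
        exact Nat.coprime_iff_isRelPrime.mp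
          ((Nat.coprime_primes (hprime t ht p hp).1 (hprime t ht q hq).1).mpr hpq)
      · intro p hp
        exact (hprime t ht p hp).1.squarefree
    · rw [← Nat.not_even_iff_odd, even_iff_two_dvd, Prime.dvd_finsetProd_iff Nat.prime_two.prime]
      rintro ⟨p, hp, h2p⟩
      exact (hprime t ht p hp).2
        ((Nat.prime_dvd_prime_iff_eq Nat.prime_two (hprime t ht p hp).1).mp h2p).symm
  · intro d hd
    rw [Finset.mem_filter, Nat.mem_divisors] at hd
    rw [Finset.mem_powerset]
    intro p hp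
    rw [Finset.mem_erase]
    refine ⟨?_, Nat.primeFactors_mono hd.1.1 ha hp⟩
    rintro rfl
    exact (Nat.not_even_iff_odd.mpr hd.2.2) (even_iff_two_dvd.mpr (Nat.dvd_of_mem_primeFactors hp))
  · intro t ht
    exact hpf t ht
  · intro d hd
    rw [Finset.mem_filter] at hd
    exact Nat.prod_primeFactors_of_squarefree hd.2.1
  · intro t ht
    simp only [hpf t ht]

end Pool.Agent.MG
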