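import Mathlib
import Pool.Agent.Lib.MP_bae66e_nt.MG.S0

set_option autoImplicit false

namespace Pool.Agent.MG

open Pool.Agent.GM

private lemma S1c_hco_one : hco 1 = 1 := by
  unfold hco
  rw [if_pos ⟨squarefree_one, odd_one⟩]
  simp

private lemma S1c_hco_mul {m n : ℕ} (h : Nat.Coprime m n) : hco (m * n) = hco m * hco n := by
  unfold hco
  have h1 : Squarefree (m * n) ↔ Squarefree m ∧ Squarefree n := Nat.squarefree_mul h
  have h2 : Odd (m * n) ↔ Odd m ∧ Odd n := Nat.odd_mul
  by_cases hm : Squarefree m ∧ Odd m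
  · by_cases hn : Squarefree n ∧ Odd n
    · rw [if_pos ⟨h1.mpr ⟨hm.1, hn.1⟩, h2.mpr ⟨hm.2, hn.2⟩⟩, if_pos hm, if_pos hn,
        h.primeFactors_mul, Finset.prod_union h.disjoint_primeFactors]
    · rw [if_neg hn, mul_zero, if_neg]
      rintro ⟨h3, h4⟩
      exact hn ⟨(h1.mp h3).2, (h2.mp h4).2⟩
  · rw [if_neg hm, zero_mul, if_neg]
    rintro ⟨h3, h4⟩
    exact hm ⟨(h1.mp h3).1, (h2.mp h4).1⟩

private lemma S1c_bound (d : ℕ) : ‖hco d / d‖ ≤ 2 * (d : ℝ) ^ (-(3 / 2) : ℝ) := by
  unfold hco
  by_cases hd : Squarefree d ∧ Odd d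
  · rw [if_pos hd]
    have hprod : (d : ℝ) = ∏ p ∈ d.primeFactors, (p : ℝ) := by
      rw [← Nat.cast_prod, Nat.prod_primeFactors_of_squarefree hd.1]
    have h3 : ∀ p ∈ d.primeFactors, (3 : ℝ) ≤ p := by
      intro p hp
      have hpp := Nat.prime_of_mem_primeFactors hp
      have h2 : p ≠ 2 := by
        rintro rfl
        have := Nat.dvd_of_mem_primeFactors hp
        exact (Nat.not_even_iff_odd.mpr hd.2) (even_iff_two_dvd.mpr this)
      have := hpp.two_le
      have h3 : 3 ≤ p := by omega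
      exact_mod_cast h3
    have hnn : 0 ≤ (∏ p ∈ d.primeFactors, (1 / ((p : ℝ) - 2))) / d := by
      apply div_nonneg _ (Nat.cast_nonneg _)
      apply Finset.prod_nonneg
      intro p hp
      have := h3 p hp
      apply div_nonneg zero_le_one
      linarith
    rw [Real.norm_of_nonneg hnn]
    have hstep : (∏ p ∈ d.primeFactors, (1 / ((p : ℝ) - 2))) / d
        = ∏ p ∈ d.primeFactors, (1 / ((p : ℝ) - 2) / p) := by
      conv_rhs => rw [Finset.prod_div_distrib, ← hprod]
    have hd32 : (d : ℝ) ^ (-(3 / 2) : ℝ) = ∏ p ∈ d.primeFactors, ((p : ℝ) ^ (-(3 / 2) : ℝ)) := by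
      rw [hprod, Real.finsetProd_rpow]
      intro p _
      exact Nat.cast_nonneg _
    have hg : ∏ p ∈ d.primeFactors, (if p = 3 then (2 : ℝ) else 1) ≤ 2 := by
      rw [Finset.prod_ite_eq' d.primeFactors 3 (fun _ => (2 : ℝ))]
      split_ifs <;> norm_num
    have hd0 : 0 ≤ (d : ℝ) ^ (-(3 / 2) : ℝ) := Real.rpow_nonneg (Nat.cast_nonneg _) _
    calc (∏ p ∈ d.primeFactors, (1 / ((p : ℝ) - 2))) / d
        = ∏ p ∈ d.primeFactors, (1 / ((p : ℝ) - 2) / p) := hstep
      _ ≤ ∏ p ∈ d.primeFactors, ((if p = 3 then (2 : ℝ) else 1) * (p : ℝ) ^ (-(3 / 2) : ℝ)) := by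
          apply Finset.prod_le_prod
          · intro p hp
            have := h3 p hp
            apply div_nonneg (div_nonneg zero_le_one (by linarith)) (by linarith)
          · intro p hp
            have h3' := h3 p hp
            have hp0 : (0 : ℝ) < p := by linarith
            have hsq : (0 : ℝ) < Real.sqrt p := Real.sqrt_pos.mpr hp0
            have hsq2 : Real.sqrt p * Real.sqrt p = p := Real.mul_self_sqrt hp0.le
            have hrp : (p : ℝ) ^ (-(3 / 2) : ℝ) = 1 / (p * Real.sqrt p) := by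
              rw [Real.rpow_neg hp0.le, show (3 / 2 : ℝ) = 1 + 1 / 2 by norm_num,
                Real.rpow_add hp0, Real.rpow_one, ← Real.sqrt_eq_rpow, one_div]
            rw [hrp]
            have hpn : 0 < (p : ℝ) - 2 := by linarith
            by_cases hp3 : p = 3
            · rw [if_pos hp3]
              have hps : Real.sqrt p ≤ 2 * ((p : ℝ) - 2) := by
                have : (p : ℝ) = 3 := by exact_mod_cast hp3
                rw [this, Real.sqrt_le_left (by norm_num)]
                norm_num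
              rw [div_div, ← mul_div_assoc, mul_one, div_le_div_iff₀ (by positivity) (by positivity)]
              nlinarith
            · rw [if_neg hp3, one_mul]
              have hp5 : (5 : ℝ) ≤ p := by
                have hpp := Nat.prime_of_mem_primeFactors hp
                have h3n : 3 ≤ p := by exact_mod_cast h3'
                have h4 : p ≠ 4 := by
                  rintro rfl
                  exact absurd hpp (by norm_num)
                have : 5 ≤ p := by omega
                exact_mod_cast this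
              have hps : Real.sqrt p ≤ (p : ℝ) - 2 := by
                rw [Real.sqrt_le_left (by linarith)]
                nlinarith
              rw [div_div, div_le_div_iff₀ (by positivity) (by positivity)]
              nlinarith
      _ = (∏ p ∈ d.primeFactors, (if p = 3 then (2 : ℝ) else 1)) *
            ∏ p ∈ d.primeFactors, ((p : ℝ) ^ (-(3 / 2) : ℝ)) := Finset.prod_mul_distrib
      _ = (∏ p ∈ d.primeFactors, (if p = 3 then (2 : ℝ) else 1)) * (d : ℝ) ^ (-(3 / 2) : ℝ) := by
          rw [hd32]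
      _ ≤ 2 * (d : ℝ) ^ (-(3 / 2) : ℝ) := mul_le_mul_of_nonneg_right hg hd0
  · rw [if_neg hd, zero_div, norm_zero]
    have hd0 : 0 ≤ (d : ℝ) ^ (-(3 / 2) : ℝ) := Real.rpow_nonneg (Nat.cast_nonneg _) _
    linarith

private lemma S1c_summable : Summable (fun d : ℕ => ‖hco d / d‖) := by
  apply Summable.of_nonneg_of_le (fun _ => norm_nonneg _) S1c_bound
  apply Summable.mul_left
  exact Real.summable_nat_rpow.mpr (by norm_num)

private lemma S1c_local (p : Nat.Primes) : ∑' e : ℕ, hco ((p : ℕ) ^ e) / ((p : ℕ) ^ e : ℕ)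
    = (if (p : ℕ) = 2 then (1 : ℝ) else 1 - 1 / (((p : ℕ) : ℝ) - 1) ^ 2)⁻¹ := by
  have hpp := p.2
  have hzero : ∀ e ∉ Finset.range 2, hco ((p : ℕ) ^ e) / (((p : ℕ) ^ e : ℕ) : ℝ) = 0 := by
    intro e he
    rw [Finset.mem_range, not_lt] at he
    unfold hco
    rw [if_neg, zero_div]
    rintro ⟨h1, _⟩
    have : (p : ℕ) * (p : ℕ) ∣ (p : ℕ) ^ e := by
      rw [← sq]; exact pow_dvd_pow _ he
    exact hpp.one_lt.ne' (Nat.isUnit_iff.mp (h1 _ this))
  rw [tsum_eq_sum hzero, Finset.sum_range_succ, Finset.sum_range_one, pow_zero, pow_one,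
    S1c_hco_one, Nat.cast_one, div_one]
  unfold hco
  by_cases h2 : (p : ℕ) = 2
  · rw [if_pos h2, if_neg, zero_div, add_zero, inv_one]
    rintro ⟨_, h⟩
    rw [h2] at h
    exact absurd h (by decide)
  · rw [if_neg h2, if_pos ⟨hpp.prime.squarefree, hpp.odd_of_ne_two h2⟩, hpp.primeFactors,
      Finset.prod_singleton]
    have h3 : (3 : ℝ) ≤ ((p : ℕ) : ℝ) := by
      have := hpp.two_le
      have h3 : 3 ≤ (p : ℕ) := by omega
      exact_mod_cast h3
    have e1 : ((p : ℕ) : ℝ) - 2 ≠ 0 := by intro h; linarith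
    have e2 : ((p : ℕ) : ℝ) ≠ 0 := by intro h; linarith
    have e3 : ((p : ℕ) : ℝ) - 1 ≠ 0 := by intro h; linarith
    have e4 : (1 : ℝ) - 1 / (((p : ℕ) : ℝ) - 1) ^ 2 = (((p : ℕ) : ℝ) * (((p : ℕ) : ℝ) - 2)) / (((p : ℕ) : ℝ) - 1) ^ 2 := by
      field_simp
      ring
    rw [e4, inv_div]
    field_simp
    ring

/-- S1c. PROOF. `f d = hco d / d` is multiplicative on coprime arguments, `f (p^j) = 0` for `j ≥ 2`
and for `p = 2`, `j ≥ 1`, and `f p = 1/(p (p-2))` is summable over the primes; so `f` is summable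
(`∑_{d ≤ N} f d ≤ ∏_{p ≤ N} (1 + f p) ≤ exp (∑ f p)`), and by
`EulerProduct.eulerProduct_hasProd` (Mathlib) `∑ f d = ∏' (1 + f p)`. Multiply by the product
`twinConst`: for `p > 2` `(1 - 1/(p-1)^2) (1 + 1/(p(p-2))) = 1`. -/
lemma hco_sum : Summable (fun d : ℕ => hco d / d) ∧ twinConst * ∑' d : ℕ, hco d / d = 1 := by
  have hs : Summable (fun d : ℕ => hco d / d) := S1c_summable.of_norm
  refine ⟨hs, ?_⟩
  have hnn : ∀ d : ℕ, 0 ≤ hco d / d := by
    intro d
    unfold hco
    split_ifs with hd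
    · apply div_nonneg _ (Nat.cast_nonneg _)
      apply Finset.prod_nonneg
      intro p hp
      have hpp := Nat.prime_of_mem_primeFactors hp
      have h2 : (2 : ℝ) ≤ p := by exact_mod_cast hpp.two_le
      apply div_nonneg zero_le_one
      linarith
    · simp
  have hpos : 0 < ∑' d : ℕ, hco d / d := by
    apply hs.tsum_pos hnn 1
    rw [S1c_hco_one]
    simp
  have hE := EulerProduct.eulerProduct_hasProd (f := fun d : ℕ => hco d / (d : ℝ))
    (by simp only [S1c_hco_one, Nat.cast_one, div_one])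
    (by
      intro m n hmn
      simp only [S1c_hco_mul hmn, Nat.cast_mul]
      rw [mul_div_mul_comm])
    S1c_summable (by simp)
  have hE2 := hE.inv₀ hpos.ne'
  have htc : twinConst = (∑' d : ℕ, hco d / d)⁻¹ := by
    rw [← hE2.tprod_eq]
    unfold twinConst
    apply tprod_congr
    intro p
    rw [S1c_local p, inv_inv]
  rw [htc, inv_mul_cancel₀ hpos.ne']

end Pool.Agent.MG
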