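import Mathlib
import Pool.Agent.Lib.MP_bae66e_nt.Mg.G034
import Pool.Agent.Lib.MP_bae66e_nt.MG.S1b
import Pool.Agent.Lib.MP_bae66e_nt.MG.S1c

set_option autoImplicit false

namespace Pool.Agent.MG

open Pool.Agent.GM

private lemma S2a_hco_nonneg (d : ℕ) : 0 ≤ hco d := by
  unfold hco
  split_ifs with hd
  · apply Finset.prod_nonneg
    intro p hp
    have hpp := Nat.prime_of_mem_primeFactors hp
    have h2 : (2 : ℝ) ≤ p := by exact_mod_cast hpp.two_le
    apply div_nonneg zero_le_one
    linarith
  · exact le_refl _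

private lemma S2a_inner (x d : ℕ) (hd : Odd d) :
    ∑ a ∈ (Finset.Icc 1 x).filter (fun a => Even a ∧ d ∣ a), (1 : ℝ) / a
      = (1 / (2 * d)) * ((harmonic (x / (2 * d)) : ℚ) : ℝ) := by
  have hd0 : 0 < d := hd.pos
  have himg : (Finset.Icc 1 x).filter (fun a => Even a ∧ d ∣ a)
      = (Finset.range (x / (2 * d))).image (fun i => 2 * d * (i + 1)) := by
    ext a
    simp only [Finset.mem_filter, Finset.mem_Icc, Finset.mem_image, Finset.mem_range]
    constructor
    · rintro ⟨⟨h1, h2⟩, h3, h4⟩
      have hcop : Nat.Coprime 2 d := (Nat.coprime_two_left).mpr hd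
      have hdv : 2 * d ∣ a := hcop.mul_dvd_of_dvd_of_dvd (even_iff_two_dvd.mp h3) h4
      obtain ⟨b, rfl⟩ := hdv
      have hb : 1 ≤ b := by
        rcases Nat.eq_zero_or_pos b with rfl | h
        · simp at h1
        · exact h
      refine ⟨b - 1, ?_, by rw [Nat.sub_add_cancel hb]⟩
      have : b ≤ x / (2 * d) := by
        rw [Nat.le_div_iff_mul_le (by positivity)]
        rw [mul_comm]; exact h2
      omega
    · rintro ⟨i, hi, rfl⟩
      have h5 : (i + 1) * (2 * d) ≤ x := by
        rw [← Nat.le_div_iff_mul_le (by positivity)]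
        exact hi
      refine ⟨⟨?_, ?_⟩, ?_, ?_⟩
      · exact Nat.one_le_iff_ne_zero.mpr (by positivity)
      · rw [mul_comm]; exact h5
      · rw [mul_assoc]; exact even_two_mul _
      · exact Dvd.intro_left (2 * (i + 1)) (by ring)
  rw [himg, Finset.sum_image]
  · unfold harmonic
    push_cast
    rw [Finset.mul_sum]
    apply Finset.sum_congr rfl
    intro i _
    have h1 : (d : ℝ) ≠ 0 := by exact_mod_cast hd0.ne'
    have h2 : (i : ℝ) + 1 ≠ 0 := by positivity
    field_simp
  · intro i _ j _ hij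
    have : 2 * d * (i + 1) = 2 * d * (j + 1) := hij
    have := Nat.eq_of_mul_eq_mul_left (by positivity) this
    omega

private noncomputable def S2a_F (x d : ℕ) : ℝ :=
  (hco d / d) * (((harmonic (x / (2 * d)) : ℚ) : ℝ) / Real.log x)

private lemma S2a_identity (x : ℕ) :
    (∑ a ∈ (Finset.Icc 1 x).filter Even, sing a / a) / Real.log x
      = twinConst * ∑' d : ℕ, S2a_F x d := by
  have hsupp : ∀ d ∉ Finset.Icc 1 x, S2a_F x d = 0 := by
    intro d hd
    unfold S2a_F
    rw [Finset.mem_Icc] at hd
    rcases Nat.eq_zero_or_pos d with rfl | h0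
    · simp
    · have h1 : x < d := by
        by_contra h
        exact hd ⟨h0, not_lt.mp h⟩
      have h2 : x / (2 * d) = 0 := Nat.div_eq_of_lt (by omega)
      rw [h2]
      simp
  rw [tsum_eq_sum hsupp]
  have e1 : ∀ a ∈ (Finset.Icc 1 x).filter Even, sing a / a
      = 2 * twinConst * ∑ d ∈ a.divisors, (hco d * (1 / (a : ℝ))) := by
    intro a ha
    rw [Finset.mem_filter, Finset.mem_Icc] at ha
    rw [sing_eq_sum a (by omega), ← Finset.sum_mul]
    ring
  rw [Finset.sum_congr rfl e1, ← Finset.mul_sum]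
  have e2 : ∑ a ∈ (Finset.Icc 1 x).filter Even, ∑ d ∈ a.divisors, (hco d * (1 / (a : ℝ)))
      = ∑ d ∈ Finset.Icc 1 x, ∑ a ∈ (Finset.Icc 1 x).filter (fun a => Even a ∧ d ∣ a),
          (hco d * (1 / (a : ℝ))) := by
    apply Finset.sum_comm'
    intro a d
    simp only [Finset.mem_filter, Finset.mem_Icc, Nat.mem_divisors]
    constructor
    · rintro ⟨⟨⟨h1, h2⟩, h3⟩, h4, h5⟩
      exact ⟨⟨⟨h1, h2⟩, h3, h4⟩, Nat.pos_of_dvd_of_pos h4 h1, (Nat.le_of_dvd h1 h4).trans h2⟩
    · rintro ⟨⟨⟨h1, h2⟩, h3, h4⟩, _, _⟩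
      exact ⟨⟨⟨h1, h2⟩, h3⟩, h4, by omega⟩
  rw [e2, Finset.mul_sum, Finset.mul_sum, Finset.sum_div]
  apply Finset.sum_congr rfl
  intro d hd
  rw [Finset.mem_Icc] at hd
  rw [← Finset.mul_sum]
  unfold S2a_F
  by_cases ho : Odd d
  · rw [S2a_inner x d ho]
    have h1 : (d : ℝ) ≠ 0 := by
      have : d ≠ 0 := by omega
      exact_mod_cast this
    field_simp
  · have : hco d = 0 := by
      unfold hco
      rw [if_neg]
      rintro ⟨_, h⟩
      exact ho h
    rw [this]
    simp

/-- S2a. PROOF. By `sing_eq_sum`, writing `a = 2 d b` (`d` odd, `d ∣ a`, `a` even),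
`∑_{a ≤ x even} sing a / a = 2 twinConst ∑_{d ≤ x/2} (hco d/(2 d)) ∑_{b ≤ x/(2d)} 1/b`
(`hco d = 0` unless `d` is odd). For fixed `d` `(∑_{b ≤ x/(2d)} 1/b)/log x → 1`
(`log (n+1) ≤ H_n ≤ 1 + log n`: `log_add_one_le_harmonic`, `harmonic_le_one_add_log`), and it is `≤ 2`
for `x ≥ 3`; `hco d/d` is summable, so by dominated convergence
(`tendsto_tsum_of_dominated_convergence`) the quotient tends to
`twinConst ∑' hco d/d = 1` (`hco_sum`). -/
lemma sum_sing_div : Filter.Tendsto (fun x : ℕ =>
    (∑ a ∈ (Finset.Icc 1 x).filter Even, sing a / a) / Real.log x) Filter.atTop (nhds 1) := by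
  have hlog : Filter.Tendsto (fun x : ℕ => Real.log (x : ℝ)) Filter.atTop Filter.atTop :=
    Real.tendsto_log_atTop.comp tendsto_natCast_atTop_atTop
  have hH : ∀ x d : ℕ, 1 ≤ x → ((harmonic (x / (2 * d)) : ℚ) : ℝ) ≤ 1 + Real.log x := by
    intro x d hx
    refine (harmonic_le_one_add_log _).trans ?_
    have h1 : (x / (2 * d) : ℕ) ≤ x := Nat.div_le_self _ _
    rcases Nat.eq_zero_or_pos (x / (2 * d)) with h0 | h0
    · rw [h0]
      simp only [Nat.cast_zero, Real.log_zero, add_zero]
      have : 0 ≤ Real.log (x : ℝ) := Real.log_nonneg (by exact_mod_cast hx)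
      linarith
    · have : Real.log ((x / (2 * d) : ℕ) : ℝ) ≤ Real.log x :=
        Real.log_le_log (by exact_mod_cast h0) (by exact_mod_cast h1)
      linarith
  have hH0 : ∀ n : ℕ, 0 ≤ ((harmonic n : ℚ) : ℝ) := by
    intro n
    have h1 := log_add_one_le_harmonic n
    have h2 : 0 ≤ Real.log ((n + 1 : ℕ) : ℝ) := Real.log_nonneg (by
      push_cast
      have : (0 : ℝ) ≤ n := Nat.cast_nonneg _
      linarith)
    exact h2.trans h1
  have hdom : Filter.Tendsto (fun x : ℕ => ∑' d : ℕ, S2a_F x d) Filter.atTop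
      (nhds (∑' d : ℕ, hco d / d)) := by
    apply tendsto_tsum_of_dominated_convergence (bound := fun d : ℕ => (hco d / d) * 2)
    · exact hco_sum.1.mul_right 2
    · intro d
      rcases Nat.eq_zero_or_pos d with rfl | hd0
      · unfold S2a_F
        simp
      have hdR : (0 : ℝ) < d := by exact_mod_cast hd0
      have hmain : Filter.Tendsto (fun x : ℕ => ((harmonic (x / (2 * d)) : ℚ) : ℝ) / Real.log x)
          Filter.atTop (nhds 1) := by
        have hlow : Filter.Tendsto (fun x : ℕ => 1 - Real.log (2 * d) / Real.log (x : ℝ)) Filter.atTop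
            (nhds (1 - 0)) := by
          apply Filter.Tendsto.sub tendsto_const_nhds
          exact hlog.const_div_atTop _
        have hup : Filter.Tendsto (fun x : ℕ => 1 / Real.log (x : ℝ) + 1) Filter.atTop
            (nhds (0 + 1)) := by
          apply Filter.Tendsto.add _ tendsto_const_nhds
          exact hlog.const_div_atTop _
        rw [sub_zero] at hlow
        rw [zero_add] at hup
        refine tendsto_of_tendsto_of_tendsto_of_le_of_le' hlow hup ?_ ?_
        · filter_upwards [Filter.eventually_ge_atTop 3] with x hx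
          have hlx : 0 < Real.log (x : ℝ) := Real.log_pos (by
            have : (3 : ℝ) ≤ x := by exact_mod_cast hx
            linarith)
          have hx0 : (0 : ℝ) < x := by
            have : (3 : ℝ) ≤ x := by exact_mod_cast hx
            linarith
          have h1 := log_add_one_le_harmonic (x / (2 * d))
          have h2 : (x : ℝ) / (2 * d) ≤ ((x / (2 * d) + 1 : ℕ) : ℝ) := by
            rw [div_le_iff₀ (by positivity)]
            have h3 : x < (x / (2 * d) + 1) * (2 * d) := Nat.lt_mul_of_div_lt (Nat.lt_succ_self _) (by positivity)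
            have h4 : (x : ℝ) < ((x / (2 * d) + 1 : ℕ) : ℝ) * (2 * d) := by exact_mod_cast h3
            exact h4.le
          have h3 : Real.log ((x : ℝ) / (2 * d)) ≤ Real.log ((x / (2 * d) + 1 : ℕ) : ℝ) :=
            Real.log_le_log (by positivity) h2
          rw [Real.log_div hx0.ne' (by positivity)] at h3
          rw [le_div_iff₀ hlx, sub_mul, one_mul, div_mul_cancel₀ _ hlx.ne']
          exact h3.trans h1
        · filter_upwards [Filter.eventually_ge_atTop 3] with x hx
          have hlx : 0 < Real.log (x : ℝ) := Real.log_pos (by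
            have : (3 : ℝ) ≤ x := by exact_mod_cast hx
            linarith)
          rw [div_le_iff₀ hlx, add_mul, one_mul, div_mul_cancel₀ _ hlx.ne']
          exact hH x d (by omega)
      have := hmain.const_mul (hco d / d)
      rw [mul_one] at this
      exact this
    · filter_upwards [Filter.eventually_ge_atTop 3] with x hx
      intro d
      have hx3 : (3 : ℝ) ≤ x := by exact_mod_cast hx
      have hlx1 : 1 ≤ Real.log (x : ℝ) := by
        rw [Real.le_log_iff_exp_le (by linarith)]
        exact (Real.exp_one_lt_d9.le.trans (by norm_num)).trans hx3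
      have h0 : 0 ≤ hco d / d := div_nonneg (S2a_hco_nonneg d) (Nat.cast_nonneg _)
      unfold S2a_F
      rw [Real.norm_of_nonneg (mul_nonneg h0 (div_nonneg (hH0 _) (by linarith)))]
      apply mul_le_mul_of_nonneg_left _ h0
      rw [div_le_iff₀ (by linarith)]
      have := hH x d (by omega)
      linarith
  have hfin := hdom.const_mul twinConst
  rw [hco_sum.2] at hfin
  refine hfin.congr (fun x => ?_)
  rw [S2a_identity x]

end Pool.Agent.MG
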