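import Mathlib
import Pool.Agent.Lib.MP_bae66e_nt.MG.S2a

set_option autoImplicit false

namespace Pool.Agent.MG

open Pool.Agent.GM

lemma S2b_log_floor (v : ℝ) (hv : 1 ≤ v) : Filter.Tendsto (fun z : ℕ =>
    Real.log (⌊(z : ℝ) ^ v⌋₊ : ℝ) / Real.log z) Filter.atTop (nhds v) := by
  have hlog : Filter.Tendsto (fun z : ℕ => Real.log (z : ℝ)) Filter.atTop Filter.atTop :=
    Real.tendsto_log_atTop.comp tendsto_natCast_atTop_atTop
  have hlow : Filter.Tendsto (fun z : ℕ => v - Real.log 2 / Real.log z) Filter.atTop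
      (nhds (v - 0)) := (hlog.const_div_atTop (Real.log 2)).const_sub v
  rw [sub_zero] at hlow
  apply tendsto_of_tendsto_of_tendsto_of_le_of_le' hlow tendsto_const_nhds
  · filter_upwards [Filter.eventually_ge_atTop 2] with z hz
    have hz2 : (2 : ℝ) ≤ z := by exact_mod_cast hz
    have hl : 0 < Real.log z := Real.log_pos (by linarith)
    have hzv : (2 : ℝ) ≤ (z : ℝ) ^ v := by
      calc (2 : ℝ) ≤ z := hz2
        _ = (z : ℝ) ^ (1 : ℝ) := (Real.rpow_one _).symm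
        _ ≤ _ := Real.rpow_le_rpow_of_exponent_le (by linarith) hv
    have hf : (z : ℝ) ^ v / 2 ≤ (⌊(z : ℝ) ^ v⌋₊ : ℝ) := by
      have := Nat.lt_floor_add_one ((z : ℝ) ^ v)
      linarith
    have h1 := Real.log_le_log (by positivity) hf
    rw [Real.log_div (by positivity) (by norm_num), Real.log_rpow (by linarith)] at h1
    rw [le_div_iff₀ hl, sub_mul, div_mul_cancel₀ _ hl.ne']
    exact h1
  · filter_upwards [Filter.eventually_ge_atTop 2] with z hz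
    have hz2 : (2 : ℝ) ≤ z := by exact_mod_cast hz
    have hl : 0 < Real.log z := Real.log_pos (by linarith)
    have hzv : (2 : ℝ) ≤ (z : ℝ) ^ v := by
      calc (2 : ℝ) ≤ z := hz2
        _ = (z : ℝ) ^ (1 : ℝ) := (Real.rpow_one _).symm
        _ ≤ _ := Real.rpow_le_rpow_of_exponent_le (by linarith) hv
    have h0 : (0 : ℝ) < (⌊(z : ℝ) ^ v⌋₊ : ℝ) := by
      have : 2 ≤ ⌊(z : ℝ) ^ v⌋₊ := Nat.le_floor (by exact_mod_cast hzv)
      exact_mod_cast (by omega : 0 < ⌊(z : ℝ) ^ v⌋₊)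
    have h1 := Real.log_le_log h0 (Nat.floor_le (by positivity : 0 ≤ (z : ℝ) ^ v))
    rw [Real.log_rpow (by linarith)] at h1
    rw [div_le_iff₀ hl]
    exact h1

lemma S2b_floor_tendsto (v : ℝ) (hv : 1 ≤ v) : Filter.Tendsto (fun z : ℕ =>
    ⌊(z : ℝ) ^ v⌋₊) Filter.atTop Filter.atTop := by
  apply Filter.tendsto_atTop_mono' _ _ Filter.tendsto_id
  filter_upwards [Filter.eventually_ge_atTop 1] with z hz
  apply Nat.le_floor
  calc (z : ℝ) = (z : ℝ) ^ (1 : ℝ) := (Real.rpow_one _).symm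
    _ ≤ _ := Real.rpow_le_rpow_of_exponent_le (by exact_mod_cast hz) hv

lemma S2b_one (v : ℝ) (hv : 1 ≤ v) : Filter.Tendsto (fun z : ℕ =>
    (∑ a ∈ (Finset.Icc 1 ⌊(z : ℝ) ^ v⌋₊).filter Even, sing a / a) / Real.log z) Filter.atTop
    (nhds v) := by
  have h1 := (sum_sing_div.comp (S2b_floor_tendsto v hv)).mul (S2b_log_floor v hv)
  rw [one_mul] at h1
  refine h1.congr' ?_
  filter_upwards [Filter.eventually_ge_atTop 2] with z hz
  simp only [Function.comp]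
  have hz2 : (2 : ℝ) ≤ z := by exact_mod_cast hz
  have hzv : (2 : ℝ) ≤ (z : ℝ) ^ v := by
    calc (2 : ℝ) ≤ z := hz2
      _ = (z : ℝ) ^ (1 : ℝ) := (Real.rpow_one _).symm
      _ ≤ _ := Real.rpow_le_rpow_of_exponent_le (by linarith) hv
  have h0 : (1 : ℝ) < (⌊(z : ℝ) ^ v⌋₊ : ℝ) := by
    have : 2 ≤ ⌊(z : ℝ) ^ v⌋₊ := Nat.le_floor (by exact_mod_cast hzv)
    exact_mod_cast (by omega : 1 < ⌊(z : ℝ) ^ v⌋₊)
  have hl : Real.log (⌊(z : ℝ) ^ v⌋₊ : ℝ) ≠ 0 := (Real.log_pos h0).ne'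
  field_simp

/-- S2b. PROOF. `sum_sing_div` at `x = ⌊z^v₁⌋` and `⌊z^v₂⌋`, whose logarithms are `~ v_i log z`;
subtract (`Finset.Ioc`, monotone sets). -/
lemma sum_sing_aSet (v₁ v₂ : ℝ) (h1 : 1 ≤ v₁) (h2 : v₁ < v₂) : Filter.Tendsto (fun z : ℕ =>
    (∑ a ∈ aSet z v₁ v₂, sing a / a) / Real.log z) Filter.atTop (nhds (v₂ - v₁)) := by
  have h := (S2b_one v₂ (by linarith)).sub (S2b_one v₁ h1)
  refine h.congr' ?_
  filter_upwards [Filter.eventually_ge_atTop 1] with z hz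
  rw [← sub_div]
  congr 1
  have hle : ⌊(z : ℝ) ^ v₁⌋₊ ≤ ⌊(z : ℝ) ^ v₂⌋₊ := Nat.floor_le_floor
    (Real.rpow_le_rpow_of_exponent_le (by exact_mod_cast hz) h2.le)
  have e : (Finset.Icc 1 ⌊(z : ℝ) ^ v₂⌋₊).filter Even
      = (Finset.Icc 1 ⌊(z : ℝ) ^ v₁⌋₊).filter Even ∪ aSet z v₁ v₂ := by
    unfold aSet
    ext n
    simp only [Finset.mem_union, Finset.mem_filter, Finset.mem_Icc, Finset.mem_Ioc]
    constructor
    · rintro ⟨⟨h3, h4⟩, h5⟩
      rcases le_or_gt n ⌊(z : ℝ) ^ v₁⌋₊ with h | h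
      · exact Or.inl ⟨⟨h3, h⟩, h5⟩
      · exact Or.inr ⟨⟨h, h4⟩, h5⟩
    · rintro (⟨⟨h3, h4⟩, h5⟩ | ⟨⟨h3, h4⟩, h5⟩)
      · exact ⟨⟨h3, h4.trans hle⟩, h5⟩
      · exact ⟨⟨by omega, h4⟩, h5⟩
  rw [e, Finset.sum_union]
  · ring
  · rw [Finset.disjoint_left]
    intro n hn hn'
    unfold aSet at hn'
    simp only [Finset.mem_filter, Finset.mem_Icc, Finset.mem_Ioc] at hn hn'
    omega

end Pool.Agent.MG
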