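import Mathlib
import Pool.Agent.Lib.MP_bae66e_nt.MG.B0
import Pool.Agent.Lib.MP_bae66e_nt.MG.A2
import Pool.Agent.Lib.MP_bae66e_nt.MG.S2b

set_option autoImplicit false

namespace Pool.Agent.MG

open Pool.Agent.GM

private lemma B1b_log (v : ℝ) (hv : 0 ≤ v) (k : ℝ) (hk : v ^ 2 ≤ k) (hk1 : 1 ≤ k) :
    v * Real.log k ≤ 2 * k := by
  have hk0 : 0 ≤ k := by linarith
  have h1 : Real.log k ≤ 2 * √k := by
    have h2 := Real.log_sqrt hk0
    have h3 : Real.log √k ≤ √k - 1 :=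
      Real.log_le_sub_one_of_pos (Real.sqrt_pos.mpr (by linarith))
    linarith
  have h4 : v ≤ √k := Real.le_sqrt_of_sq_le hk
  have h5 : √k * √k = k := Real.mul_self_sqrt hk0
  calc v * Real.log k ≤ v * (2 * √k) := mul_le_mul_of_nonneg_left h1 hv
    _ = 2 * (v * √k) := by ring
    _ ≤ 2 * (√k * √k) := by
        have := mul_le_mul_of_nonneg_right h4 (Real.sqrt_nonneg k)
        linarith
    _ = 2 * k := by rw [h5]

/-- B1b. PROOF. Sum `TE_bounds` (with `η/3`) over `a ∈ aSet z v₁ v₂` with the weights `1/a`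
(`1 ≤ a`, `log a ≤ v₂ log z ≤ v₂ log k ≤ 2k`), and `sum_sing_aSet`:
`∑ sing a/a` is within `(η/3) (v₂ - v₁) log z` of `(v₂ - v₁) log z`. `z → ∞` as `z ≥ e k - 1`. -/
theorem SE_bounds (lam B β : ℝ) (hlam : 0 < lam) (hB : 1 < B)
    (v₁ v₂ : ℝ) (hv1 : B < v₁) (hv2 : v₁ < v₂) (θ : ℝ) (h0 : 0 < θ) (h1 : θ < 1 / 4) :
    ∃ e₀ : ℝ, 0 < e₀ ∧ ∀ e η : ℝ, 0 < e → e ≤ e₀ → 0 < η → η < 1 →
      ∃ K k₀ : ℕ, ∀ k : ℕ, k₀ ≤ k → ∀ z : ℕ, e * k - 1 ≤ z → (z : ℝ) ≤ e * k →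
        ∀ (p₁ : ℕ) (D₀ : Finset ℕ), Adm K k z p₁ D₀ →
          (1 - η) * ((v₂ - v₁) * Real.log z) * piR (scale lam B β ((1 - θ) * k))
            ≤ ((Mz z (insert p₁ D₀) : ℕ) : ℝ)
              * SE θ lam B β k z (Mz z (insert p₁ D₀)) v₁ v₂ ∧
          ((Mz z (insert p₁ D₀) : ℕ) : ℝ) * SE θ lam B β k z (Mz z (insert p₁ D₀)) v₁ v₂
            ≤ (1 + η) * ((v₂ - v₁) * Real.log z) * piR (scale lam B β ((1 + θ) * k)) := by
  obtain ⟨e₀, he₀, hTE⟩ := TE_bounds lam B β hlam hB θ h0 h1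
  have hv2' : 1 < v₂ := by linarith
  refine ⟨min e₀ 1, lt_min he₀ one_pos, fun e η he hee hη hη1 => ?_⟩
  obtain ⟨K, k₀, hk₀⟩ := hTE e (η / 3) he (hee.trans (min_le_left _ _)) (by positivity)
  have hlim := sum_sing_aSet v₁ v₂ (by linarith) hv2
  rw [Metric.tendsto_atTop] at hlim
  obtain ⟨z₀, hz₀⟩ := hlim (η / 3 * (v₂ - v₁)) (mul_pos (by positivity) (by linarith))
  refine ⟨K, k₀ + ⌈((z₀ : ℝ) + 3) / e⌉₊ + ⌈v₂ ^ 2⌉₊ + 1, ?_⟩
  intro k hk z hz1 hz2 p₁ D₀ hadm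
  have hkk : k₀ ≤ k := by omega
  have hk1 : (1 : ℝ) ≤ k := by exact_mod_cast (by omega : 1 ≤ k)
  have hkz : ((z₀ : ℝ) + 3) / e ≤ k :=
    (Nat.le_ceil _).trans (by exact_mod_cast (by omega : ⌈((z₀ : ℝ) + 3) / e⌉₊ ≤ k))
  have hkv : v₂ ^ 2 ≤ k := (Nat.le_ceil _).trans (by exact_mod_cast (by omega : ⌈v₂ ^ 2⌉₊ ≤ k))
  rw [div_le_iff₀ he] at hkz
  have hzr : (z₀ : ℝ) + 2 ≤ z := by linarith
  have hz0 : z₀ ≤ z := by
    have : (z₀ : ℝ) ≤ z := by linarith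
    exact_mod_cast this
  have hz2r : (2 : ℝ) ≤ z := by
    have : (0 : ℝ) ≤ z₀ := Nat.cast_nonneg _
    linarith
  have hzk : (z : ℝ) ≤ k := by
    have h2 : e * k ≤ 1 * k := mul_le_mul_of_nonneg_right (hee.trans (min_le_right _ _))
      (by linarith)
    linarith
  have hlogz : 0 < Real.log z := Real.log_pos (by linarith)
  have hlogz2 : Real.log z ≤ Real.log k := Real.log_le_log (by linarith) hzk
  -- the elements of `aSet`
  have ha : ∀ a ∈ aSet z v₁ v₂, 1 ≤ a ∧ Real.log a ≤ 2 * k := by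
    intro a ha
    unfold aSet at ha
    rw [Finset.mem_filter, Finset.mem_Ioc] at ha
    obtain ⟨⟨ha1, ha2⟩, _⟩ := ha
    have ha0 : 1 ≤ a := by omega
    refine ⟨ha0, ?_⟩
    have har : (1 : ℝ) ≤ a := by exact_mod_cast ha0
    have h2 : (a : ℝ) ≤ (z : ℝ) ^ v₂ :=
      (Nat.le_floor_iff (by positivity)).mp ha2
    have h3 := Real.log_le_log (by linarith) h2
    rw [Real.log_rpow (by linarith)] at h3
    have h4 : v₂ * Real.log z ≤ v₂ * Real.log k := mul_le_mul_of_nonneg_left hlogz2 (by linarith)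
    have h5 := B1b_log v₂ (by linarith) k hkv hk1
    linarith
  have hrow := fun a (h : a ∈ aSet z v₁ v₂) => hk₀ k hkk z hz1 hz2 p₁ D₀ hadm a (ha a h).1 (ha a h).2
  generalize Mz z (insert p₁ D₀) = M at hrow ⊢
  have hS := hz₀ z hz0
  rw [Real.dist_eq, abs_lt] at hS
  have hP1 : 0 ≤ piR (scale lam B β ((1 - θ) * k)) := Nat.cast_nonneg _
  have hP2 : 0 ≤ piR (scale lam B β ((1 + θ) * k)) := Nat.cast_nonneg _
  generalize piR (scale lam B β ((1 - θ) * k)) = P1 at hrow hP1 ⊢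
  generalize piR (scale lam B β ((1 + θ) * k)) = P2 at hrow hP2 ⊢
  obtain ⟨S, hSd⟩ : ∃ S : ℝ, S = ∑ a ∈ aSet z v₁ v₂, sing a / a := ⟨_, rfl⟩
  rw [← hSd] at hS
  obtain ⟨W, hW⟩ : ∃ W : ℝ, W = (v₂ - v₁) * Real.log z := ⟨_, rfl⟩
  have hW0 : 0 ≤ W := by rw [hW]; exact mul_nonneg (by linarith) hlogz.le
  have hS1 : (1 - η / 3) * W ≤ S := by
    have h2 : (1 - η / 3) * (v₂ - v₁) ≤ S / Real.log z := by linarith [hS.1]
    rw [le_div_iff₀ hlogz] at h2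
    rw [hW]
    linarith
  have hS2 : S ≤ (1 + η / 3) * W := by
    have h2 : S / Real.log z ≤ (1 + η / 3) * (v₂ - v₁) := by linarith [hS.2]
    rw [div_le_iff₀ hlogz] at h2
    rw [hW]
    linarith
  rw [← hW]
  have hSE : (M : ℝ) * SE θ lam B β k z M v₁ v₂ =
      ∑ a ∈ aSet z v₁ v₂, ((M : ℝ) * TE θ lam B β k M a) / a := by
    unfold SE
    rw [Finset.mul_sum]
    refine Finset.sum_congr rfl fun a _ => ?_
    rw [mul_div_assoc]
  rw [hSE]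
  constructor
  · have h2 : ∑ a ∈ aSet z v₁ v₂, ((1 - η / 3) * sing a * P1) / a ≤
        ∑ a ∈ aSet z v₁ v₂, ((M : ℝ) * TE θ lam B β k M a) / a :=
      Finset.sum_le_sum fun a h => div_le_div_of_nonneg_right (hrow a h).1 (Nat.cast_nonneg _)
    have h3 : ∑ a ∈ aSet z v₁ v₂, ((1 - η / 3) * sing a * P1) / a = (1 - η / 3) * P1 * S := by
      rw [hSd, Finset.mul_sum]
      refine Finset.sum_congr rfl fun a _ => ?_
      ring
    rw [h3] at h2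
    refine le_trans ?_ h2
    have h4 : (1 - η / 3) * P1 * ((1 - η / 3) * W) ≤ (1 - η / 3) * P1 * S :=
      mul_le_mul_of_nonneg_left hS1 (mul_nonneg (by linarith) hP1)
    refine le_trans ?_ h4
    have h5 : 1 - η ≤ (1 - η / 3) * (1 - η / 3) := by nlinarith
    have h6 := mul_le_mul_of_nonneg_right h5 (mul_nonneg hW0 hP1)
    calc (1 - η) * W * P1 = (1 - η) * (W * P1) := by ring
      _ ≤ (1 - η / 3) * (1 - η / 3) * (W * P1) := h6
      _ = (1 - η / 3) * P1 * ((1 - η / 3) * W) := by ring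
  · have h2 : ∑ a ∈ aSet z v₁ v₂, ((M : ℝ) * TE θ lam B β k M a) / a ≤
        ∑ a ∈ aSet z v₁ v₂, ((1 + η / 3) * sing a * P2) / a :=
      Finset.sum_le_sum fun a h => div_le_div_of_nonneg_right (hrow a h).2 (Nat.cast_nonneg _)
    have h3 : ∑ a ∈ aSet z v₁ v₂, ((1 + η / 3) * sing a * P2) / a = (1 + η / 3) * P2 * S := by
      rw [hSd, Finset.mul_sum]
      refine Finset.sum_congr rfl fun a _ => ?_
      ring
    rw [h3] at h2
    refine h2.trans ?_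
    have h4 : (1 + η / 3) * P2 * S ≤ (1 + η / 3) * P2 * ((1 + η / 3) * W) :=
      mul_le_mul_of_nonneg_left hS2 (mul_nonneg (by linarith) hP2)
    refine h4.trans ?_
    have h5 : (1 + η / 3) * (1 + η / 3) ≤ 1 + η := by nlinarith
    have h6 := mul_le_mul_of_nonneg_right h5 (mul_nonneg hW0 hP2)
    calc (1 + η / 3) * P2 * ((1 + η / 3) * W) = (1 + η / 3) * (1 + η / 3) * (W * P2) := by ring
      _ ≤ (1 + η) * (W * P2) := h6
      _ = (1 + η) * W * P2 := by ring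

end Pool.Agent.MG
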