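import Mathlib
import Pool.Agent.Lib.MP_bae66e_nt.Mg.G034
import Pool.Agent.Lib.MP_bae66e_nt.BrunT
import Pool.Agent.Lib.MP_bae66e_nt.Cheb

set_option autoImplicit false

namespace Pool.Agent.MG

open Pool.Agent.GM

open Pool.Agent.Lib.MP_bae66e_nt in
private lemma aux_rho1 : rho 1 = 1 := by
  unfold rho
  simp

open Pool.Agent.Lib.MP_bae66e_nt in
private lemma aux_pi_diff (n n' x : ℕ) (hx : 2 ≤ x) (h : n' ≤ n + x) :
    (Nat.primeCounting n' : ℝ) ≤ Nat.primeCounting n + 8 * x / Real.log x := by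
  have h1 := brun_titchmarsh 1 n x le_rfl hx
  rw [aux_rho1, one_mul] at h1
  have h2 : Nat.primeCounting n' ≤ Nat.primeCounting n +
      ((Finset.Ioc 0 x).filter (fun j => (1 * j + n).Prime)).card := by
    have h3 : Nat.primeCounting n' ≤ Nat.primeCounting (n + x) := Nat.monotone_primeCounting h
    refine h3.trans ?_
    rw [Nat.primeCounting, Nat.primeCounting', Nat.primeCounting, Nat.primeCounting',
      Nat.count_eq_card_filter_range, Nat.count_eq_card_filter_range]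
    have h4 : (Finset.range (n + x + 1)).filter Nat.Prime ⊆
        (Finset.range (n + 1)).filter Nat.Prime ∪
        ((Finset.Ioc 0 x).filter (fun j => (1 * j + n).Prime)).image (fun j => 1 * j + n) := by
      intro p hp
      rw [Finset.mem_filter, Finset.mem_range] at hp
      rw [Finset.mem_union, Finset.mem_filter, Finset.mem_range, Finset.mem_image]
      by_cases hpn : p < n + 1
      · exact Or.inl ⟨hpn, hp.2⟩
      · right
        refine ⟨p - n, ?_, by omega⟩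
        rw [Finset.mem_filter, Finset.mem_Ioc]
        refine ⟨by omega, ?_⟩
        have e : 1 * (p - n) + n = p := by omega
        rw [e]
        exact hp.2
    refine (Finset.card_le_card h4).trans ((Finset.card_union_le _ _).trans ?_)
    exact Nat.add_le_add_left Finset.card_image_le _
  have h3 : (Nat.primeCounting n' : ℝ) ≤ Nat.primeCounting n +
      (((Finset.Ioc 0 x).filter (fun j => (1 * j + n).Prime)).card : ℝ) := by exact_mod_cast h2
  linarith

open Pool.Agent.Lib.MP_bae66e_nt in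
private lemma aux_pi (τ : ℝ) (hτ : 0 < τ) : ∃ Y₀ : ℝ, ∀ y : ℝ, Y₀ ≤ y →
    ∀ y' : ℝ, y' ≤ (1 + τ) * y → piR y' ≤ (1 + 256 * τ) * piR y := by
  refine ⟨max 32 (max (2 / τ) ((1 / τ) ^ 2)), ?_⟩
  intro y hy y' hy'
  have c1 : 32 ≤ y := le_trans (le_max_left _ _) hy
  have c2 : 2 / τ ≤ y := le_trans (le_trans (le_max_left _ _) (le_max_right _ _)) hy
  have c3 : (1 / τ) ^ 2 ≤ y := le_trans (le_trans (le_max_right _ _) (le_max_right _ _)) hy
  have hy0 : 0 < y := by linarith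
  rw [div_le_iff₀ hτ] at c2
  obtain ⟨n, hn⟩ : ∃ n, n = ⌊y⌋₊ := ⟨_, rfl⟩
  obtain ⟨n', hn'⟩ : ∃ n', n' = ⌊y'⌋₊ := ⟨_, rfl⟩
  have hn1 : (n : ℝ) ≤ y := by rw [hn]; exact Nat.floor_le hy0.le
  have hn2 : y < n + 1 := by rw [hn]; exact Nat.lt_floor_add_one y
  have hn16 : 16 ≤ n := by
    rw [hn]; apply Nat.le_floor; norm_num; linarith
  have hn16r : (16 : ℝ) ≤ n := by exact_mod_cast hn16
  obtain ⟨x, hx⟩ : ∃ x, x = ⌈τ * y⌉₊ + 1 := ⟨_, rfl⟩
  have hx1 : τ * y + 1 ≤ x := by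
    rw [hx]; push_cast; linarith [Nat.le_ceil (τ * y)]
  have hx2 : (x : ℝ) ≤ τ * y + 2 := by
    rw [hx]; push_cast; linarith [Nat.ceil_lt_add_one (show 0 ≤ τ * y by positivity)]
  have hx3 : 2 ≤ x := by
    have : (2 : ℝ) ≤ x := by nlinarith
    exact_mod_cast this
  have hnn : n' ≤ n + x := by
    rw [hn']
    apply Nat.floor_le_of_le
    push_cast
    nlinarith
  have h1 := aux_pi_diff n n' x hx3 hnn
  have h2 := pi_lower n hn16
  have hly : 0 < Real.log y := Real.log_pos (by linarith)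
  have hln : 0 < Real.log n := Real.log_pos (by linarith)
  have hlx : Real.log y / 2 ≤ Real.log x := by
    have h3 : Real.sqrt y ≤ x := by
      refine le_trans ?_ (show τ * y ≤ (x : ℝ) by linarith)
      apply Real.sqrt_le_iff.2
      refine ⟨by positivity, ?_⟩
      have h4 : 1 ≤ τ ^ 2 * y := by
        have h5 : (1 / τ) ^ 2 * τ ^ 2 = 1 := by field_simp
        calc (1 : ℝ) = (1 / τ) ^ 2 * τ ^ 2 := h5.symm
          _ ≤ y * τ ^ 2 := mul_le_mul_of_nonneg_right c3 (by positivity)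
          _ = τ ^ 2 * y := mul_comm _ _
      calc y = y * 1 := (mul_one _).symm
        _ ≤ y * (τ ^ 2 * y) := mul_le_mul_of_nonneg_left h4 hy0.le
        _ = (τ * y) ^ 2 := by ring
    have h6 := Real.log_le_log (Real.sqrt_pos.2 hy0) h3
    rw [Real.log_sqrt hy0.le] at h6
    exact h6
  have h3 : 8 * (x : ℝ) / Real.log x ≤ 32 * τ * y / Real.log y := by
    have hlx0 : 0 < Real.log x := lt_of_lt_of_le (by positivity) hlx
    rw [div_le_div_iff₀ hlx0 hly]
    have h4 : (x : ℝ) ≤ 2 * (τ * y) := by linarith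
    have h5 : Real.log y ≤ 2 * Real.log x := by linarith
    calc 8 * (x : ℝ) * Real.log y ≤ 8 * (2 * (τ * y)) * (2 * Real.log x) := by
          apply mul_le_mul _ h5 hly.le (by positivity)
          linarith
      _ = 32 * τ * y * Real.log x := by ring
  have h4 : y / (8 * Real.log y) ≤ (Nat.primeCounting n : ℝ) := by
    refine le_trans ?_ h2
    have h5 : Real.log n ≤ Real.log y := Real.log_le_log (by linarith) hn1
    rw [div_le_div_iff₀ (by positivity) (by positivity)]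
    have h6 : y ≤ 2 * n := by linarith
    calc y * (4 * Real.log n) ≤ (2 * n) * (4 * Real.log y) := by
          apply mul_le_mul h6 _ (by positivity) (by positivity)
          linarith
      _ = n * (8 * Real.log y) := by ring
  have h5 : 32 * τ * y / Real.log y = 256 * τ * (y / (8 * Real.log y)) := by field_simp; norm_num
  unfold piR
  rw [← hn, ← hn']
  have h6 : 256 * τ * (y / (8 * Real.log y)) ≤ 256 * τ * (Nat.primeCounting n : ℝ) :=
    mul_le_mul_of_nonneg_left h4 (by positivity)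
  linarith

private lemma aux_scale_large (lam B β : ℝ) (hlam : 0 < lam) (hB : 1 < B) (Y₀ : ℝ) :
    ∃ t₀ : ℝ, ∀ t : ℝ, t₀ ≤ t → Y₀ ≤ scale lam B β t := by
  have h1 := (isLittleO_log_rpow_rpow_atTop |β| (show 0 < B - 1 by linarith)).bound one_pos
  rw [Filter.eventually_atTop] at h1
  obtain ⟨t₁, ht₁⟩ := h1
  refine ⟨max t₁ (max (Real.exp 1) (Y₀ / lam)), ?_⟩
  intro t ht
  have c1 : t₁ ≤ t := le_trans (le_max_left _ _) ht
  have c2 : Real.exp 1 ≤ t := le_trans (le_trans (le_max_left _ _) (le_max_right _ _)) ht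
  have c3 : Y₀ / lam ≤ t := le_trans (le_trans (le_max_right _ _) (le_max_right _ _)) ht
  have ht0 : 0 < t := lt_of_lt_of_le (Real.exp_pos 1) c2
  have hl1 : 1 ≤ Real.log t := by rwa [Real.le_log_iff_exp_le ht0]
  have hl0 : 0 < Real.log t := by linarith
  have h2 := ht₁ t c1
  rw [one_mul, Real.norm_eq_abs, Real.norm_eq_abs,
    abs_of_nonneg (show (0 : ℝ) ≤ Real.log t ^ |β| by positivity),
    abs_of_nonneg (show (0 : ℝ) ≤ t ^ (B - 1) by positivity)] at h2
  have h3 : (Real.log t) ^ (-|β|) ≤ (Real.log t) ^ β :=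
    Real.rpow_le_rpow_of_exponent_le hl1 (neg_abs_le β)
  have h4 : t ^ (-(B - 1)) ≤ (Real.log t) ^ (-|β|) := by
    rw [Real.rpow_neg ht0.le, Real.rpow_neg hl0.le]
    exact inv_anti₀ (by positivity) h2
  unfold scale
  calc Y₀ ≤ lam * t := by rw [div_le_iff₀ hlam] at c3; linarith
    _ = lam * t ^ B * t ^ (-(B - 1)) := by
        rw [mul_assoc, ← Real.rpow_add ht0]
        have : B + -(B - 1) = 1 := by ring
        rw [this, Real.rpow_one]
    _ ≤ lam * t ^ B * (Real.log t) ^ β :=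
        mul_le_mul_of_nonneg_left (h4.trans h3) (by positivity)

private lemma aux_ratio (lam B β : ℝ) (hlam : 0 < lam) (hB : 1 < B) (τ θ t : ℝ) (hτ : 0 < τ)
    (hθ0 : 0 < θ) (hθ1 : θ ≤ 1 / 4) (hθB : 6 * θ * B ≤ Real.log (1 + τ))
    (ht : 1 < (1 - θ) * t)
    (hL : 2 * |β| / Real.log (1 + τ) ≤ Real.log ((1 - θ) * t)) :
    scale lam B β ((1 + θ) * t) ≤ (1 + τ) * scale lam B β ((1 - θ) * t) := by
  have hlτ : 0 < Real.log (1 + τ) := Real.log_pos (by linarith)
  have ht0 : 0 < t := by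
    by_contra hcon
    rw [not_lt] at hcon
    nlinarith
  obtain ⟨L, hLdef⟩ : ∃ L, L = Real.log ((1 - θ) * t) := ⟨_, rfl⟩
  obtain ⟨L', hL'def⟩ : ∃ L', L' = Real.log ((1 + θ) * t) := ⟨_, rfl⟩
  have hL0 : 0 < L := by rw [hLdef]; exact Real.log_pos ht
  have hq : (1 + θ) / (1 - θ) ≤ Real.exp (3 * θ) := by
    rw [div_le_iff₀ (by linarith)]
    have h1 := Real.add_one_le_exp (3 * θ)
    nlinarith
  have hLL : L ≤ L' := by
    rw [hLdef, hL'def]
    apply Real.log_le_log (by linarith)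
    nlinarith
  have hL1 : L' ≤ L + 1 := by
    have h1 : (1 + θ) * t ≤ Real.exp (3 * θ) * ((1 - θ) * t) := by
      rw [div_le_iff₀ (by linarith)] at hq
      nlinarith
    have h2 := Real.log_le_log (by nlinarith) h1
    rw [Real.log_mul (Real.exp_pos _).ne' (by linarith), Real.log_exp, ← hLdef, ← hL'def] at h2
    linarith
  have h1 : ((1 + θ) * t) ^ B ≤ Real.exp (Real.log (1 + τ) / 2) * ((1 - θ) * t) ^ B := by
    have h2 : ((1 + θ) * t) ^ B ≤ (Real.exp (3 * θ) * ((1 - θ) * t)) ^ B := by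
      apply Real.rpow_le_rpow (by positivity) _ (by linarith)
      rw [div_le_iff₀ (by linarith)] at hq
      nlinarith
    rw [Real.mul_rpow (Real.exp_pos _).le (by linarith), ← Real.exp_mul] at h2
    refine h2.trans ?_
    apply mul_le_mul_of_nonneg_right _ (Real.rpow_nonneg (by linarith) _)
    apply Real.exp_le_exp.2
    linarith
  have h3 : L' ^ β ≤ Real.exp (Real.log (1 + τ) / 2) * L ^ β := by
    have h4 : L' ^ β = (L' / L) ^ β * L ^ β := by
      rw [Real.div_rpow (by linarith) hL0.le]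
      have : L ^ β ≠ 0 := (Real.rpow_pos_of_pos hL0 β).ne'
      field_simp
    rw [h4]
    apply mul_le_mul_of_nonneg_right _ (by positivity)
    have h5 : 1 ≤ L' / L := by rw [le_div_iff₀ hL0]; linarith
    have h6 : L' / L ≤ Real.exp (1 / L) := by
      have h7 := Real.add_one_le_exp (1 / L)
      refine le_trans ?_ h7
      rw [div_le_iff₀ hL0]
      have : (1 / L + 1) * L = 1 + L := by field_simp
      rw [this]
      linarith
    calc (L' / L) ^ β ≤ (L' / L) ^ |β| := Real.rpow_le_rpow_of_exponent_le h5 (le_abs_self β)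
      _ ≤ (Real.exp (1 / L)) ^ |β| := Real.rpow_le_rpow (by linarith) h6 (abs_nonneg _)
      _ = Real.exp (1 / L * |β|) := by rw [← Real.exp_mul]
      _ ≤ Real.exp (Real.log (1 + τ) / 2) := by
          apply Real.exp_le_exp.2
          rw [← hLdef] at hL
          rw [div_le_iff₀ hlτ] at hL
          rw [div_mul_eq_mul_div, one_mul, div_le_iff₀ hL0]
          linarith
  have hs0 : 0 ≤ ((1 - θ) * t) ^ B := Real.rpow_nonneg (by linarith) _
  have hs1 : 0 ≤ L' ^ β := Real.rpow_nonneg (by linarith) _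
  unfold scale
  rw [← hLdef, ← hL'def]
  calc lam * ((1 + θ) * t) ^ B * L' ^ β
      ≤ lam * (Real.exp (Real.log (1 + τ) / 2) * ((1 - θ) * t) ^ B) *
        (Real.exp (Real.log (1 + τ) / 2) * L ^ β) := by
        apply mul_le_mul _ h3 hs1 (by positivity)
        exact mul_le_mul_of_nonneg_left h1 hlam.le
    _ = (Real.exp (Real.log (1 + τ) / 2) * Real.exp (Real.log (1 + τ) / 2)) *
        (lam * ((1 - θ) * t) ^ B * L ^ β) := by ring
    _ = (1 + τ) * (lam * ((1 - θ) * t) ^ B * L ^ β) := by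
        rw [← Real.exp_add, add_halves, Real.exp_log (by linarith)]

/-- P1c. PROOF. `y₊ = scale ((1+θ)k)`, `y₋ = scale ((1-θ)k)`. `y₊/y₋ → ((1+θ)/(1-θ))^B` as `k → ∞`, so
`y₊ - y₋ ≤ τ y₋` for `k` large, with `τ = τ(θ) → 0` as `θ → 0`. `brun_titchmarsh` (file
`Lib/MP_bae66e_nt/BrunT.lean`, modulus `D = 1`, shift `a = ⌊y₋⌋`, length `x = ⌈τ y₋⌉ + 1`; look at its
statement) gives `π(y₊) - π(y₋) ≤ C τ y₋/log (τ y₋) ≤ 2 C τ y₋/log y₋` for large `k`, and
`π(y₋) ≥ y₋/(5 log y₋)` (`pi_lower` in `Cheb.lean`). So the ratio is `≤ 1 + 10 C τ ≤ 1 + η` if `θ` is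
small. -/
lemma pi_ratio (lam B β : ℝ) (hlam : 0 < lam) (hB : 1 < B) (η : ℝ) (hη : 0 < η) :
    ∃ θ₀ : ℝ, 0 < θ₀ ∧ θ₀ < 1 ∧ ∀ θ : ℝ, 0 < θ → θ ≤ θ₀ → ∃ k₀ : ℕ, ∀ k : ℕ, k₀ ≤ k →
      piR (scale lam B β ((1 + θ) * k)) ≤ (1 + η) * piR (scale lam B β ((1 - θ) * k)) := by
  obtain ⟨τ, hτ⟩ : ∃ τ, τ = η / 256 := ⟨_, rfl⟩
  have hτ0 : 0 < τ := by rw [hτ]; positivity
  obtain ⟨Y₀, hY₀⟩ := aux_pi τ hτ0
  obtain ⟨t₀, ht₀⟩ := aux_scale_large lam B β hlam hB Y₀
  have hlτ : 0 < Real.log (1 + τ) := Real.log_pos (by linarith)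
  refine ⟨min (1 / 4) (Real.log (1 + τ) / (6 * B)), lt_min (by norm_num) (by positivity),
    lt_of_le_of_lt (min_le_left _ _) (by norm_num), ?_⟩
  intro θ hθ0 hθ
  have hθ1 : θ ≤ 1 / 4 := hθ.trans (min_le_left _ _)
  have hθ2 : θ ≤ Real.log (1 + τ) / (6 * B) := hθ.trans (min_le_right _ _)
  rw [le_div_iff₀ (by positivity)] at hθ2
  obtain ⟨k₀, hk₀⟩ := exists_nat_ge (2 * max t₀ (max 2 (Real.exp (2 * |β| / Real.log (1 + τ)))))
  refine ⟨k₀, ?_⟩
  intro k hk
  have hkk : max t₀ (max 2 (Real.exp (2 * |β| / Real.log (1 + τ)))) ≤ (1 - θ) * k := by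
    have h1 : 2 * max t₀ (max 2 (Real.exp (2 * |β| / Real.log (1 + τ)))) ≤ (k : ℝ) :=
      hk₀.trans (by exact_mod_cast hk)
    have h2 : 2 ≤ max t₀ (max 2 (Real.exp (2 * |β| / Real.log (1 + τ)))) :=
      le_trans (le_max_left _ _) (le_max_right _ _)
    nlinarith
  have c1 : t₀ ≤ (1 - θ) * k := (le_max_left _ _).trans hkk
  have c2 : 2 ≤ (1 - θ) * k := ((le_max_left _ _).trans (le_max_right _ _)).trans hkk
  have c3 : Real.exp (2 * |β| / Real.log (1 + τ)) ≤ (1 - θ) * k :=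
    ((le_max_right _ _).trans (le_max_right _ _)).trans hkk
  have h1 := aux_ratio lam B β hlam hB τ θ k hτ0 hθ0 hθ1 (by linarith) (by linarith) (by
    rw [Real.le_log_iff_exp_le (by linarith)]
    exact c3)
  have h2 := hY₀ _ (ht₀ _ c1) _ h1
  have e : 256 * τ = η := by rw [hτ]; ring
  rw [e] at h2
  exact h2

end Pool.Agent.MG
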