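import Mathlib
import Pool.Agent.Lib.MP_bae66e_nt.MG.R1a
import Pool.Agent.Lib.MP_bae66e_nt.MA.Iface

set_option autoImplicit false

namespace Pool.Agent.MG

open Pool.Agent.GM

/-- the primes `≤ z` -/
lemma R1b_primeFactors (z : ℕ) (D : Finset ℕ) : (Mz z D).primeFactors
    = (Finset.range (z + 1)).filter (fun p => p.Prime ∧ p ∉ D) := by
  ext p
  rw [Nat.mem_primeFactors, Finset.mem_filter, Finset.mem_range]
  constructor
  · rintro ⟨h1, h2, -⟩
    have h3 := (prime_dvd_Mz z D p h1).mp h2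
    exact ⟨by omega, h1, h3.2⟩
  · rintro ⟨h1, h2, h3⟩
    exact ⟨h2, (prime_dvd_Mz z D p h2).mpr ⟨by omega, h3⟩, (Mz_pos z D).ne'⟩

lemma R1b_totient (z : ℕ) (D : Finset ℕ)
    (hD : ∀ p ∈ D, p.Prime ∧ p ≤ z) :
    ((Mz z D).totient : ℝ) * ∏ p ∈ D, (1 - 1 / (p : ℝ))
      = (Mz z D : ℝ) * ∏ p ∈ (Finset.range (z + 1)).filter Nat.Prime, (1 - 1 / (p : ℝ)) := by
  have h1 := Nat.totient_eq_mul_prod_factors (Mz z D)
  have h2 : ((Mz z D).totient : ℝ) = (Mz z D : ℝ) * ∏ p ∈ (Mz z D).primeFactors,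
      (1 - 1 / (p : ℝ)) := by
    have h3 : (((Mz z D).totient : ℚ) : ℝ) = (((Mz z D : ℚ) * ∏ p ∈ (Mz z D).primeFactors,
      (1 - (p : ℚ)⁻¹) : ℚ) : ℝ) := by rw [h1]
    push_cast at h3
    simp only [one_div]
    exact h3
  rw [h2, mul_assoc]
  congr 1
  rw [R1b_primeFactors, mul_comm, ← Finset.prod_union]
  · apply Finset.prod_congr _ fun _ _ => rfl
    ext p
    simp only [Finset.mem_union, Finset.mem_filter, Finset.mem_range]
    constructor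
    · rintro (h | ⟨h3, h4, h5⟩)
      · exact ⟨by have := (hD p h).2; omega, (hD p h).1⟩
      · exact ⟨h3, h4⟩
    · rintro ⟨h3, h4⟩
      by_cases h : p ∈ D
      · exact Or.inl h
      · exact Or.inr ⟨h3, h4, h⟩
  · rw [Finset.disjoint_left]
    intro p hp hp'
    rw [Finset.mem_filter] at hp'
    exact hp'.2.2 hp

lemma R1b_pos (s : Finset ℕ) (hs : ∀ p ∈ s, p.Prime) :
    0 < ∏ p ∈ s, (1 - 1 / (p : ℝ)) ∧ ∏ p ∈ s, (1 - 1 / (p : ℝ)) ≤ 1 := by
  have h : ∀ p ∈ s, 0 < 1 - 1 / (p : ℝ) ∧ 1 - 1 / (p : ℝ) ≤ 1 := by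
    intro p hp
    have h1 : (1 : ℝ) < p := by exact_mod_cast (hs p hp).one_lt
    have h2 : 1 / (p : ℝ) < 1 := by rw [div_lt_one (by linarith)]; exact h1
    have h3 : 0 < 1 / (p : ℝ) := by positivity
    constructor <;> linarith
  constructor
  · exact Finset.prod_pos fun p hp => (h p hp).1
  · exact Finset.prod_le_one (fun p hp => (h p hp).1.le) (fun p hp => (h p hp).2)

/-- `1 / (P(z) log z)` is near `e^γ` -/
lemma R1b_mertens (ε : ℝ) (hε : 0 < ε) : ∃ z₀ : ℕ, ∀ z : ℕ, z₀ ≤ z →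
    |1 / ((∏ p ∈ (Finset.range (z + 1)).filter Nat.Prime, (1 - 1 / (p : ℝ))) * Real.log z)
      - Real.exp Real.eulerMascheroniConstant| ≤ ε := by
  have h1 := (Pool.Agent.MA.mertens3).inv₀ (Real.exp_pos _).ne'
  rw [← Real.exp_neg, neg_neg] at h1
  have h2 := (Metric.tendsto_atTop.mp h1) ε hε
  obtain ⟨z₀, hz₀⟩ := h2
  refine ⟨z₀, fun z hz => ?_⟩
  have h3 := hz₀ z hz
  rw [Real.dist_eq] at h3
  rw [one_div]
  exact h3.le

/-- R1b. Mertens' third theorem for the modulus. PROOF. `M/φ(M) = ∏_{p ∣ M} (1 - 1/p)^(-1)`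
(`Nat.totient_eq_mul_prod_factors`; `M` is the product of the primes `≤ z` outside
`D = insert p₁ D₀ ⊆ primes ≤ z`), so `φ(M)/M * ∏_{p ∈ D} (1 - 1/p) = ∏_{p ≤ z} (1 - 1/p)`. Use
`MA.mertens3` and `prod_D_ge`. -/
lemma totient_ratio (η : ℝ) (hη : 0 < η) : ∃ K k₀ : ℕ, ∀ k : ℕ, k₀ ≤ k → ∀ z p₁ : ℕ,
    ∀ D₀ : Finset ℕ, Real.sqrt k ≤ z → Adm K k z p₁ D₀ →
      |((Mz z (insert p₁ D₀) : ℕ) : ℝ) / ((Mz z (insert p₁ D₀)).totient : ℝ)
        - Real.exp Real.eulerMascheroniConstant * Real.log z| ≤ η * Real.log z := by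
  set g := Real.exp Real.eulerMascheroniConstant with hg
  have hg0 : 0 < g := Real.exp_pos _
  set ε := min 1 (η / 2) with hε
  have hε0 : 0 < ε := lt_min one_pos (by positivity)
  obtain ⟨z₀, hz₀⟩ := R1b_mertens ε hε0
  obtain ⟨K, k₀, h⟩ := prod_D_ge (η / (2 * (g + 1))) (by positivity)
  refine ⟨K, max k₀ ((z₀ + 2) ^ 2), ?_⟩
  intro k hk z p₁ D₀ hz hA
  have hk1 : k₀ ≤ k := (le_max_left _ _).trans hk
  have hk2 : (z₀ + 2) ^ 2 ≤ k := (le_max_right _ _).trans hk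
  have hz1 : z₀ + 2 ≤ z := by
    have h1 : ((z₀ + 2 : ℕ) : ℝ) ≤ Real.sqrt k := by
      apply Real.le_sqrt_of_sq_le
      exact_mod_cast hk2
    exact_mod_cast h1.trans hz
  have h1 := h k hk1 z p₁ D₀ hz hA
  have h2 := hz₀ z (by omega)
  obtain ⟨hp, hKp, hpz, hD, hcard⟩ := hA
  have hDp : ∀ p ∈ insert p₁ D₀, p.Prime ∧ p ≤ z := by
    intro p hp'
    rcases Finset.mem_insert.mp hp' with rfl | h3
    · exact ⟨hp, hpz⟩
    · have h4 := hD h3
      unfold Pz at h4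
      rw [Finset.mem_filter, Finset.mem_range] at h4
      exact ⟨h4.2.1, by omega⟩
  have h3 := R1b_totient z (insert p₁ D₀) hDp
  obtain ⟨hQ0, hQ1⟩ := R1b_pos (insert p₁ D₀) (fun p hp => (hDp p hp).1)
  obtain ⟨hP0, -⟩ := R1b_pos ((Finset.range (z + 1)).filter Nat.Prime)
    (fun p hp => (Finset.mem_filter.mp hp).2)
  set Q := ∏ p ∈ insert p₁ D₀, (1 - 1 / (p : ℝ)) with hQ
  set P := ∏ p ∈ (Finset.range (z + 1)).filter Nat.Prime, (1 - 1 / (p : ℝ)) with hP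
  have hl : 0 < Real.log z := Real.log_pos (by exact_mod_cast (by omega : 1 < z))
  have hphi : (0 : ℝ) < ((Mz z (insert p₁ D₀)).totient : ℝ) := by
    exact_mod_cast Nat.totient_pos.mpr (Mz_pos z _)
  have e : ((Mz z (insert p₁ D₀) : ℕ) : ℝ) / ((Mz z (insert p₁ D₀)).totient : ℝ)
      = Q * (1 / (P * Real.log z)) * Real.log z := by
    rw [div_eq_iff hphi.ne']
    field_simp
    linarith
  rw [e, ← sub_mul, abs_mul, abs_of_pos hl]
  apply mul_le_mul_of_nonneg_right _ hl.le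
  set x := 1 / (P * Real.log z) with hx
  have hε1 : ε ≤ 1 := min_le_left _ _
  have hε2 : ε ≤ η / 2 := min_le_right _ _
  have hx0 : 0 < x := by positivity
  have hxg : x ≤ g + 1 := by
    have := (abs_le.mp h2).2
    linarith
  have e2 : Q * x - g = (x - g) - (1 - Q) * x := by ring
  have h4 : (1 - Q) * x ≤ η / 2 := by
    have h5 : 1 - Q ≤ η / (2 * (g + 1)) := by linarith
    calc (1 - Q) * x ≤ η / (2 * (g + 1)) * (g + 1) :=
          mul_le_mul h5 hxg hx0.le (by positivity)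
      _ = η / 2 := by field_simp
  have h5 : 0 ≤ (1 - Q) * x := mul_nonneg (by linarith) hx0.le
  rw [e2]
  rw [abs_le] at h2 ⊢
  constructor <;> linarith [h2.1, h2.2]

end Pool.Agent.MG
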