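import Mathlib
import Pool.Agent.Lib.MP_bae66e_nt.MG.B0
import Pool.Agent.Lib.MP_bae66e_nt.MG.B1a
import Pool.Agent.Lib.MP_bae66e_nt.MG.B1b
import Pool.Agent.Lib.MP_bae66e_nt.MG.P1c
import Pool.Agent.Lib.MP_bae66e_nt.MG.R1b
import Pool.Agent.Lib.MP_bae66e_nt.GM.Final

set_option autoImplicit false

namespace Pool.Agent.MG

open Pool.Agent.GM

private lemma B1_sqrt_le (e : ℝ) (he : 0 < e) : ∃ k₀ : ℕ, ∀ k : ℕ, k₀ ≤ k → ∀ z : ℕ,
    e * k - 1 ≤ z → Real.sqrt k ≤ z := by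
  refine ⟨⌈4 / e ^ 2⌉₊ + 1, fun k hk z hz => ?_⟩
  have h1 : (1 : ℝ) ≤ k := by exact_mod_cast (by omega : 1 ≤ k)
  have h2 : 4 / e ^ 2 ≤ k := by
    have h3 : (⌈4 / e ^ 2⌉₊ : ℝ) ≤ k := by exact_mod_cast (by omega : ⌈4 / e ^ 2⌉₊ ≤ k)
    exact le_trans (Nat.le_ceil _) h3
  set s := Real.sqrt k with hs
  have hs1 : 1 ≤ s := by
    rw [hs]; exact Real.one_le_sqrt.mpr h1
  have hs2 : s ^ 2 = k := Real.sq_sqrt (by linarith)
  have hs3 : 2 / e ≤ s := by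
    rw [hs]
    apply Real.le_sqrt_of_sq_le
    rw [div_pow]
    norm_num
    exact h2
  have h4 : 2 ≤ e * s := by
    have := mul_le_mul_of_nonneg_left hs3 he.le
    rwa [mul_div_cancel₀ _ he.ne'] at this
  have h5 : e * k = (e * s) * s := by rw [← hs2]; ring
  nlinarith

/-- choice of the small parameter -/
private lemma B1_eta (I g V ε : ℝ) (hI : 0 < I) (hg : 0 < g) (hV : 0 < V) (hε : 0 < ε) :
    ∃ η : ℝ, 0 < η ∧ η < 1 ∧ η < I ∧ η < g ∧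
      g * I / V - ε ≤ (1 - η) * (I - η) * (g - η) / ((1 + η) ^ 2 * V) ∧
      (1 + η) ^ 2 * (I + η) * (g + η) / ((1 - η) * V) ≤ g * I / V + ε := by
  have hf : ContinuousAt (fun η : ℝ => (1 - η) * (I - η) * (g - η) / ((1 + η) ^ 2 * V)) 0 := by
    apply ContinuousAt.div
    · fun_prop
    · fun_prop
    · simp only [add_zero, one_pow, one_mul]
      exact hV.ne'
  have hh : ContinuousAt (fun η : ℝ => (1 + η) ^ 2 * (I + η) * (g + η) / ((1 - η) * V)) 0 := by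
    apply ContinuousAt.div
    · fun_prop
    · fun_prop
    · simp only [sub_zero, one_mul]
      exact hV.ne'
  have e1 : ∀ᶠ η in nhds (0 : ℝ),
      g * I / V - ε < (1 - η) * (I - η) * (g - η) / ((1 + η) ^ 2 * V) := by
    apply hf.eventually (lt_mem_nhds _)
    simp only [sub_zero, add_zero, one_pow, one_mul]
    rw [mul_comm g I]
    linarith
  have e2 : ∀ᶠ η in nhds (0 : ℝ),
      (1 + η) ^ 2 * (I + η) * (g + η) / ((1 - η) * V) < g * I / V + ε := by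
    apply hh.eventually (gt_mem_nhds _)
    simp only [sub_zero, add_zero, one_pow, one_mul]
    rw [mul_comm g I]
    linarith
  have e3 : ∀ᶠ η in nhds (0 : ℝ), η < min 1 (min I g) :=
    gt_mem_nhds (lt_min one_pos (lt_min hI hg))
  have e4 := (e1.and (e2.and e3)).filter_mono (nhdsWithin_le_nhds (s := Set.Ioi (0 : ℝ)))
  obtain ⟨η, ⟨h1, h2, h3⟩, h4⟩ := (e4.and self_mem_nhdsWithin).exists
  exact ⟨η, h4, lt_of_lt_of_le h3 (min_le_left _ _),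
    lt_of_lt_of_le h3 (le_trans (min_le_right _ _) (min_le_left _ _)),
    lt_of_lt_of_le h3 (le_trans (min_le_right _ _) (min_le_right _ _)), h1.le, h2.le⟩

/-- the real-number computation -/
private lemma B1_calc (I g V η L φ M A E π₁ π₂ r₁ r₂ : ℝ) (hV : 0 < V)
    (hη : 0 < η) (hη1 : η < 1) (hηI : η < I) (hηg : η < g) (hL : 0 ≤ L)
    (hφ : 0 < φ) (hM : 0 < M) (hπ : 0 ≤ π₁) (hππ : π₂ ≤ (1 + η) * π₁)
    (h1 : r₁ ≤ (1 - η) * (I - η) * (g - η) / ((1 + η) ^ 2 * V))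
    (h2 : (1 + η) ^ 2 * (I + η) * (g + η) / ((1 - η) * V) ≤ r₂)
    (hA1 : (1 - η) * (I - η) * π₁ ≤ φ * A) (hA2 : φ * A ≤ (1 + η) * (I + η) * π₂)
    (hE1 : (1 - η) * (V * L) * π₁ ≤ M * E) (hE2 : M * E ≤ (1 + η) * (V * L) * π₂)
    (hT : |M / φ - g * L| ≤ η * L) : r₁ * E ≤ A ∧ A ≤ r₂ * E := by
  have hT1 : (g - η) * L ≤ M / φ := by
    have := (abs_le.mp hT).1; linarith
  have hT2 : M / φ ≤ (g + η) * L := by
    have := (abs_le.mp hT).2; linarith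
  have hE0 : 0 ≤ E := by
    have h3 : 0 ≤ M * E := by
      refine le_trans ?_ hE1
      exact mul_nonneg (mul_nonneg (by linarith) (mul_nonneg hV.le hL)) hπ
    exact nonneg_of_mul_nonneg_right h3 hM
  have hE2' : M * E ≤ (1 + η) ^ 2 * V * L * π₁ := by
    refine le_trans hE2 ?_
    have h3 : 0 ≤ (1 + η) * (V * L) := mul_nonneg (by linarith) (mul_nonneg hV.le hL)
    have h4 := mul_le_mul_of_nonneg_left hππ h3
    calc (1 + η) * (V * L) * π₂ ≤ (1 + η) * (V * L) * ((1 + η) * π₁) := h4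
      _ = _ := by ring
  have hA2' : φ * A ≤ (1 + η) ^ 2 * (I + η) * π₁ := by
    refine le_trans hA2 ?_
    have h3 : 0 ≤ (1 + η) * (I + η) := mul_nonneg (by linarith) (by linarith)
    have h4 := mul_le_mul_of_nonneg_left hππ h3
    calc (1 + η) * (I + η) * π₂ ≤ (1 + η) * (I + η) * ((1 + η) * π₁) := h4
      _ = _ := by ring
  have hMφ : M = (M / φ) * φ := by field_simp
  have hne : (1 - η) ≠ 0 := (by linarith : (0 : ℝ) < 1 - η).ne'
  have hden1 : 0 < (1 + η) ^ 2 * V := by positivity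
  have hden2 : 0 < (1 - η) * V := mul_pos (by linarith) hV
  have hc1 : 0 ≤ (1 - η) * (I - η) * (g - η) :=
    mul_nonneg (mul_nonneg (by linarith) (by linarith)) (by linarith)
  have hc2 : 0 ≤ (1 - η) * (I - η) := mul_nonneg (by linarith) (by linarith)
  have hc3 : 0 ≤ (1 + η) ^ 2 * (I + η) * (g + η) :=
    mul_nonneg (mul_nonneg (by positivity) (by linarith)) (by linarith)
  have hc4 : 0 ≤ (1 + η) ^ 2 * (I + η) := mul_nonneg (by positivity) (by linarith)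
  constructor
  · refine le_trans (mul_le_mul_of_nonneg_right h1 hE0) ?_
    refine le_of_mul_le_mul_left ?_ hM
    calc M * ((1 - η) * (I - η) * (g - η) / ((1 + η) ^ 2 * V) * E)
        = (1 - η) * (I - η) * (g - η) / ((1 + η) ^ 2 * V) * (M * E) := by ring
      _ ≤ (1 - η) * (I - η) * (g - η) / ((1 + η) ^ 2 * V) * ((1 + η) ^ 2 * V * L * π₁) :=
          mul_le_mul_of_nonneg_left hE2' (div_nonneg hc1 hden1.le)
      _ = ((g - η) * L) * ((1 - η) * (I - η) * π₁) := by field_simp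
      _ ≤ (M / φ) * ((1 - η) * (I - η) * π₁) :=
          mul_le_mul_of_nonneg_right hT1 (mul_nonneg hc2 hπ)
      _ ≤ (M / φ) * (φ * A) := mul_le_mul_of_nonneg_left hA1 (div_nonneg hM.le hφ.le)
      _ = M * A := by field_simp
  · refine le_trans ?_ (mul_le_mul_of_nonneg_right h2 hE0)
    refine le_of_mul_le_mul_left ?_ hM
    calc M * A = (M / φ) * (φ * A) := by field_simp
      _ ≤ (M / φ) * ((1 + η) ^ 2 * (I + η) * π₁) :=
          mul_le_mul_of_nonneg_left hA2' (div_nonneg hM.le hφ.le)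
      _ ≤ ((g + η) * L) * ((1 + η) ^ 2 * (I + η) * π₁) :=
          mul_le_mul_of_nonneg_right hT2 (mul_nonneg hc4 hπ)
      _ = (1 + η) ^ 2 * (I + η) * (g + η) / ((1 - η) * V) * ((1 - η) * (V * L) * π₁) := by
          field_simp
      _ ≤ (1 + η) ^ 2 * (I + η) * (g + η) / ((1 - η) * V) * (M * E) :=
          mul_le_mul_of_nonneg_left hE1 (div_nonneg hc3 hden2.le)
      _ = M * ((1 + η) ^ 2 * (I + η) * (g + η) / ((1 - η) * V) * E) := by ring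

/-- B1c. The Maier matrix: comparison of the two sums.
PROOF. Let `I = ∫_{v₁}^{v₂} ω > 0`, `r = e^γ I/(v₂ - v₁)`. Take `η ∈ (0,1)` so small that
`(1-η)(I-η)(e^γ-η)/((1+η)^2 (v₂-v₁)) ≥ r - ε`, `(1+η)^2 (I+η)(e^γ+η)/((1-η)(v₂-v₁)) ≤ r + ε` and `η < I`, `η < e^γ`
(continuity at `η = 0`). `θ₀` = the minimum of that of `pi_ratio` (for `η`) and `1/5`; given `θ`, `e₀` = the
minimum of those of `SA_bounds`, `SE_bounds` and `1/200`; given `e ≤ e₀`, `z = ⌊e k⌋`, `δ` from `SA_bounds`,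
`K` = the maximum of `3` and the `K`'s of `SA_bounds`, `SE_bounds`, `totient_ratio`; `good_modulus K δ` gives
`p₁`, `D₀` (`Adm` is monotone in `K`) and `GoodM δ k M`. With `π₋ = piR y₋`, `π₊ = piR y₊ ≤ (1+η) π₋`:
`SA ≥ (1-η)(I-η) π₋/φ(M)`, `SE ≤ (1+η)^2 (v₂-v₁) log z π₋/M`, `M/φ(M) ≥ (e^γ-η) log z`; this gives the first
inequality (it is trivial if `r - ε ≤ 0`, as `SA, SE ≥ 0`), and the second in the same way. Finally
`M SE ≥ (1-η)(v₂-v₁) log z π₋ → ∞`. `2 ∣ M` by `prime_dvd_Mz` (`p₁ ≥ 3`, and `p ∈ D₀` has `p^2 > z ≥ 4`);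
`log M ≤ 2 z` by `log_Mz_le`. -/
theorem matrix (ω : ℝ → ℝ) (hω : BuchLog ω) (lam B β : ℝ) (hlam : 0 < lam) (hB : 1 < B)
    (v₁ v₂ : ℝ) (hv1 : B < v₁) (hv2 : v₁ < v₂) (hI : 0 < ∫ x in v₁..v₂, ω x)
    (ε : ℝ) (hε : 0 < ε) : ∃ θ₀ : ℝ, 0 < θ₀ ∧ ∀ θ : ℝ, 0 < θ → θ ≤ θ₀ →
      ∃ e₀ : ℝ, 0 < e₀ ∧ ∀ e : ℝ, 0 < e → e ≤ e₀ → ∃ k₀ : ℕ, ∀ k : ℕ, k₀ ≤ k →
        ∃ M : ℕ, 2 ∣ M ∧ 1 ≤ M ∧ Real.log M ≤ 2 * e * k ∧
          (Real.exp Real.eulerMascheroniConstant * (∫ x in v₁..v₂, ω x) / (v₂ - v₁) - ε)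
            * SE θ lam B β k ⌊e * k⌋₊ M v₁ v₂ ≤ SA θ lam B β k ⌊e * k⌋₊ M v₁ v₂ ∧
          SA θ lam B β k ⌊e * k⌋₊ M v₁ v₂
            ≤ (Real.exp Real.eulerMascheroniConstant * (∫ x in v₁..v₂, ω x) / (v₂ - v₁) + ε)
              * SE θ lam B β k ⌊e * k⌋₊ M v₁ v₂ ∧
          1 ≤ (M : ℝ) * SE θ lam B β k ⌊e * k⌋₊ M v₁ v₂ := by
  set I := ∫ x in v₁..v₂, ω x with hIdef
  set g := Real.exp Real.eulerMascheroniConstant with hg
  set V := v₂ - v₁ with hV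
  have hg0 : 0 < g := Real.exp_pos _
  have hV0 : 0 < V := by rw [hV]; linarith
  obtain ⟨η, hη0, hη1, hηI, hηg, hf1, hf2⟩ := B1_eta I g V ε hI hg0 hV0 hε
  obtain ⟨θ₁, hθ1, hθ1', hpi⟩ := pi_ratio lam B β hlam hB η hη0
  refine ⟨min θ₁ (1 / 5), lt_min hθ1 (by norm_num), fun θ hθ hθle => ?_⟩
  have hθa : θ ≤ θ₁ := le_trans hθle (min_le_left _ _)
  have hθb : θ < 1 / 4 := by
    have := le_trans hθle (min_le_right _ _); linarith
  obtain ⟨k₁, hk1⟩ := hpi θ hθ hθa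
  obtain ⟨e₁, he1, hSA⟩ := SA_bounds ω hω lam B β hlam hB v₁ v₂ hv1 hv2 θ hθ hθb
  obtain ⟨e₂, he2, hSE⟩ := SE_bounds lam B β hlam hB v₁ v₂ hv1 hv2 θ hθ hθb
  refine ⟨min e₁ (min e₂ (1 / 200)), lt_min he1 (lt_min he2 (by norm_num)), fun e he hee => ?_⟩
  have hea : e ≤ e₁ := le_trans hee (min_le_left _ _)
  have heb : e ≤ e₂ := le_trans hee (le_trans (min_le_right _ _) (min_le_left _ _))
  have hec : e ≤ 1 / 200 := le_trans hee (le_trans (min_le_right _ _) (min_le_right _ _))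
  obtain ⟨K₁, k₂, δ, hδ, hk2⟩ := hSA e η he hea hη0 hη1
  obtain ⟨K₂, k₃, hk3⟩ := hSE e η he heb hη0 hη1
  obtain ⟨K₃, k₄, hk4⟩ := totient_ratio η hη0
  obtain ⟨k₅, hk5⟩ := good_modulus (max 3 (max K₁ (max K₂ K₃))) δ hδ
  obtain ⟨k₆, hk6⟩ := B1_sqrt_le e he
  obtain ⟨k₇, hk7⟩ := scale_small lam B β hlam hB v₁ e 1 θ hv1 he one_pos hθ (by linarith) 2
  set Z₀ : ℝ := 4 + Real.exp (1 / ((1 - η) * V)) with hZ0
  have hkall : ∃ k₀ : ℕ, ∀ k : ℕ, k₀ ≤ k → k₁ ≤ k ∧ k₂ ≤ k ∧ k₃ ≤ k ∧ k₄ ≤ k ∧ k₅ ≤ k ∧ k₆ ≤ k ∧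
      k₇ ≤ k ∧ (Z₀ + 1) / e ≤ k := by
    refine ⟨k₁ + k₂ + k₃ + k₄ + k₅ + k₆ + k₇ + ⌈(Z₀ + 1) / e⌉₊, fun k hk => ?_⟩
    refine ⟨by omega, by omega, by omega, by omega, by omega, by omega, by omega, ?_⟩
    have h3 : (⌈(Z₀ + 1) / e⌉₊ : ℝ) ≤ k := by
      exact_mod_cast (by omega : ⌈(Z₀ + 1) / e⌉₊ ≤ k)
    exact le_trans (Nat.le_ceil _) h3
  obtain ⟨k₀, hk0⟩ := hkall
  refine ⟨k₀, fun k hk => ?_⟩
  obtain ⟨ha1, ha2, ha3, ha4, ha5, ha6, ha7, ha8⟩ := hk0 k hk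
  set z := ⌊e * (k : ℝ)⌋₊ with hz
  have hk0' : (0 : ℝ) ≤ k := by positivity
  have hz2 : (z : ℝ) ≤ e * k := Nat.floor_le (by positivity)
  have hz1 : e * k - 1 ≤ z := by
    have := Nat.lt_floor_add_one (e * (k : ℝ))
    rw [← hz] at this
    linarith
  have hzZ : Z₀ ≤ z := by
    have h3 := mul_le_mul_of_nonneg_left ha8 he.le
    rw [mul_div_cancel₀ _ he.ne'] at h3
    linarith
  have hz4 : (4 : ℝ) ≤ z := by
    have := Real.exp_pos (1 / ((1 - η) * V)); linarith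
  have hz4' : 4 ≤ z := by exact_mod_cast hz4
  have hsq := hk6 k ha6 z hz1
  have hz160 : (z : ℝ) ≤ k / 160 := by
    have h3 : e * (k : ℝ) ≤ 1 / 200 * k := mul_le_mul_of_nonneg_right hec hk0'
    linarith
  obtain ⟨p₁, D₀, hp, hKp, hpz, hD, hcard, hgood⟩ := hk5 k ha5 z hsq hz160
  have hadm : ∀ K' : ℕ, K' ≤ max 3 (max K₁ (max K₂ K₃)) → Adm K' k z p₁ D₀ := fun K' hK' =>
    ⟨hp, le_trans hK' hKp, hpz, hD, hcard⟩
  have hadm1 : Adm K₁ k z p₁ D₀ :=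
    hadm K₁ (le_trans (le_max_left _ _) (le_max_right _ _))
  have hadm2 : Adm K₂ k z p₁ D₀ :=
    hadm K₂ (le_trans (le_trans (le_max_left _ _) (le_max_right _ _)) (le_max_right _ _))
  have hadm3 : Adm K₃ k z p₁ D₀ :=
    hadm K₃ (le_trans (le_trans (le_max_right _ _) (le_max_right _ _)) (le_max_right _ _))
  obtain ⟨hA1, hA2⟩ := hk2 k ha2 z hz1 hz2 p₁ D₀ hadm1 hgood
  obtain ⟨hE1, hE2⟩ := hk3 k ha3 z hz1 hz2 p₁ D₀ hadm2
  have hT := hk4 k ha4 z p₁ D₀ hsq hadm3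
  have hππ := hk1 k ha1
  have hMpos := Mz_pos z (insert p₁ D₀)
  have hMlog := log_Mz_le z (insert p₁ D₀)
  have h2M : 2 ∣ Mz z (insert p₁ D₀) := by
    rw [prime_dvd_Mz z _ 2 Nat.prime_two]
    refine ⟨by omega, fun hmem => ?_⟩
    rw [Finset.mem_insert] at hmem
    rcases hmem with h | h
    · have h3 : 3 ≤ p₁ := le_trans (le_max_left _ _) hKp
      omega
    · have h3 := hD h
      unfold Pz at h3
      rw [Finset.mem_filter] at h3
      have h4 := h3.2.2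
      omega
  have hs3 := (hk7 k ha7 z hz1).2.2
  set M := Mz z (insert p₁ D₀) with hM
  have hMR : (0 : ℝ) < M := by exact_mod_cast hMpos
  have hφR : (0 : ℝ) < (M.totient : ℝ) := by
    exact_mod_cast Nat.totient_pos.mpr hMpos
  have hL1 : 1 / ((1 - η) * V) ≤ Real.log z := by
    rw [Real.le_log_iff_exp_le (by linarith)]
    linarith
  have hηV : 0 < (1 - η) * V := mul_pos (by linarith) hV0
  have hL0 : 0 ≤ Real.log z := le_trans (by positivity) hL1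
  have hπ1 : 1 ≤ piR (scale lam B β ((1 - θ) * k)) := by
    unfold piR
    have h3 : 2 ≤ ⌊scale lam B β ((1 - θ) * k)⌋₊ := Nat.le_floor (by exact_mod_cast hs3)
    have h4 := Nat.monotone_primeCounting h3
    have h5 : Nat.primeCounting 2 = 1 := by decide
    rw [h5] at h4
    exact_mod_cast h4
  obtain ⟨c1, c2⟩ := B1_calc I g V η (Real.log z) (M.totient : ℝ) (M : ℝ)
    (SA θ lam B β k z M v₁ v₂) (SE θ lam B β k z M v₁ v₂)
    (piR (scale lam B β ((1 - θ) * k))) (piR (scale lam B β ((1 + θ) * k)))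
    (g * I / V - ε) (g * I / V + ε) hV0 hη0 hη1 hηI hηg hL0 hφR hMR (by linarith) hππ hf1 hf2
    hA1 hA2 hE1 hE2 hT
  refine ⟨M, h2M, hMpos, by linarith, c1, c2, ?_⟩
  refine le_trans ?_ hE1
  have h3 : 1 ≤ (1 - η) * (V * Real.log z) := by
    have h4 := mul_le_mul_of_nonneg_left hL1 hηV.le
    rw [mul_one_div_cancel hηV.ne'] at h4
    linarith
  calc (1 : ℝ) = 1 * 1 := by ring
    _ ≤ _ := mul_le_mul h3 hπ1 zero_le_one (by linarith)

end Pool.Agent.MG
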