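import Mathlib
import Pool.Agent.Lib.MP_bae66e_nt.MG.B1
import Pool.Agent.Lib.MP_bae66e_nt.Mg.G034
import Pool.Agent.Lib.MP_bae66e_nt.Mg.G126
import Pool.Agent.Lib.MP_bae66e_nt.MG.T4b

set_option autoImplicit false

namespace Pool.Agent.MG

open Pool.Agent.GM

/-- the expected number of representations -/
noncomputable def expected (m : ℕ) (y : ℝ) : ℝ := sing m * piR y / Real.log m

end Pool.Agent.MG
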