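import Mathlib
import Pool.Agent.Lib.MP_bae66e_nt.MG.B2

set_option autoImplicit false

namespace Pool.Agent.MG

open Pool.Agent.GM

private lemma aux_rep_le (m : ℕ) (y Y : ℝ) (hY : 0 ≤ Y) (hyY : y ≤ Y) :
    (repCount m y : ℝ) ≤ Y := by
  unfold repCount
  have h1 : (Finset.range m).filter (fun p => p.Prime ∧ (m - p).Prime ∧ (p : ℝ) ≤ y) ⊆
      Finset.Icc 1 ⌊Y⌋₊ := by
    intro p hp
    rw [Finset.mem_filter] at hp
    rw [Finset.mem_Icc]
    exact ⟨hp.2.1.one_lt.le, Nat.le_floor (hp.2.2.2.trans hyY)⟩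
  have h2 := Finset.card_le_card h1
  rw [Nat.card_Icc, Nat.add_sub_cancel] at h2
  have h3 : ((((Finset.range m).filter
      (fun p => p.Prime ∧ (m - p).Prime ∧ (p : ℝ) ≤ y)).card : ℕ) : ℝ) ≤ (⌊Y⌋₊ : ℝ) := by
    exact_mod_cast h2
  exact h3.trans (Nat.floor_le hY)

private lemma aux_pi_le (y Y : ℝ) (hY : 0 ≤ Y) (hyY : y ≤ Y) : piR y ≤ Y := by
  unfold piR
  have h1 : Nat.primeCounting ⌊y⌋₊ ≤ ⌊Y⌋₊ := by
    rw [Nat.primeCounting, Nat.primeCounting', Nat.count_eq_card_filter_range]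
    have h2 : (Finset.range (⌊y⌋₊ + 1)).filter Nat.Prime ⊆ Finset.Icc 1 ⌊y⌋₊ := by
      intro p hp
      rw [Finset.mem_filter, Finset.mem_range] at hp
      rw [Finset.mem_Icc]
      exact ⟨hp.2.one_lt.le, by omega⟩
    have h3 := Finset.card_le_card h2
    rw [Nat.card_Icc, Nat.add_sub_cancel] at h3
    exact h3.trans (Nat.floor_le_floor hyY)
  have h3 : (Nat.primeCounting ⌊y⌋₊ : ℝ) ≤ (⌊Y⌋₊ : ℝ) := by exact_mod_cast h1
  exact h3.trans (Nat.floor_le hY)

private lemma aux_asym (θ : ℝ) (hθ : 0 < θ) (A v : ℝ) :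
    ∃ k₀ : ℕ, ∀ k : ℕ, k₀ ≤ k → A * (k : ℝ) ^ v ≤ Real.exp (θ * k) := by
  have h1 := (isLittleO_rpow_exp_pos_mul_atTop v hθ).bound
    (show (0 : ℝ) < 1 / (|A| + 1) by positivity)
  have h2 := tendsto_natCast_atTop_atTop.eventually h1
  rw [Filter.eventually_atTop] at h2
  obtain ⟨k₀, hk₀⟩ := h2
  refine ⟨k₀, fun k hk => ?_⟩
  have h3 := hk₀ k hk
  rw [Real.norm_eq_abs, Real.norm_eq_abs, abs_of_pos (Real.exp_pos _),
    abs_of_nonneg (show (0 : ℝ) ≤ (k : ℝ) ^ v by positivity)] at h3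
  have h4 : (0 : ℝ) ≤ (k : ℝ) ^ v := by positivity
  have h5 : (|A| + 1) * (k : ℝ) ^ v ≤ Real.exp (θ * k) := by
    rw [div_mul_eq_mul_div, one_mul, le_div_iff₀ (by positivity)] at h3
    linarith
  have h6 : A ≤ |A| + 1 := by linarith [le_abs_self A]
  exact (mul_le_mul_of_nonneg_right h6 h4).trans h5

private lemma aux_choice (θ ε : ℝ) (hθ : 0 < θ) (hθε : 7 * θ ≤ ε) (hθ1 : θ ≤ 1 / 10)
    (P : ℕ → Prop) [DecidablePred P] (k₀ : ℕ)
    (h : ∀ k : ℕ, k₀ ≤ k → Real.exp ((1 - 4 * θ) * k) ≤ (((cenSet θ k).filter P).card : ℝ)) :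
    ∃ X₀ : ℕ, ∀ X : ℕ, X₀ ≤ X →
      (X : ℝ) ^ (1 - ε) ≤ (((Finset.Icc 1 X).filter P).card : ℝ) := by
  obtain ⟨k₁, hk₁⟩ := exists_nat_ge (1 / (2 * θ))
  obtain ⟨X₁, hX₁⟩ := exists_nat_ge
    (Real.exp ((1 + θ) * (((max 1 (max k₀ k₁) : ℕ) : ℝ) + 1)))
  refine ⟨max 1 X₁, ?_⟩
  intro X hX
  have hX1 : 1 ≤ X := le_trans (le_max_left _ _) hX
  have hX2 : X₁ ≤ X := le_trans (le_max_right _ _) hX
  have hXr : (1 : ℝ) ≤ X := by exact_mod_cast hX1
  have hX0 : (0 : ℝ) < X := by linarith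
  have hlog : (1 + θ) * (((max 1 (max k₀ k₁) : ℕ) : ℝ) + 1) ≤ Real.log X := by
    rw [Real.le_log_iff_exp_le hX0]
    exact hX₁.trans (by exact_mod_cast hX2)
  obtain ⟨k, hk⟩ : ∃ k, k = ⌊Real.log X / (1 + θ)⌋₊ := ⟨_, rfl⟩
  have hlog0 : 0 ≤ Real.log X / (1 + θ) := by
    have := Real.log_nonneg hXr
    positivity
  have hk1 : (k : ℝ) ≤ Real.log X / (1 + θ) := by rw [hk]; exact Nat.floor_le hlog0
  have hk2 : Real.log X / (1 + θ) < k + 1 := by rw [hk]; exact Nat.lt_floor_add_one _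
  rw [le_div_iff₀ (by linarith)] at hk1
  rw [div_lt_iff₀ (by linarith)] at hk2
  have hkK : max 1 (max k₀ k₁) ≤ k := by
    rw [hk]
    apply Nat.le_floor
    rw [le_div_iff₀ (by linarith)]
    nlinarith
  have hk3 : 1 ≤ k := le_trans (le_max_left _ _) hkK
  have hk4 : k₀ ≤ k := le_trans (le_trans (le_max_left _ _) (le_max_right _ _)) hkK
  have hk5 : k₁ ≤ k := le_trans (le_trans (le_max_right _ _) (le_max_right _ _)) hkK
  have h1 := h k hk4
  have h2 : (cenSet θ k).filter P ⊆ (Finset.Icc 1 X).filter P := by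
    intro m hm
    rw [Finset.mem_filter] at hm ⊢
    refine ⟨?_, hm.2⟩
    have h3 := (mem_cenSet hk3 (by linarith)).1 hm.1
    have hkr : (1 : ℝ) ≤ k := by exact_mod_cast hk3
    have hm1 : 1 ≤ m := by
      rcases Nat.eq_zero_or_pos m with h4 | h4
      · exfalso
        rw [h4] at h3
        simp only [Nat.cast_zero, Real.log_zero] at h3
        nlinarith [h3.1]
      · exact h4
    rw [Finset.mem_Icc]
    refine ⟨hm1, ?_⟩
    have h5 : Real.log m ≤ Real.log X := by nlinarith [h3.2]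
    have h6 := (Real.log_le_log_iff (by exact_mod_cast hm1) hX0).1 h5
    exact_mod_cast h6
  have h3 : (((cenSet θ k).filter P).card : ℝ) ≤ (((Finset.Icc 1 X).filter P).card : ℝ) := by
    exact_mod_cast Finset.card_le_card h2
  refine le_trans ?_ (h1.trans h3)
  rw [Real.rpow_def_of_pos hX0]
  apply Real.exp_le_exp.2
  have hk0 : (0 : ℝ) ≤ k := Nat.cast_nonneg k
  have hkθ : 1 ≤ 2 * θ * k := by
    have h4 : 1 / (2 * θ) ≤ (k : ℝ) := hk₁.trans (by exact_mod_cast hk5)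
    rw [div_le_iff₀ (by positivity)] at h4
    linarith
  have hlX : 0 ≤ Real.log X := Real.log_nonneg hXr
  by_cases hε : 0 ≤ 1 - ε
  · calc Real.log X * (1 - ε) ≤ ((k + 1) * (1 + θ)) * (1 - ε) :=
          mul_le_mul_of_nonneg_right hk2.le hε
      _ ≤ (k + 1) * (1 - 6 * θ) := by
          have : (1 + θ) * (1 - ε) ≤ 1 - 6 * θ := by nlinarith
          nlinarith
      _ ≤ (1 - 4 * θ) * k := by nlinarith
  · rw [not_le] at hε
    nlinarith

private lemma aux_final (θ : ℝ) (k : ℕ) (N ε' Q : ℝ) (hQ : 0 < Q)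
    (h : ε' * Real.exp (-(θ / 2 * k)) ≤ N * (Real.exp (-((1 - 3 * θ) * k)) * Q))
    (ha : Q ≤ ε' * Real.exp (θ / 2 * k)) : Real.exp ((1 - 4 * θ) * k) ≤ N := by
  have h1 : Real.exp ((1 - 4 * θ) * k) * Q ≤ N * Q := by
    calc Real.exp ((1 - 4 * θ) * k) * Q
        ≤ Real.exp ((1 - 4 * θ) * k) * (ε' * Real.exp (θ / 2 * k)) :=
          mul_le_mul_of_nonneg_left ha (Real.exp_pos _).le
      _ = (ε' * Real.exp (-(θ / 2 * k))) * Real.exp ((1 - 3 * θ) * k) := by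
          have e : Real.exp ((1 - 4 * θ) * k) * Real.exp (θ / 2 * k) =
              Real.exp (-(θ / 2 * k)) * Real.exp ((1 - 3 * θ) * k) := by
            rw [← Real.exp_add, ← Real.exp_add]
            congr 1
            ring
          calc Real.exp ((1 - 4 * θ) * k) * (ε' * Real.exp (θ / 2 * k)) =
              ε' * (Real.exp ((1 - 4 * θ) * k) * Real.exp (θ / 2 * k)) := by ring
            _ = _ := by rw [e]; ring
      _ ≤ (N * (Real.exp (-((1 - 3 * θ) * k)) * Q)) * Real.exp ((1 - 3 * θ) * k) :=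
          mul_le_mul_of_nonneg_right h (Real.exp_pos _).le
      _ = N * Q * (Real.exp (-((1 - 3 * θ) * k)) * Real.exp ((1 - 3 * θ) * k)) := by ring
      _ = N * Q := by rw [← Real.exp_add]; simp
  exact le_of_mul_le_mul_right h1 hQ

private lemma aux_sum_inv (z : ℕ) (v₁ v₂ : ℝ) :
    ∑ a ∈ aSet z v₁ v₂, (1 : ℝ) / a ≤ (z : ℝ) ^ v₂ := by
  have h1 : ∑ a ∈ aSet z v₁ v₂, (1 : ℝ) / a ≤ ∑ a ∈ aSet z v₁ v₂, (1 : ℝ) := by
    apply Finset.sum_le_sum
    intro a ha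
    unfold aSet at ha
    rw [Finset.mem_filter, Finset.mem_Ioc] at ha
    have h2 : (1 : ℝ) ≤ a := by
      have : 1 ≤ a := by omega
      exact_mod_cast this
    rw [div_le_one (by linarith)]
    exact h2
  have h2 : (aSet z v₁ v₂).card ≤ ⌊(z : ℝ) ^ v₂⌋₊ := by
    unfold aSet
    refine (Finset.card_filter_le _ _).trans ?_
    rw [Nat.card_Ioc]
    omega
  have h3 : ((aSet z v₁ v₂).card : ℝ) ≤ (⌊(z : ℝ) ^ v₂⌋₊ : ℝ) := by exact_mod_cast h2
  have h4 : (0 : ℝ) ≤ (z : ℝ) ^ v₂ := by positivity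
  rw [Finset.sum_const, nsmul_eq_mul, mul_one] at h1
  exact h1.trans (h3.trans (Nat.floor_le h4))

private lemma aux_cen (θ lam B β : ℝ) (k m : ℕ) (v₁ t₀ : ℝ) (hθ : 0 < θ) (hθ1 : θ ≤ 1 / 10)
    (hk : 1 ≤ k)
    (hmono : ∀ s t : ℝ, t₀ ≤ s → s ≤ t → scale lam B β s ≤ scale lam B β t)
    (ht₀ : t₀ ≤ (1 - θ) * k)
    (hsc : scale lam B β ((1 + θ) * k) ≤ (k : ℝ) ^ v₁) (hm : m ∈ cenSet θ k) :
    1 ≤ m ∧ 0 < Real.log m ∧ Real.log m ≤ 2 * k ∧ 0 ≤ wk k m ∧
      wk k m ≤ Real.exp (-((1 - 3 * θ) * k)) ∧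
      (repCount m (scale lam B β (Real.log m)) : ℝ) ≤ (k : ℝ) ^ v₁ ∧
      piR (scale lam B β (Real.log m)) ≤ (k : ℝ) ^ v₁ ∧ 0 ≤ sing m ∧ sing m ≤ 10 * k := by
  have hkr : (1 : ℝ) ≤ k := by exact_mod_cast hk
  have h3 := (mem_cenSet hk (by linarith)).1 hm
  have hlog : 0 < Real.log m := by nlinarith [h3.1]
  have hm1 : 1 ≤ m := by
    rcases Nat.eq_zero_or_pos m with h4 | h4
    · exfalso
      rw [h4] at hlog
      simp at hlog
    · exact h4
  have hl2 : Real.log m ≤ 2 * k := by nlinarith [h3.2]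
  have h5 : scale lam B β (Real.log m) ≤ (k : ℝ) ^ v₁ :=
    (hmono _ _ (ht₀.trans h3.1) h3.2).trans hsc
  have h6 : (0 : ℝ) ≤ (k : ℝ) ^ v₁ := by positivity
  have h7 := sing_bounds m hm1
  have h8 := twinConst_pos.1
  refine ⟨hm1, hlog, hl2, ?_, wk_central_le θ hθ (by linarith) k m hk hm,
    aux_rep_le m _ _ h6 h5, aux_pi_le _ _ h6 h5, by linarith [h7.1], by linarith [h7.2]⟩
  unfold wk
  positivity

private lemma aux_even (m a M : ℕ) (hM : 2 ∣ M) (ha : Even a) (h : m ≡ a [MOD M]) : Even m := by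
  have h1 : m ≡ a [MOD 2] := h.of_dvd hM
  rw [Nat.even_iff] at ha ⊢
  rw [← ha]
  exact h1

private lemma aux_row (θ lam B β : ℝ) (k M a : ℕ) (c W : ℝ) (hM : 2 ∣ M) (ha : Even a)
    (hc : 0 ≤ c) (hW : 0 ≤ W) (hlog : ∀ m ∈ cenSet θ k, 0 < Real.log m)
    (hwk : ∀ m ∈ cenSet θ k, 0 ≤ wk k m)
    (hE : ∀ m ∈ cenSet θ k,
      wk k m * (sing m * piR (scale lam B β (Real.log m))) ≤ W) :
    c * TE θ lam B β k M a ≤ TA θ lam B β k M a +
      (((cenSet θ k).filter (fun m => Even m ∧ (repCount m (scale lam B β (Real.log m)) : ℝ) ≤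
        c * expected m (scale lam B β (Real.log m)))).card : ℝ) * (c * W) := by
  classical
  unfold TA TE
  set G := (cenSet θ k).filter (fun m => Even m ∧
    (repCount m (scale lam B β (Real.log m)) : ℝ) ≤
        c * expected m (scale lam B β (Real.log m))) with hG
  rw [Finset.mul_sum]
  have key : ∀ m ∈ (cenSet θ k).filter (fun m => m ≡ a [MOD M]),
      c * (wk k m * (sing m * piR (scale lam B β (Real.log m)))) ≤
      wk k m * Real.log m * (repCount m (scale lam B β (Real.log m)) : ℝ) +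
        (if m ∈ G then c * W else 0) := by
    intro m hm
    rw [Finset.mem_filter] at hm
    have h2 := hE m hm.1
    have h3 := hwk m hm.1
    have h4 := hlog m hm.1
    by_cases hmG : m ∈ G
    · rw [if_pos hmG]
      have h5 : 0 ≤ wk k m * Real.log m * (repCount m (scale lam B β (Real.log m)) : ℝ) := by
        positivity
      have h6 := mul_le_mul_of_nonneg_left h2 hc
      linarith
    · rw [if_neg hmG, add_zero]
      have h5 : c * expected m (scale lam B β (Real.log m)) <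
          (repCount m (scale lam B β (Real.log m)) : ℝ) := by
        by_contra hcon
        apply hmG
        rw [hG, Finset.mem_filter]
        exact ⟨hm.1, aux_even m a M hM ha hm.2, not_lt.1 hcon⟩
      unfold expected at h5
      have h6 : c * (sing m * piR (scale lam B β (Real.log m))) ≤
          Real.log m * (repCount m (scale lam B β (Real.log m)) : ℝ) := by
        have h7 := mul_le_mul_of_nonneg_left h5.le h4.le
        have e : Real.log m * (c * (sing m * piR (scale lam B β (Real.log m)) / Real.log m)) =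
            c * (sing m * piR (scale lam B β (Real.log m))) := by
          field_simp
        rw [e] at h7
        exact h7
      calc c * (wk k m * (sing m * piR (scale lam B β (Real.log m))))
          = wk k m * (c * (sing m * piR (scale lam B β (Real.log m)))) := by ring
        _ ≤ wk k m * (Real.log m * (repCount m (scale lam B β (Real.log m)) : ℝ)) :=
            mul_le_mul_of_nonneg_left h6 h3
        _ = _ := by ring
  refine (Finset.sum_le_sum key).trans ?_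
  rw [Finset.sum_add_distrib]
  apply add_le_add le_rfl
  rw [← Finset.sum_filter, Finset.sum_const, nsmul_eq_mul]
  apply mul_le_mul_of_nonneg_right _ (by positivity)
  have hss : ((cenSet θ k).filter (fun m => m ≡ a [MOD M])).filter (fun m => m ∈ G) ⊆ G := by
    intro m hm
    exact (Finset.mem_filter.1 hm).2
  exact_mod_cast Finset.card_le_card hss

/-- B2b. Many `m` with at most the average. PROOF. As B2a. With `G'` the set of the even central `m` with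
`N(m) log m ≤ (r + ε) sing m π(y(m))`: `SA ≥ (r + ε) (SE - SE_{G'})`, so
`SE_{G'} ≥ SE (1 - (r + ε/2)/(r + ε)) = SE (ε/2)/(r + ε)`; and
`SE_{G'} ≤ #G' exp (-(1-3θ)k) (8k + 2) (y₊ + 1) k` (`sing_bounds`). -/
theorem many_small (ω : ℝ → ℝ) (hω : BuchLog ω) (lam B β : ℝ) (hlam : 0 < lam) (hB : 1 < B)
    (v₁ v₂ : ℝ) (hv1 : B < v₁) (hv2 : v₁ < v₂) (hI : 0 < ∫ x in v₁..v₂, ω x)
    (ε : ℝ) (hε : 0 < ε) :
    ∃ X₀ : ℕ, ∀ X : ℕ, X₀ ≤ X → (X : ℝ) ^ (1 - ε) ≤
      (((Finset.Icc 1 X).filter (fun m => Even m ∧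
        (repCount m (scale lam B β (Real.log m)) : ℝ) ≤
        (Real.exp Real.eulerMascheroniConstant * (∫ x in v₁..v₂, ω x) / (v₂ - v₁) + ε)
          * expected m (scale lam B β (Real.log m)))).card : ℝ) := by
  obtain ⟨r, hr⟩ : ∃ r, r = Real.exp Real.eulerMascheroniConstant * (∫ x in v₁..v₂, ω x) /
    (v₂ - v₁) := ⟨_, rfl⟩
  rw [← hr]
  have hr0 : 0 < r := by
    rw [hr]
    have : 0 < v₂ - v₁ := by linarith
    have h := Real.exp_pos Real.eulerMascheroniConstant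
    positivity
  obtain ⟨θ₀, hθ₀, hmat⟩ := matrix ω hω lam B β hlam hB v₁ v₂ hv1 hv2 hI (ε / 2) (by positivity)
  rw [← hr] at hmat
  obtain ⟨θ, hθdef⟩ : ∃ θ, θ = min θ₀ (min (1 / 10) (ε / 7)) := ⟨_, rfl⟩
  have hθ : 0 < θ := by
    rw [hθdef]; exact lt_min hθ₀ (lt_min (by norm_num) (by positivity))
  have hθa : θ ≤ θ₀ := by rw [hθdef]; exact min_le_left _ _
  have hθb : θ ≤ 1 / 10 := by rw [hθdef]; exact (min_le_right _ _).trans (min_le_left _ _)
  have hθc : θ ≤ ε / 7 := by rw [hθdef]; exact (min_le_right _ _).trans (min_le_right _ _)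
  obtain ⟨e₀, he₀, hmat2⟩ := hmat θ hθ hθa
  obtain ⟨e, hedef⟩ : ∃ e, e = min e₀ (θ / 4) := ⟨_, rfl⟩
  have he : 0 < e := by rw [hedef]; exact lt_min he₀ (by positivity)
  have hea : e ≤ e₀ := by rw [hedef]; exact min_le_left _ _
  have heb : e ≤ θ / 4 := by rw [hedef]; exact min_le_right _ _
  obtain ⟨k₀, hmat3⟩ := hmat2 e he hea
  obtain ⟨t₀, _, hmono⟩ := scale_mono lam B β hlam hB
  obtain ⟨k₁, hk₁⟩ := scale_small lam B β hlam hB v₁ 1 1 θ hv1 one_pos one_pos hθ (by linarith) 0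
  obtain ⟨k₂, hk₂⟩ := aux_asym (θ / 2) (by positivity) (20 * (r + ε) / ε) (1 + v₁ + v₂)
  obtain ⟨k₃, hk₃⟩ := exists_nat_ge (2 * t₀)
  apply aux_choice θ ε hθ (by linarith) hθb _ (max 1 (max k₀ (max k₁ (max k₂ k₃))))
  intro k hk
  have a1 : 1 ≤ k := le_trans (le_max_left _ _) hk
  have hk' := le_trans (le_max_right _ _) hk
  have a2 : k₀ ≤ k := le_trans (le_max_left _ _) hk'
  have hk'' := le_trans (le_max_right _ _) hk'
  have a3 : k₁ ≤ k := le_trans (le_max_left _ _) hk''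
  have hkx := le_trans (le_max_right _ _) hk''
  have a4 : k₂ ≤ k := le_trans (le_max_left _ _) hkx
  have a5 : k₃ ≤ k := le_trans (le_max_right _ _) hkx
  have hkr : (1 : ℝ) ≤ k := by exact_mod_cast a1
  have ht₀ : t₀ ≤ (1 - θ) * k := by
    have : 2 * t₀ ≤ (k : ℝ) := hk₃.trans (by exact_mod_cast a5)
    nlinarith
  have hsc : scale lam B β ((1 + θ) * k) ≤ (k : ℝ) ^ v₁ := by
    have := (hk₁ k a3 k (by linarith)).1
    rwa [one_mul] at this
  obtain ⟨M, hM2, hM1, hMlog, _, hl, hSE⟩ := hmat3 k a2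
  have hcen : ∀ m ∈ cenSet θ k, _ := fun m hm =>
    aux_cen θ lam B β k m v₁ t₀ hθ hθb a1 hmono ht₀ hsc hm
  obtain ⟨W, hWdef⟩ : ∃ W, W = Real.exp (-((1 - 3 * θ) * k)) * ((10 * k) * (k : ℝ) ^ v₁) := ⟨_, rfl⟩
  have hW0 : 0 ≤ W := by rw [hWdef]; positivity
  have hE : ∀ m ∈ cenSet θ k,
      wk k m * (sing m * piR (scale lam B β (Real.log m))) ≤ W := by
    intro m hm
    obtain ⟨b1, b2, b3, b4, b5, b6, b7, b8, b9⟩ := hcen m hm
    rw [hWdef]
    have hpi : 0 ≤ piR (scale lam B β (Real.log m)) := by unfold piR; positivity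
    apply mul_le_mul b5 _ (mul_nonneg b8 hpi) (Real.exp_pos _).le
    exact mul_le_mul b9 b7 hpi (by positivity)
  obtain ⟨N, hN⟩ : ∃ N : ℝ, N = (((cenSet θ k).filter (fun m => Even m ∧
        (repCount m (scale lam B β (Real.log m)) : ℝ) ≤
        (r + ε) * expected m (scale lam B β (Real.log m)))).card : ℝ) := ⟨_, rfl⟩
  have hN0 : 0 ≤ N := by rw [hN]; positivity
  have hrow : ∀ a ∈ aSet ⌊e * k⌋₊ v₁ v₂,
      (r + ε) * (TE θ lam B β k M a / a) ≤
        TA θ lam B β k M a / a + N * ((r + ε) * W) * (1 / a) := by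
    intro a ha
    have ha2 : Even a := by
      unfold aSet at ha
      exact (Finset.mem_filter.1 ha).2
    have h1 := aux_row θ lam B β k M a (r + ε) W hM2 ha2 (by linarith) hW0
      (fun m hm => (hcen m hm).2.1) (fun m hm => (hcen m hm).2.2.2.1) hE
    rw [← hN] at h1
    have h2 : (0 : ℝ) ≤ a := Nat.cast_nonneg a
    have h3 := div_le_div_of_nonneg_right h1 h2
    calc (r + ε) * (TE θ lam B β k M a / a) = (r + ε) * TE θ lam B β k M a / a := by ring
      _ ≤ (TA θ lam B β k M a + N * ((r + ε) * W)) / a := h3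
      _ = TA θ lam B β k M a / a + N * ((r + ε) * W) * (1 / a) := by ring
  have hsum : (r + ε) * SE θ lam B β k ⌊e * k⌋₊ M v₁ v₂ ≤
      SA θ lam B β k ⌊e * k⌋₊ M v₁ v₂ + N * ((r + ε) * W) * (k : ℝ) ^ v₂ := by
    unfold SA SE
    rw [Finset.mul_sum]
    refine (Finset.sum_le_sum hrow).trans ?_
    rw [Finset.sum_add_distrib, ← Finset.mul_sum]
    apply add_le_add le_rfl
    apply mul_le_mul_of_nonneg_left _ (by positivity)
    refine (aux_sum_inv _ _ _).trans ?_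
    apply Real.rpow_le_rpow (by positivity) _ (by linarith)
    calc ((⌊e * k⌋₊ : ℕ) : ℝ) ≤ e * k := Nat.floor_le (by positivity)
      _ ≤ k := by nlinarith
  have hSE2 : Real.exp (-(θ / 2 * k)) ≤ SE θ lam B β k ⌊e * k⌋₊ M v₁ v₂ := by
    have hM0 : (0 : ℝ) < M := by exact_mod_cast hM1
    have h1 : (M : ℝ) ≤ Real.exp (θ / 2 * k) := by
      rw [← Real.log_le_iff_le_exp hM0]
      refine hMlog.trans ?_
      nlinarith
    have hS0 : 0 ≤ SE θ lam B β k ⌊e * k⌋₊ M v₁ v₂ := by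
      by_contra hcon
      rw [not_le] at hcon
      nlinarith
    have h2 : 1 ≤ Real.exp (θ / 2 * k) * SE θ lam B β k ⌊e * k⌋₊ M v₁ v₂ :=
      hSE.trans (mul_le_mul_of_nonneg_right h1 hS0)
    calc Real.exp (-(θ / 2 * k)) = Real.exp (-(θ / 2 * k)) * 1 := (mul_one _).symm
      _ ≤ Real.exp (-(θ / 2 * k)) * (Real.exp (θ / 2 * k) * SE θ lam B β k ⌊e * k⌋₊ M v₁ v₂) :=
          mul_le_mul_of_nonneg_left h2 (Real.exp_pos _).le
      _ = SE θ lam B β k ⌊e * k⌋₊ M v₁ v₂ := by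
          rw [← mul_assoc, ← Real.exp_add]; simp
  have hmain : ε / 2 * SE θ lam B β k ⌊e * k⌋₊ M v₁ v₂ ≤ N * ((r + ε) * W) * (k : ℝ) ^ v₂ := by
    linarith
  have hk0 : (0 : ℝ) < k := by linarith
  have hpow : (k : ℝ) ^ (1 + v₁ + v₂) = k * (k : ℝ) ^ v₁ * (k : ℝ) ^ v₂ := by
    rw [Real.rpow_add hk0, Real.rpow_add hk0, Real.rpow_one]
  have hfin := aux_final θ k N (ε / 2) (10 * (r + ε) * (k : ℝ) ^ (1 + v₁ + v₂)) (by positivity) (by
    calc ε / 2 * Real.exp (-(θ / 2 * k)) ≤ ε / 2 * SE θ lam B β k ⌊e * k⌋₊ M v₁ v₂ :=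
          mul_le_mul_of_nonneg_left hSE2 (by positivity)
      _ ≤ N * ((r + ε) * W) * (k : ℝ) ^ v₂ := hmain
      _ = N * (Real.exp (-((1 - 3 * θ) * k)) * (10 * (r + ε) * (k : ℝ) ^ (1 + v₁ + v₂))) := by
          rw [hWdef, hpow]; ring) (by
    have h1 := hk₂ k a4
    rw [div_mul_eq_mul_div, div_le_iff₀ hε] at h1
    linarith)
  rw [hN] at hfin
  exact hfin

end Pool.Agent.MG
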