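import Mathlib
import Pool.Agent.Lib.MP_bae66e_nt.Mg.G034

set_option autoImplicit false

namespace Pool.Agent.MG

open Pool.Agent.GM

/-- F1. PROOF. `ω > 0`: on `[1,2]` `ω u = 1/u`; for `n ≥ 2` and `u ∈ [n, n+1]`,
`u ω u = 1 + ∫_1^{u-1} ω ≥ 1` by induction (`ω > 0` on `[1, n]`). -/
lemma omega_pos (ω : ℝ → ℝ) (hc : ContinuousOn ω (Set.Ici 1))
    (h12 : ∀ u, 1 ≤ u → u ≤ 2 → u * ω u = 1)
    (h2 : ∀ u, 2 ≤ u → u * ω u = 1 + ∫ x in (1 : ℝ)..(u - 1), ω x) :
    ∀ u, 1 ≤ u → 0 < ω u := by
  have key : ∀ n : ℕ, ∀ u : ℝ, 1 ≤ u → u ≤ n + 2 → 0 < ω u := by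
    intro n
    induction n with
    | zero =>
      intro u hu1 hu2
      have h := h12 u hu1 (by simpa using hu2)
      by_contra hcon
      rw [not_lt] at hcon
      nlinarith
    | succ n ih =>
      intro u hu1 hu2
      by_cases hu : u ≤ 2
      · have h := h12 u hu1 hu
        by_contra hcon
        rw [not_lt] at hcon
        nlinarith
      · rw [not_le] at hu
        have h := h2 u hu.le
        have h3 : 0 ≤ ∫ x in (1 : ℝ)..(u - 1), ω x := by
          apply intervalIntegral.integral_nonneg (by linarith)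
          intro x hx
          refine (ih x hx.1 ?_).le
          push_cast at hu2
          linarith [hx.2]
        by_contra hcon
        rw [not_lt] at hcon
        nlinarith
  intro u hu
  obtain ⟨n, hn⟩ := exists_nat_ge u
  exact key n u hu (by linarith)

end Pool.Agent.MG
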