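import Mathlib
import Pool.Agent.Lib.MP_bae66e_nt.MG.B2a
import Pool.Agent.Lib.MP_bae66e_nt.MG.B2b
import Pool.Agent.Lib.MP_bae66e_nt.MG.F1

set_option autoImplicit false

namespace Pool.Agent.MG

open Pool.Agent.GM

private lemma aux_expected_nonneg (m : ℕ) (y : ℝ) (hm : 1 ≤ m) : 0 ≤ expected m y := by
  have h1 := (sing_bounds m hm).1
  have h2 := twinConst_pos.1
  have h3 : 0 ≤ piR y := by unfold piR; positivity
  have h4 : 0 ≤ Real.log (m : ℝ) := Real.log_natCast_nonneg m
  unfold expected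
  have h5 : 0 ≤ sing m := by linarith
  positivity

private lemma aux_rpow (X : ℕ) (hX : 1 ≤ X) (ε ε' : ℝ) (h : ε' ≤ ε) :
    (X : ℝ) ^ (1 - ε) ≤ (X : ℝ) ^ (1 - ε') := by
  apply Real.rpow_le_rpow_of_exponent_le
  · exact_mod_cast hX
  · linarith

/-- F2. PROOF. Given `v ≥ B > 1` and `ε`, by continuity of `ω` at `v` there are `v < v₁ < v₂` (so
`B < v₁`) with `|ω x - ω v| ≤ ε/(4 e^γ)` on `[v₁, v₂]`; then the mean of `ω` over `[v₁, v₂]` is within
`ε/(4 e^γ)` of `ω v`. Use `many_large` with a small `ε' ≤ ε/2` (also less than the mean times `e^γ`,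
which is positive by `omega_pos`) and `many_small`; `X^(1-ε) ≤ X^(1-ε')`; the expected number is
nonnegative (`sing_bounds`, `twinConst_pos`). -/
theorem maier_at (ω : ℝ → ℝ) (hω : BuchLog ω) (hc : ContinuousOn ω (Set.Ici 1))
    (h12 : ∀ u, 1 ≤ u → u ≤ 2 → u * ω u = 1)
    (h2 : ∀ u, 2 ≤ u → u * ω u = 1 + ∫ x in (1 : ℝ)..(u - 1), ω x)
    (lam B β : ℝ) (hlam : 0 < lam) (hB : 1 < B) (v : ℝ) (hv : B ≤ v) (ε : ℝ) (hε : 0 < ε) :
    ∃ X₀ : ℕ, ∀ X : ℕ, X₀ ≤ X →
      (X : ℝ) ^ (1 - ε) ≤ (((Finset.Icc 1 X).filter (fun m => Even m ∧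
        (Real.exp Real.eulerMascheroniConstant * ω v - ε)
          * expected m (scale lam B β (Real.log m))
            ≤ (repCount m (scale lam B β (Real.log m)) : ℝ))).card : ℝ) ∧
      (X : ℝ) ^ (1 - ε) ≤ (((Finset.Icc 1 X).filter (fun m => Even m ∧
        (repCount m (scale lam B β (Real.log m)) : ℝ) ≤
          (Real.exp Real.eulerMascheroniConstant * ω v + ε)
            * expected m (scale lam B β (Real.log m)))).card : ℝ) := by
  have hG : 0 < Real.exp Real.eulerMascheroniConstant := Real.exp_pos _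
  set G := Real.exp Real.eulerMascheroniConstant with hGdef
  have hv1 : 1 < v := lt_of_lt_of_le hB hv
  have hcv : ContinuousAt ω v := hc.continuousAt (Ici_mem_nhds hv1)
  obtain ⟨δ, hδ, hd⟩ := Metric.continuousAt_iff.1 hcv (ε / (4 * G)) (by positivity)
  have hv12 : v + δ / 3 < v + δ / 2 := by linarith
  have hbd : ∀ x ∈ Set.Icc (v + δ / 3) (v + δ / 2), |ω x - ω v| ≤ ε / (4 * G) := by
    intro x hx
    have h3 := hd (x := x) (by
      rw [Real.dist_eq, abs_lt]
      constructor <;> linarith [hx.1, hx.2])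
    rw [Real.dist_eq] at h3
    exact h3.le
  have hsub : Set.uIcc (v + δ / 3) (v + δ / 2) ⊆ Set.Ici 1 := by
    rw [Set.uIcc_of_le hv12.le]
    intro x hx
    exact le_trans (by linarith) hx.1
  have hint : IntervalIntegrable ω MeasureTheory.volume (v + δ / 3) (v + δ / 2) :=
    (hc.mono hsub).intervalIntegrable
  have hI : 0 < ∫ x in (v + δ / 3)..(v + δ / 2), ω x := by
    apply intervalIntegral.intervalIntegral_pos_of_pos_on hint _ hv12
    intro x hx
    exact omega_pos ω hc h12 h2 x (by linarith [hx.1])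
  have hlen : (v + δ / 2) - (v + δ / 3) = δ / 6 := by ring
  have hIbd : |(∫ x in (v + δ / 3)..(v + δ / 2), ω x) - δ / 6 * ω v| ≤ ε / (4 * G) * (δ / 6) := by
    have h3 : (∫ x in (v + δ / 3)..(v + δ / 2), ω x) - δ / 6 * ω v =
        ∫ x in (v + δ / 3)..(v + δ / 2), (ω x - ω v) := by
      rw [intervalIntegral.integral_sub hint intervalIntegrable_const,
        intervalIntegral.integral_const, hlen, smul_eq_mul]
    rw [h3]
    have h4 := intervalIntegral.norm_integral_le_of_norm_le_const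
      (a := v + δ / 3) (b := v + δ / 2) (f := fun x => ω x - ω v) (C := ε / (4 * G)) (by
        intro x hx
        rw [Set.uIoc_of_le hv12.le] at hx
        rw [Real.norm_eq_abs]
        exact hbd x ⟨hx.1.le, hx.2⟩)
    rw [Real.norm_eq_abs, hlen, abs_of_pos (show 0 < δ / 6 by positivity)] at h4
    exact h4
  set I := ∫ x in (v + δ / 3)..(v + δ / 2), ω x with hIdef
  obtain ⟨r, hr⟩ : ∃ r, r = G * I / ((v + δ / 2) - (v + δ / 3)) := ⟨_, rfl⟩
  have hr0 : 0 < r := by rw [hr, hlen]; positivity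
  have hrb : |r - G * ω v| ≤ ε / 4 := by
    have e : r - G * ω v = (G / (δ / 6)) * (I - δ / 6 * ω v) := by
      rw [hr, hlen]; field_simp
    rw [e, abs_mul, abs_of_pos (show 0 < G / (δ / 6) by positivity)]
    calc G / (δ / 6) * |I - δ / 6 * ω v| ≤ G / (δ / 6) * (ε / (4 * G) * (δ / 6)) :=
          mul_le_mul_of_nonneg_left hIbd (by positivity)
      _ = ε / 4 := by field_simp
  rw [abs_le] at hrb
  obtain ⟨ε', he'⟩ : ∃ ε', ε' = min (ε / 2) (r / 2) := ⟨_, rfl⟩
  have he0 : 0 < ε' := by rw [he']; exact lt_min (by positivity) (by positivity)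
  have he1 : ε' ≤ ε / 2 := by rw [he']; exact min_le_left _ _
  have he2 : ε' ≤ r / 2 := by rw [he']; exact min_le_right _ _
  obtain ⟨X₁, hX₁⟩ := many_large ω hω lam B β hlam hB (v + δ / 3) (v + δ / 2) (by linarith) hv12
    hI ε' he0 (by rw [← hGdef, ← hIdef, ← hr]; linarith)
  obtain ⟨X₂, hX₂⟩ := many_small ω hω lam B β hlam hB (v + δ / 3) (v + δ / 2) (by linarith) hv12
    hI (ε / 2) (by positivity)
  rw [← hGdef, ← hIdef, ← hr] at hX₁ hX₂
  refine ⟨max 1 (max X₁ X₂), ?_⟩
  intro X hX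
  have a1 : 1 ≤ X := le_trans (le_max_left _ _) hX
  have a2 : X₁ ≤ X := le_trans (le_trans (le_max_left _ _) (le_max_right _ _)) hX
  have a3 : X₂ ≤ X := le_trans (le_trans (le_max_right _ _) (le_max_right _ _)) hX
  constructor
  · refine (aux_rpow X a1 ε ε' (by linarith)).trans ((hX₁ X a2).trans ?_)
    have hss : ((Finset.Icc 1 X).filter (fun m => Even m ∧ (r - ε')
          * expected m (scale lam B β (Real.log m))
            ≤ (repCount m (scale lam B β (Real.log m)) : ℝ))) ⊆
        ((Finset.Icc 1 X).filter (fun m => Even m ∧ (G * ω v - ε)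
          * expected m (scale lam B β (Real.log m))
            ≤ (repCount m (scale lam B β (Real.log m)) : ℝ))) := by
      intro m hm
      rw [Finset.mem_filter, Finset.mem_Icc] at hm ⊢
      refine ⟨hm.1, hm.2.1, le_trans ?_ hm.2.2⟩
      apply mul_le_mul_of_nonneg_right _ (aux_expected_nonneg m _ hm.1.1)
      linarith
    exact_mod_cast Finset.card_le_card hss
  · refine (aux_rpow X a1 ε (ε / 2) (by linarith)).trans ((hX₂ X a3).trans ?_)
    have hss : ((Finset.Icc 1 X).filter (fun m => Even m ∧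
        (repCount m (scale lam B β (Real.log m)) : ℝ) ≤ (r + ε / 2)
          * expected m (scale lam B β (Real.log m)))) ⊆
        ((Finset.Icc 1 X).filter (fun m => Even m ∧
        (repCount m (scale lam B β (Real.log m)) : ℝ) ≤ (G * ω v + ε)
          * expected m (scale lam B β (Real.log m)))) := by
      intro m hm
      rw [Finset.mem_filter, Finset.mem_Icc] at hm ⊢
      refine ⟨hm.1, hm.2.1, le_trans hm.2.2 ?_⟩
      apply mul_le_mul_of_nonneg_right _ (aux_expected_nonneg m _ hm.1.1)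
      linarith
    exact_mod_cast Finset.card_le_card hss

end Pool.Agent.MG
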